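import Pool.Agent.Lib.MP_183cce_co.RR.Defs

/-!
RR-Bg: the linear algebra reduction to at most m fractional coordinates.

PROOF.  Among all y with ⌊x i⌋ ≤ y i ≤ ⌈x i⌉ and ∑ y i v i = ∑ x i v i (x itself is one) take one for which the number of
non-integral coordinates is least (`Nat.find` / strong induction on the number of non-integral coordinates of the start).  If
F = {i | y i not an integer} had more than m elements, there would be d : Fin n → ℝ, d ≠ 0, supported on F, ∑ d i v i = 0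
(more than m vectors in a space of dimension m are dependent; `Module.exists_nontrivial_relation_of_finrank_lt_card` or
`bf_kernel`/`bf_move` in Pool.Agent.Lib.MP_183cce_co.BF).  Move y + t d, t ≥ 0 from 0 until the first coordinate of F becomes
an integer: for i in F with d i > 0 the coordinate reaches ⌈y i⌉ at t = (⌈y i⌉ - y i)/d i, with d i < 0 it reaches ⌊y i⌋ at
t = (y i - ⌊y i⌋)/|d i|; t0 = the least of these; the coordinates stay in [⌊y i⌋, ⌈y i⌉] ⊆ [⌊x i⌋, ⌈x i⌉] (for i in F: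
x i is not an integer and ⌊x i⌋ ≤ y i ≤ ⌈x i⌉ = ⌊x i⌋ + 1, so the floors and ceilings agree) and one more is integral:
contradiction.
-/

set_option autoImplicit false

namespace Pool.Agent.Lib.MP_183cce_co.RR

private theorem bg_step {m n : ℕ} (v : Fin n → Fin m → ℝ) (y : Fin n → ℝ) (F : Finset (Fin n))
    (hF : ∀ i, i ∈ F ↔ ¬ ∃ z : ℤ, y i = z) (hm : m < F.card) :
    ∃ y' : Fin n → ℝ, (∀ i, (⌊y i⌋ : ℝ) ≤ y' i ∧ y' i ≤ ⌈y i⌉) ∧
      (∀ p, ∑ i, y' i * v i p = ∑ i, y i * v i p) ∧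
      (∀ i, i ∉ F → ∃ z : ℤ, y' i = z) ∧ ∃ i ∈ F, ∃ z : ℤ, y' i = z := by
  classical
  have hli : ¬ LinearIndependent ℝ (fun i : F => v i) := by
    intro h
    have h1 := h.fintype_card_le_finrank
    rw [Fintype.card_coe, Module.finrank_fin_fun] at h1
    omega
  rw [Fintype.not_linearIndependent_iff] at hli
  obtain ⟨g, hg0, j, hj⟩ := hli
  set d : Fin n → ℝ := fun i => if h : i ∈ F then g ⟨i, h⟩ else 0 with hd
  have hdF : ∀ i, i ∉ F → d i = 0 := by
    intro i hi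
    simp [hd, hi]
  have hdj : d j ≠ 0 := by
    have : d j = g j := by simp [hd, j.2]
    rw [this]; exact hj
  have hsum : ∀ p, ∑ i, d i * v i p = 0 := by
    intro p
    have h1 : ∑ i, d i * v i p = ∑ i ∈ F, d i * v i p := by
      symm
      apply Finset.sum_subset (Finset.subset_univ F)
      intro i _ hi
      rw [hdF i hi, zero_mul]
    rw [h1, ← Finset.sum_coe_sort F (fun i => d i * v i p)]
    have h2 := congrFun hg0 p
    rw [Finset.sum_apply] at h2
    rw [Pi.zero_apply] at h2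
    rw [← h2]
    apply Finset.sum_congr rfl
    intro i _
    have : d i = g i := by simp [hd, i.2]
    rw [this, Pi.smul_apply, smul_eq_mul]
  set τ : Fin n → ℝ := fun i => if 0 < d i then ((⌈y i⌉ : ℝ) - y i) / d i else ((⌊y i⌋ : ℝ) - y i) / d i with hτ
  have hne : (F.filter (fun i => d i ≠ 0)).Nonempty :=
    ⟨j, Finset.mem_filter.2 ⟨j.2, hdj⟩⟩
  obtain ⟨i0, hi0, hmin⟩ := Finset.exists_min_image (F.filter (fun i => d i ≠ 0)) τ hne
  rw [Finset.mem_filter] at hi0
  have hτ0 : ∀ i, d i ≠ 0 → 0 ≤ τ i := by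
    intro i hi
    simp only [hτ]
    split_ifs with h
    · exact div_nonneg (by linarith [Int.le_ceil (y i)]) h.le
    · have h' : d i < 0 := lt_of_le_of_ne (not_lt.1 h) hi
      exact div_nonneg_of_nonpos (by linarith [Int.floor_le (y i)]) h'.le
  have hi0n := hτ0 i0 hi0.2
  refine ⟨fun i => y i + τ i0 * d i, ?_, ?_, ?_, i0, hi0.1, ?_⟩
  · intro i
    show (⌊y i⌋ : ℝ) ≤ y i + τ i0 * d i ∧ y i + τ i0 * d i ≤ ⌈y i⌉
    have hfl := Int.floor_le (y i)
    have hce := Int.le_ceil (y i)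
    by_cases hi : i ∈ F
    · rcases lt_trichotomy (d i) 0 with h | h | h
      · have hle := hmin i (Finset.mem_filter.2 ⟨hi, h.ne⟩)
        have e : τ i = ((⌊y i⌋ : ℝ) - y i) / d i := by
          simp only [hτ]; rw [if_neg (not_lt.2 h.le)]
        have e2 : τ i * d i = (⌊y i⌋ : ℝ) - y i := by
          rw [e]; exact div_mul_cancel₀ _ h.ne
        have e3 : τ i * d i ≤ τ i0 * d i := mul_le_mul_of_nonpos_right hle h.le
        have e4 : τ i0 * d i ≤ 0 := mul_nonpos_of_nonneg_of_nonpos hi0n h.le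
        constructor <;> linarith
      · rw [h, mul_zero, add_zero]
        exact ⟨hfl, hce⟩
      · have hle := hmin i (Finset.mem_filter.2 ⟨hi, h.ne'⟩)
        have e : τ i = ((⌈y i⌉ : ℝ) - y i) / d i := by
          simp only [hτ]; rw [if_pos h]
        have e2 : τ i * d i = (⌈y i⌉ : ℝ) - y i := by
          rw [e]; exact div_mul_cancel₀ _ h.ne'
        have e3 : τ i0 * d i ≤ τ i * d i := mul_le_mul_of_nonneg_right hle h.le
        have e4 : 0 ≤ τ i0 * d i := mul_nonneg hi0n h.le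
        constructor <;> linarith
    · rw [hdF i hi, mul_zero, add_zero]
      exact ⟨hfl, hce⟩
  · intro p
    have : ∀ i, (y i + τ i0 * d i) * v i p = y i * v i p + τ i0 * (d i * v i p) := by
      intro i; ring
    simp only [this]
    rw [Finset.sum_add_distrib, ← Finset.mul_sum, hsum p, mul_zero, add_zero]
  · intro i hi
    have h1 := hF i
    have h2 : ∃ z : ℤ, y i = z := by
      by_contra h3
      exact hi (h1.2 h3)
    obtain ⟨z, hz⟩ := h2
    exact ⟨z, by show y i + τ i0 * d i = z; rw [hdF i hi, mul_zero, add_zero, hz]⟩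
  · show ∃ z : ℤ, y i0 + τ i0 * d i0 = z
    by_cases h : 0 < d i0
    · refine ⟨⌈y i0⌉, ?_⟩
      have e : τ i0 = ((⌈y i0⌉ : ℝ) - y i0) / d i0 := by
        simp only [hτ]; rw [if_pos h]
      rw [e, div_mul_cancel₀ _ hi0.2]; ring
    · refine ⟨⌊y i0⌋, ?_⟩
      have e : τ i0 = ((⌊y i0⌋ : ℝ) - y i0) / d i0 := by
        simp only [hτ]; rw [if_neg h]
      rw [e, div_mul_cancel₀ _ hi0.2]; ring

private theorem bg_ind {m n : ℕ} (v : Fin n → Fin m → ℝ) (x : Fin n → ℝ) :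
    ∀ (k : ℕ) (y : Fin n → ℝ) (F : Finset (Fin n)), (∀ i, i ∈ F ↔ ¬ ∃ z : ℤ, y i = z) → F.card ≤ k →
      (∀ i, (⌊x i⌋ : ℝ) ≤ y i ∧ y i ≤ ⌈x i⌉) → (∀ p, ∑ i, y i * v i p = ∑ i, x i * v i p) →
      ∃ y : Fin n → ℝ, (∀ i, (⌊x i⌋ : ℝ) ≤ y i ∧ y i ≤ ⌈x i⌉) ∧
      (∀ p, ∑ i, y i * v i p = ∑ i, x i * v i p) ∧
      ∃ F : Finset (Fin n), F.card ≤ m ∧ ∀ i ∉ F, ∃ z : ℤ, y i = z := by
  classical
  intro k
  induction k with
  | zero =>
    intro y F hF hk hb hs
    refine ⟨y, hb, hs, F, by omega, ?_⟩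
    intro i hi
    by_contra h
    exact hi ((hF i).2 h)
  | succ k ih =>
    intro y F hF hk hb hs
    by_cases hm : m < F.card
    · obtain ⟨y', hb', hs', hn, i0, hi0, hz0⟩ := bg_step v y F hF hm
      refine ih y' (Finset.univ.filter (fun i => ¬ ∃ z : ℤ, y' i = z)) ?_ ?_ ?_ ?_
      · intro i
        rw [Finset.mem_filter]
        exact ⟨fun h => h.2, fun h => ⟨Finset.mem_univ _, h⟩⟩
      · have hsub : (Finset.univ.filter (fun i => ¬ ∃ z : ℤ, y' i = z)) ⊂ F := by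
          rw [Finset.ssubset_iff_of_subset]
          · exact ⟨i0, hi0, fun h => (Finset.mem_filter.1 h).2 hz0⟩
          · intro i hi
            by_contra h
            exact (Finset.mem_filter.1 hi).2 (hn i h)
        have := Finset.card_lt_card hsub
        omega
      · intro i
        obtain ⟨h1, h2⟩ := hb i
        obtain ⟨h3, h4⟩ := hb' i
        have h5 : ⌊x i⌋ ≤ ⌊y i⌋ := Int.le_floor.2 h1
        have h6 : ⌈y i⌉ ≤ ⌈x i⌉ := Int.ceil_le.2 h2
        have h5' : (⌊x i⌋ : ℝ) ≤ ⌊y i⌋ := by exact_mod_cast h5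
        have h6' : (⌈y i⌉ : ℝ) ≤ ⌈x i⌉ := by exact_mod_cast h6
        exact ⟨h5'.trans h3, h4.trans h6'⟩
      · intro p
        rw [hs' p, hs p]
    · refine ⟨y, hb, hs, F, not_lt.1 hm, ?_⟩
      intro i hi
      by_contra h
      exact hi ((hF i).2 h)

theorem bg {m n : ℕ} (v : Fin n → Fin m → ℝ) (x : Fin n → ℝ) :
    ∃ y : Fin n → ℝ, (∀ i, (⌊x i⌋ : ℝ) ≤ y i ∧ y i ≤ ⌈x i⌉) ∧
      (∀ p, ∑ i, y i * v i p = ∑ i, x i * v i p) ∧
      ∃ F : Finset (Fin n), F.card ≤ m ∧ ∀ i ∉ F, ∃ z : ℤ, y i = z := by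
  classical
  refine bg_ind v x (Finset.univ.filter (fun i => ¬ ∃ z : ℤ, x i = z)).card x
    (Finset.univ.filter (fun i => ¬ ∃ z : ℤ, x i = z)) ?_ le_rfl ?_ ?_
  · intro i
    rw [Finset.mem_filter]
    exact ⟨fun h => h.2, fun h => ⟨Finset.mem_univ _, h⟩⟩
  · intro i
    exact ⟨Int.floor_le _, Int.le_ceil _⟩
  · intro p
    rfl

end Pool.Agent.Lib.MP_183cce_co.RR
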