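import Pool.Agent.Lib.MP_183cce_co.RR.Defs

/-!
RR-Cnt: two counting bounds.

PROOFS.
`choose_le`: for 0 < x: N.choose s · x^s ≤ (1+x)^N (`add_pow`, one term), 1 + x ≤ exp x, so
N.choose s ≤ x^(-s) exp(x N); take x = s/M (M ≥ N, s ≥ 1, s ≤ N): N.choose s ≤ (M/s)^s exp(s N/M) ≤ exp(s (1 + log (M/s))).
`card_small_sets`: 0 < τ ≤ 1, every T with |T| ≤ τ m has τ^(|T| - τ m) ≥ 1, so
#{T} ≤ ∑_T τ^|T| τ^(-τ m) = τ^(-τ m) (1+τ)^m ≤ exp(τ m log(1/τ) + τ m) (`Finset.prod_add` /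
`Finset.sum_pow_mul_eq_add_pow`: ∑_{T} τ^|T| 1^(m-|T|) = (τ+1)^m).
`x_log`: for 0 < x ≤ 1: x(1 + log(1/x)) ≤ 2 √x: log(1/x) = 2 log(1/√x) ≤ 2(1/√x - 1), so 1 + log(1/x) ≤ 2/√x - 1 ≤ 2/√x.
-/

set_option autoImplicit false

namespace Pool.Agent.Lib.MP_183cce_co.RR

theorem choose_le {N s : ℕ} (hs : 1 ≤ s) {M : ℝ} (hM : (N : ℝ) ≤ M) (hsN : s ≤ N) :
    (N.choose s : ℝ) ≤ Real.exp (s * (1 + Real.log (M / s))) := by
  have hs0 : (0 : ℝ) < s := by exact_mod_cast hs
  have hN0 : (0 : ℝ) < N := by exact_mod_cast (lt_of_lt_of_le hs hsN)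
  have hM0 : (0 : ℝ) < M := lt_of_lt_of_le hN0 hM
  set x : ℝ := s / M with hx
  have hx0 : 0 < x := div_pos hs0 hM0
  have h1 : x ^ s * (N.choose s : ℝ) ≤ (x + 1) ^ N := by
    rw [add_pow]
    have h := Finset.single_le_sum (s := Finset.range (N + 1))
      (f := fun k => x ^ k * (1 : ℝ) ^ (N - k) * (N.choose k : ℝ))
      (fun k _ => by positivity) (Finset.mem_range.mpr (Nat.lt_succ_of_le hsN))
    simpa using h
  have h2 : (x + 1) ^ N ≤ Real.exp (x * N) := by
    have h3 : (x + 1) ^ N ≤ (Real.exp x) ^ N :=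
      pow_le_pow_left₀ (by positivity) (Real.add_one_le_exp x) N
    rwa [← Real.exp_nat_mul, mul_comm (N : ℝ) x] at h3
  have h3 : x * N ≤ s := by
    rw [hx, div_mul_eq_mul_div, div_le_iff₀ hM0]
    exact mul_le_mul_of_nonneg_left hM hs0.le
  have h4 : Real.exp (s * (1 + Real.log (M / s))) * x ^ s = Real.exp s := by
    have hlog : Real.log (M / s) = - Real.log x := by
      rw [hx, ← Real.log_inv, inv_div]
    have hxs : x ^ s = Real.exp (s * Real.log x) := by
      rw [Real.exp_nat_mul, Real.exp_log hx0]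
    rw [hxs, ← Real.exp_add, hlog]
    congr 1
    ring
  have h5 : x ^ s * (N.choose s : ℝ) ≤ Real.exp (s * (1 + Real.log (M / s))) * x ^ s := by
    rw [h4]
    exact h1.trans (h2.trans (Real.exp_le_exp.mpr h3))
  rw [mul_comm] at h5
  exact le_of_mul_le_mul_right h5 (by positivity)

theorem card_small_sets (m : ℕ) {τ : ℝ} (h0 : 0 < τ) (h1 : τ ≤ 1) :
    ((Finset.univ.filter fun T : Finset (Fin m) => (T.card : ℝ) ≤ τ * m).card : ℝ)
      ≤ Real.exp (m * (τ * (1 + Real.log (1 / τ)))) := by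
  have hsum : ∑ T : Finset (Fin m), τ ^ T.card = (τ + 1) ^ m := by
    have h := Fintype.sum_pow_mul_eq_add_pow (Fin m) τ 1
    simpa using h
  have hlogτ : Real.log τ ≤ 0 := Real.log_nonpos h0.le h1
  have hterm : ∀ T ∈ Finset.univ.filter (fun T : Finset (Fin m) => (T.card : ℝ) ≤ τ * m),
      (1 : ℝ) ≤ τ ^ T.card * Real.exp (-(τ * m) * Real.log τ) := by
    intro T hT
    rw [Finset.mem_filter] at hT
    have hp : τ ^ T.card = Real.exp (T.card * Real.log τ) := by
      rw [Real.exp_nat_mul, Real.exp_log h0]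
    rw [hp, ← Real.exp_add]
    apply Real.one_le_exp
    have : ((T.card : ℝ) - τ * m) * Real.log τ ≥ 0 :=
      mul_nonneg_of_nonpos_of_nonpos (by linarith [hT.2]) hlogτ
    linarith
  have hcard : ((Finset.univ.filter fun T : Finset (Fin m) => (T.card : ℝ) ≤ τ * m).card : ℝ)
      ≤ ∑ T : Finset (Fin m), τ ^ T.card * Real.exp (-(τ * m) * Real.log τ) := by
    calc ((Finset.univ.filter fun T : Finset (Fin m) => (T.card : ℝ) ≤ τ * m).card : ℝ)
        = ∑ _T ∈ Finset.univ.filter (fun T : Finset (Fin m) => (T.card : ℝ) ≤ τ * m), (1 : ℝ) := by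
          simp
      _ ≤ ∑ T ∈ Finset.univ.filter (fun T : Finset (Fin m) => (T.card : ℝ) ≤ τ * m),
            τ ^ T.card * Real.exp (-(τ * m) * Real.log τ) := Finset.sum_le_sum hterm
      _ ≤ ∑ T : Finset (Fin m), τ ^ T.card * Real.exp (-(τ * m) * Real.log τ) :=
          Finset.sum_le_sum_of_subset_of_nonneg (Finset.filter_subset _ _)
            (fun T _ _ => by positivity)
  have h2 : (τ + 1) ^ m ≤ Real.exp (m * τ) := by
    rw [Real.exp_nat_mul]
    exact pow_le_pow_left₀ (by positivity) (Real.add_one_le_exp τ) m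
  calc ((Finset.univ.filter fun T : Finset (Fin m) => (T.card : ℝ) ≤ τ * m).card : ℝ)
      ≤ ∑ T : Finset (Fin m), τ ^ T.card * Real.exp (-(τ * m) * Real.log τ) := hcard
    _ = (τ + 1) ^ m * Real.exp (-(τ * m) * Real.log τ) := by
        rw [← Finset.sum_mul, hsum]
    _ ≤ Real.exp (m * τ) * Real.exp (-(τ * m) * Real.log τ) :=
        mul_le_mul_of_nonneg_right h2 (Real.exp_pos _).le
    _ = Real.exp (m * (τ * (1 + Real.log (1 / τ)))) := by
        rw [← Real.exp_add, one_div, Real.log_inv]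
        congr 1
        ring

theorem x_log {x : ℝ} (h0 : 0 < x) (h1 : x ≤ 1) : x * (1 + Real.log (1 / x)) ≤ 2 * Real.sqrt x := by
  set y := Real.sqrt x with hy
  have hy0 : 0 < y := Real.sqrt_pos.mpr h0
  have hxy : x = y * y := (Real.mul_self_sqrt h0.le).symm
  have hlog : Real.log (1 / x) = 2 * Real.log (1 / y) := by
    rw [hxy, one_div, one_div, Real.log_inv, Real.log_inv, Real.log_mul hy0.ne' hy0.ne']
    ring
  have h3 : Real.log (1 / y) ≤ 1 / y - 1 := Real.log_le_sub_one_of_pos (by positivity)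
  have h4 : 1 + Real.log (1 / x) ≤ 2 / y := by
    rw [hlog]
    have : (2 : ℝ) / y = 2 * (1 / y) := by ring
    rw [this]
    linarith
  calc x * (1 + Real.log (1 / x)) ≤ x * (2 / y) := mul_le_mul_of_nonneg_left h4 h0.le
    _ = 2 * y := by
        rw [hxy]
        field_simp

end Pool.Agent.Lib.MP_183cce_co.RR
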