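import Pool.Agent.Lib.MP_183cce_co.RR.Defs

/-!
RR-Cpt: the orthogonal group is compact; its Haar probability measure is right invariant and exists.

PROOFS.
`compact_orth`: the set of orthogonal matrices is closed in `Matrix (Fin m) (Fin m) ℝ` (= `Fin m → Fin m → ℝ` with the
product topology) and contained in the compact set of matrices with all entries in [-1,1]
(`isCompact_univ_pi`, `isCompact_Icc`; entries: ∑_r U_pr² = 1); `isCompact_iff_compactSpace`.
`haar_right`: `isHaarMeasure_map_mul_right` and `isHaarMeasure_eq_of_isProbabilityMeasure` (uniqueness).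
`haar_exists`: `haarMeasure ⊤` (PositiveCompacts of a compact space), normalised: `haarMeasure_self` gives measure
1 to the whole group.
-/

set_option autoImplicit false

open MeasureTheory

namespace Pool.Agent.Lib.MP_183cce_co.RR

private theorem entry_le {m : ℕ} (U : Matrix.orthogonalGroup (Fin m) ℝ) (p q : Fin m) :
    |U.1 p q| ≤ 1 := by
  have h1 : U.1 * star U.1 = 1 := (Matrix.mem_orthogonalGroup_iff (Fin m) ℝ).1 U.2
  have h2 := congrFun (congrFun h1 p) p
  rw [Matrix.mul_apply, Matrix.one_apply_eq] at h2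
  have h3 : U.1 p q ^ 2 ≤ 1 := by
    rw [← h2]
    have h4 : ∀ j, U.1 p j * (star U.1) j p = U.1 p j ^ 2 := by
      intro j
      rw [Matrix.star_apply]
      simp [sq]
    simp only [h4]
    exact Finset.single_le_sum (f := fun j => U.1 p j ^ 2) (fun j _ => sq_nonneg _)
      (Finset.mem_univ q)
  exact abs_le_one_iff_mul_self_le_one.2 (by rwa [← sq])

instance compact_orth (m : ℕ) : CompactSpace (Matrix.orthogonalGroup (Fin m) ℝ) := by
  have hK : IsCompact (Set.univ.pi fun _ : Fin m => Set.univ.pi fun _ : Fin m =>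
      Set.Icc (-1 : ℝ) 1) := isCompact_univ_pi fun _ => isCompact_univ_pi fun _ => isCompact_Icc
  have hcl : IsClosed {A : Matrix (Fin m) (Fin m) ℝ | A * star A = 1} := by
    apply isClosed_eq
    · exact continuous_id.matrix_mul continuous_star
    · exact continuous_const
  have hc2 : IsCompact {A : Matrix (Fin m) (Fin m) ℝ | A * star A = 1} := by
    apply hK.of_isClosed_subset hcl
    intro A hA p _ q _
    have := entry_le ⟨A, (Matrix.mem_orthogonalGroup_iff (Fin m) ℝ).2 hA⟩ p q
    exact ⟨(abs_le.1 this).1, (abs_le.1 this).2⟩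
  have h5 : {A : Matrix (Fin m) (Fin m) ℝ | A * star A = 1}
      = (Matrix.orthogonalGroup (Fin m) ℝ : Set (Matrix (Fin m) (Fin m) ℝ)) := by
    ext A
    exact (Matrix.mem_orthogonalGroup_iff (Fin m) ℝ).symm
  rw [h5] at hc2
  exact isCompact_iff_compactSpace.1 hc2

theorem haar_right {m : ℕ} [MeasurableSpace (Matrix.orthogonalGroup (Fin m) ℝ)]
    [BorelSpace (Matrix.orthogonalGroup (Fin m) ℝ)]
    (μ : Measure (Matrix.orthogonalGroup (Fin m) ℝ)) [IsProbabilityMeasure μ] [μ.IsHaarMeasure]
    (R : Matrix.orthogonalGroup (Fin m) ℝ) : Measure.map (fun U => U * R) μ = μ := by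
  have h1 : (Measure.map (fun U => U * R) μ).IsHaarMeasure :=
    Measure.isHaarMeasure_map_mul_right μ R
  have h2 : IsProbabilityMeasure (Measure.map (fun U => U * R) μ) :=
    Measure.isProbabilityMeasure_map (measurable_mul_const R).aemeasurable
  exact Measure.isHaarMeasure_eq_of_isProbabilityMeasure _ _

theorem haar_exists (m : ℕ) [MeasurableSpace (Matrix.orthogonalGroup (Fin m) ℝ)]
    [BorelSpace (Matrix.orthogonalGroup (Fin m) ℝ)] :
    ∃ μ : Measure (Matrix.orthogonalGroup (Fin m) ℝ), IsProbabilityMeasure μ ∧ μ.IsHaarMeasure := by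
  refine ⟨Measure.haarMeasure ⊤, ⟨?_⟩, inferInstance⟩
  have := Measure.haarMeasure_self (K₀ := (⊤ : TopologicalSpace.PositiveCompacts (Matrix.orthogonalGroup (Fin m) ℝ)))
  simpa using this

/-- the rotated vector depends measurably on the rotation -/
theorem measurable_rot {m : ℕ} [MeasurableSpace (Matrix.orthogonalGroup (Fin m) ℝ)]
    [BorelSpace (Matrix.orthogonalGroup (Fin m) ℝ)] (p q : Fin m) :
    Measurable fun U : Matrix.orthogonalGroup (Fin m) ℝ => U.1 p q := by
  have : Continuous fun U : Matrix.orthogonalGroup (Fin m) ℝ => U.1 p q :=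
    (continuous_apply_apply p q).comp continuous_subtype_val
  exact this.measurable

end Pool.Agent.Lib.MP_183cce_co.RR
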