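import Mathlib

/-!
MP_183cce_co, project RR (random rotations), definitions.
-/

set_option autoImplicit false

namespace Pool.Agent.Lib.MP_183cce_co.RR

/-- the sign of a Boolean -/
def sg (b : Bool) : ℝ := if b then 1 else -1

theorem sg_sq (b : Bool) : sg b ^ 2 = 1 := by
  unfold sg; split <;> norm_num

/-- `phi u = min (u, u √u)` -/
noncomputable def phi (u : ℝ) : ℝ := min u (u * Real.sqrt u)

/-- the weight of an integer -/
noncomputable def wt (q : ℝ) (k : ℤ) : ℝ := if k = 0 then 0 else Real.log ((k : ℝ) ^ 2 / q)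

/-- the mass of the vector `x` on the set `T` of coordinates -/
def mass {m : ℕ} (T : Finset (Fin m)) (x : Fin m → ℝ) : ℝ := ∑ p ∈ T, x p ^ 2

theorem mass_nonneg {m : ℕ} (T : Finset (Fin m)) (x : Fin m → ℝ) : 0 ≤ mass T x :=
  Finset.sum_nonneg fun _ _ => sq_nonneg _

/-- the standard Gaussian measure -/
noncomputable def gau (m : ℕ) : MeasureTheory.Measure (Fin m → ℝ) :=
  MeasureTheory.Measure.pi fun _ => ProbabilityTheory.gaussianReal 0 1

instance (m : ℕ) : MeasureTheory.IsProbabilityMeasure (gau m) := by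
  unfold gau; infer_instance

/-- Every real vector `x` can be rounded to an integer vector `a`, each coordinate by less than
one, with an error vector whose coordinates are at most `C`. -/
def Rounds {X ι : Type} [Fintype ι] (v : ι → X → ℝ) (C : ℝ) : Prop :=
  ∀ x : ι → ℝ, ∃ a : ι → ℤ, (∀ i, |x i - a i| < 1) ∧ ∀ p, |∑ i, (x i - a i) * v i p| ≤ C

theorem Rounds.mono {X ι : Type} [Fintype ι] {v : ι → X → ℝ} {C C' : ℝ} (h : Rounds v C)
    (hC : C ≤ C') : Rounds v C' := fun x => by
  obtain ⟨a, ha, hb⟩ := h x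
  exact ⟨a, ha, fun p => (hb p).trans hC⟩

/-- Every point of the real span of the vectors `v i` is within `C` (maximum norm) of their
integer span. -/
def CoveringRadiusLE {X ι : Type} [Fintype ι] (v : ι → X → ℝ) (C : ℝ) : Prop :=
  ∀ x : ι → ℝ, ∃ a : ι → ℤ, ∀ p, |∑ i, x i * v i p - ∑ i, (a i : ℝ) * v i p| ≤ C

/-- a partial signing of the set `S` of columns: entries `0, ±1`, zero outside `S`, at least
`|S|/16` entries nonzero, and all row sums at most `b` -/
def PartialSigning {m : ℕ} {ι : Type} [DecidableEq ι] (a : Fin m → ι → ℝ) (S : Finset ι) (b : ℝ)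
    (χ : ι → ℤ) : Prop :=
  (∀ i, χ i = 0 ∨ χ i = 1 ∨ χ i = -1) ∧ S.card ≤ 16 * (S.filter fun i => χ i ≠ 0).card ∧
    ∀ p, |∑ i ∈ S, a p i * χ i| ≤ b

end Pool.Agent.Lib.MP_183cce_co.RR
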