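import Pool.Agent.Lib.MP_183cce_co.RR.Gmg

/-!
RR-Dir: exponential moment of the mass of the direction g/|g|.

PROOF.  Let N = ∑ g_p².  If N ≥ m/2 (m ≥ 1, so N > 0): (m/16)(mass T g/N) ≤ mass T g/8.  If N < m/2: mass T g ≤ N, so
mass T g/N ≤ 1 (also for N = 0, 0/0 = 0) and the integrand is ≤ exp(m/16).  So the integral is
≤ ∫⁻ exp(mass T g/8) + exp(m/16) gau{N < m/2} ≤ exp(|T|/6) + 1 ≤ 2 exp(|T|/6).  (m = 0: everything is 1.)
Pointwise: integrand ≤ ofReal(exp(mass T g/8)) + indicator {N < m/2} (ofReal (exp (m/16))); use `lintegral_add_right`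
/ `lintegral_indicator_const`, the set is measurable.
-/

set_option autoImplicit false

open MeasureTheory

namespace Pool.Agent.Lib.MP_183cce_co.RR

theorem dir_gau {m : ℕ} (T : Finset (Fin m)) :
    ∫⁻ g, ENNReal.ofReal (Real.exp ((m : ℝ) / 16 * (mass T g / ∑ p, g p ^ 2))) ∂(gau m)
      ≤ ENNReal.ofReal (2 * Real.exp ((T.card : ℝ) / 6)) := by
  classical
  set S : Set (Fin m → ℝ) := {g | ∑ p, g p ^ 2 < (m : ℝ) / 2} with hS
  have hmeas : MeasurableSet S := by
    refine measurableSet_lt ?_ measurable_const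
    exact Finset.measurable_sum _ fun p _ => (measurable_pi_apply p).pow_const 2
  have hpt : ∀ g : Fin m → ℝ, ENNReal.ofReal (Real.exp ((m : ℝ) / 16 * (mass T g / ∑ p, g p ^ 2))) ≤
      ENNReal.ofReal (Real.exp (mass T g / 8)) +
        S.indicator (fun _ => ENNReal.ofReal (Real.exp ((m : ℝ) / 16))) g := by
    intro g
    have hm0 : (0 : ℝ) ≤ m := Nat.cast_nonneg m
    have hmass : mass T g ≤ ∑ p, g p ^ 2 :=
      Finset.sum_le_sum_of_subset_of_nonneg (Finset.subset_univ T) fun _ _ _ => sq_nonneg _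
    have hN : 0 ≤ ∑ p, g p ^ 2 := Finset.sum_nonneg fun _ _ => sq_nonneg _
    by_cases h : g ∈ S
    · rw [Set.indicator_of_mem h]
      refine le_trans (ENNReal.ofReal_le_ofReal (Real.exp_le_exp.mpr ?_)) le_add_self
      have h1 : mass T g / ∑ p, g p ^ 2 ≤ 1 := div_le_one_of_le₀ hmass hN
      have h2 := mul_le_mul_of_nonneg_left h1 (div_nonneg hm0 (by norm_num : (0 : ℝ) ≤ 16))
      linarith
    · rw [Set.indicator_of_notMem h, add_zero]
      refine ENNReal.ofReal_le_ofReal (Real.exp_le_exp.mpr ?_)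
      have h1 : (m : ℝ) / 2 ≤ ∑ p, g p ^ 2 := not_lt.mp h
      rcases Nat.eq_zero_or_pos m with h0 | h0
      · have h2 : (m : ℝ) = 0 := by rw [h0]; norm_num
        rw [h2]
        have := mass_nonneg T g
        simp only [zero_div, zero_mul]
        positivity
      · have h2 : (0 : ℝ) < m := by exact_mod_cast h0
        have h3 : 0 < ∑ p, g p ^ 2 := by linarith
        rw [mul_div_assoc', div_le_iff₀ h3]
        have h4 := mass_nonneg T g
        nlinarith [mul_le_mul_of_nonneg_left h1 h4]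
  refine (lintegral_mono hpt).trans ?_
  have hc : Measurable fun g : Fin m → ℝ =>
      S.indicator (fun _ => ENNReal.ofReal (Real.exp ((m : ℝ) / 16))) g :=
    measurable_const.indicator hmeas
  rw [lintegral_add_right _ hc, lintegral_indicator_const hmeas]
  have h1 := gau_mass T
  have h2 := gau_small m
  have h3 : ENNReal.ofReal (Real.exp ((m : ℝ) / 16)) * (gau m) S ≤ 1 := by
    refine (mul_le_mul_right h2 _).trans ?_
    rw [← ENNReal.ofReal_mul (Real.exp_nonneg _), ← Real.exp_add]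
    rw [show (m : ℝ) / 16 + -((m : ℝ) / 16) = 0 by ring, Real.exp_zero, ENNReal.ofReal_one]
  refine (add_le_add h1 h3).trans ?_
  rw [← ENNReal.ofReal_one, ← ENNReal.ofReal_add (Real.exp_nonneg _) zero_le_one]
  refine ENNReal.ofReal_le_ofReal ?_
  have h4 : 1 ≤ Real.exp ((T.card : ℝ) / 6) := Real.one_le_exp (by positivity)
  linarith

end Pool.Agent.Lib.MP_183cce_co.RR
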