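import Pool.Agent.Lib.MP_183cce_co.RR.Defs

/-!
RR-Inv: rotations.

PROOFS.
`gau_inv`: Mathlib `ProbabilityTheory.map_pi_eq_stdGaussian` (gau m mapped by `WithLp.toLp 2` is
`stdGaussian (EuclideanSpace ℝ (Fin m))`) and `stdGaussian_map` for the linear isometry equivalence given by the
orthogonal matrix U; or compare characteristic functions (`Measure.ext_of_charFun`, `charFun_pi`), or the density.
`exists_rot`: if x = y take R = 1; otherwise w = x - y, R = 1 - (2/|w|²) w wᵀ (Householder), R is symmetric, R² = 1,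
and R x = x - (2⟨w,x⟩/|w|²) w = y since |x| = |y| gives 2⟨w,x⟩ = |w|².  (`Matrix.mem_orthogonalGroup_iff`,
`Matrix.vecMulVec`.)
`rot_sq`: Uᵀ U = 1.
`rot_entry_le`: |(U v)_p| ≤ |U v| = |v| = 1.
-/

set_option autoImplicit false

open MeasureTheory

namespace Pool.Agent.Lib.MP_183cce_co.RR

private theorem Inv_tr {m : ℕ} (U : Matrix.orthogonalGroup (Fin m) ℝ) :
    U.1.transpose * U.1 = 1 :=
  (Matrix.mem_orthogonalGroup_iff' (Fin m) ℝ).1 U.2

theorem rot_sq {m : ℕ} (U : Matrix.orthogonalGroup (Fin m) ℝ) (x : Fin m → ℝ) :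
    ∑ p, (U.1.mulVec x) p ^ 2 = ∑ p, x p ^ 2 := by
  have h1 : ∀ y : Fin m → ℝ, ∑ p, y p ^ 2 = dotProduct y y := by
    intro y
    unfold dotProduct
    exact Finset.sum_congr rfl fun p _ => sq (y p)
  rw [h1, h1, Matrix.dotProduct_mulVec, ← Matrix.mulVec_transpose, Matrix.mulVec_mulVec, Inv_tr,
    Matrix.one_mulVec]

private theorem Inv_norm {m : ℕ} (U : Matrix.orthogonalGroup (Fin m) ℝ)
    (x : EuclideanSpace ℝ (Fin m)) : ‖Matrix.toEuclideanLin U.1 x‖ = ‖x‖ := by
  rw [EuclideanSpace.norm_eq, EuclideanSpace.norm_eq]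
  congr 1
  have h := rot_sq U (WithLp.ofLp x)
  simp only [Real.norm_eq_abs, sq_abs]
  exact h

theorem gau_inv {m : ℕ} (U : Matrix.orthogonalGroup (Fin m) ℝ) :
    Measure.map (fun g => U.1.mulVec g) (gau m) = gau m := by
  set L : EuclideanSpace ℝ (Fin m) →ₗᵢ[ℝ] EuclideanSpace ℝ (Fin m) :=
    ⟨Matrix.toEuclideanLin U.1, Inv_norm U⟩ with hL
  set f : EuclideanSpace ℝ (Fin m) ≃ₗᵢ[ℝ] EuclideanSpace ℝ (Fin m) :=
    L.toLinearIsometryEquiv rfl with hf
  have hm : Measurable (WithLp.toLp 2 : (Fin m → ℝ) → EuclideanSpace ℝ (Fin m)) := by fun_prop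
  have hm2 : Measurable (WithLp.ofLp : EuclideanSpace ℝ (Fin m) → (Fin m → ℝ)) := by fun_prop
  have hU : Measurable (fun g : Fin m → ℝ => U.1.mulVec g) := by
    have h : Continuous fun g : Fin m → ℝ => U.1.mulVec g := by fun_prop
    exact h.measurable
  have hfm : Measurable f := f.continuous.measurable
  have e1 : Measure.map (WithLp.toLp 2) (gau m) =
      ProbabilityTheory.stdGaussian (EuclideanSpace ℝ (Fin m)) :=
    ProbabilityTheory.map_pi_eq_stdGaussian
  have e2 : Measure.map f (ProbabilityTheory.stdGaussian (EuclideanSpace ℝ (Fin m))) =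
      ProbabilityTheory.stdGaussian (EuclideanSpace ℝ (Fin m)) :=
    ProbabilityTheory.stdGaussian_map f
  have e3 : (WithLp.toLp 2 : (Fin m → ℝ) → EuclideanSpace ℝ (Fin m)) ∘ (fun g => U.1.mulVec g) =
      f ∘ WithLp.toLp 2 := by
    funext g
    rfl
  have e4 : Measure.map (WithLp.toLp 2) (Measure.map (fun g => U.1.mulVec g) (gau m)) =
      Measure.map (WithLp.toLp 2) (gau m) := by
    rw [Measure.map_map hm hU, e3, ← Measure.map_map hfm hm, e1, e2]
  have e5 : ∀ μ : Measure (Fin m → ℝ), Measure.map (WithLp.ofLp : EuclideanSpace ℝ (Fin m) → _)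
      (Measure.map (WithLp.toLp 2) μ) = μ := by
    intro μ
    rw [Measure.map_map hm2 hm]
    exact Measure.map_id
  rw [← e5 (Measure.map (fun g => U.1.mulVec g) (gau m)), e4, e5]

theorem exists_rot {m : ℕ} (x y : Fin m → ℝ) (h : ∑ p, x p ^ 2 = ∑ p, y p ^ 2) :
    ∃ R : Matrix.orthogonalGroup (Fin m) ℝ, R.1.mulVec x = y := by
  classical
  by_cases hxy : x = y
  · refine ⟨1, ?_⟩
    rw [hxy]
    exact Matrix.one_mulVec y
  set w : Fin m → ℝ := x - y with hw
  have hw0 : w ≠ 0 := sub_ne_zero.2 hxy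
  set c : ℝ := dotProduct w w with hc
  have hc0 : c ≠ 0 := by
    intro h0
    exact hw0 (dotProduct_self_eq_zero.1 h0)
  have hcx : 2 * dotProduct w x = c := by
    have h1 : ∀ y : Fin m → ℝ, ∑ p, y p ^ 2 = dotProduct y y := by
      intro y
      unfold dotProduct
      exact Finset.sum_congr rfl fun p _ => sq (y p)
    rw [h1, h1] at h
    rw [hc, hw]
    simp only [sub_dotProduct, dotProduct_sub]
    rw [dotProduct_comm y x, ← h]
    ring
  set V : Matrix (Fin m) (Fin m) ℝ := Matrix.vecMulVec w w with hV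
  set R : Matrix (Fin m) (Fin m) ℝ := 1 - (2 / c) • V with hR
  have hVV : V * V = c • V := by
    ext i j
    rw [Matrix.mul_apply, Matrix.smul_apply, smul_eq_mul, hc]
    unfold dotProduct
    rw [Finset.sum_mul]
    refine Finset.sum_congr rfl fun p _ => ?_
    rw [hV, Matrix.vecMulVec_apply, Matrix.vecMulVec_apply, Matrix.vecMulVec_apply]
    ring
  have hVt : V.transpose = V := by
    ext i j
    rw [Matrix.transpose_apply, hV, Matrix.vecMulVec_apply, Matrix.vecMulVec_apply]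
    ring
  have hRt : R.transpose = R := by
    rw [hR, Matrix.transpose_sub, Matrix.transpose_smul, hVt, Matrix.transpose_one]
  have hRR : R * R = 1 := by
    rw [hR, sub_mul, mul_sub, mul_sub, one_mul, mul_one, one_mul, smul_mul_smul_comm, hVV, smul_smul]
    have e : 2 / c * (2 / c) * c = 2 / c + 2 / c := by
      field_simp
      ring
    rw [e, add_smul]
    abel
  have hmem : R ∈ Matrix.orthogonalGroup (Fin m) ℝ := by
    rw [Matrix.mem_orthogonalGroup_iff, hRt, hRR]
  refine ⟨⟨R, hmem⟩, ?_⟩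
  show R.mulVec x = y
  have hVx : V.mulVec x = dotProduct w x • w := by
    funext i
    show ∑ p, V i p * x p = (∑ p, w p * x p) * w i
    rw [Finset.sum_mul]
    refine Finset.sum_congr rfl fun p _ => ?_
    rw [hV, Matrix.vecMulVec_apply]
    ring
  rw [hR, Matrix.sub_mulVec, Matrix.one_mulVec, Matrix.smul_mulVec, hVx, smul_smul]
  have e : 2 / c * dotProduct w x = 1 := by
    rw [div_mul_eq_mul_div, hcx, div_self hc0]
  rw [e, one_smul, hw]
  abel

theorem rot_entry_le {m : ℕ} (U : Matrix.orthogonalGroup (Fin m) ℝ) (x : Fin m → ℝ)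
    (h : ∑ p, x p ^ 2 = 1) (p : Fin m) : |(U.1.mulVec x) p| ≤ 1 := by
  have h1 := rot_sq U x
  rw [h] at h1
  have h2 : (U.1.mulVec x) p ^ 2 ≤ ∑ p, (U.1.mulVec x) p ^ 2 :=
    Finset.single_le_sum (f := fun p => (U.1.mulVec x) p ^ 2) (fun _ _ => sq_nonneg _)
      (Finset.mem_univ p)
  rw [h1] at h2
  exact (sq_le_one_iff_abs_le_one _).1 h2

end Pool.Agent.Lib.MP_183cce_co.RR
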