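import Pool.Agent.Lib.MP_183cce_co.RR.Defs

/-!
RR-Lsv: rounding of arbitrary reals from signings of all subsets (Lovász-Spencer-Vesztergombi).

PROOF.  Claim: for all t ≥ 0 and all y : ι → ℤ with 0 ≤ y i ≤ 2^t there are z : ι → ℤ with 0 ≤ z i ≤ 1,
(y i = 0 → z i = 0), (y i = 2^t → z i = 1) and |∑ (y i/2^t - z i) a p i| ≤ D (2 - 2^(1-t))... in detail: by
induction on t, with bound D·(1 - 2^(-t)): t = 0: z = y.  Step t+1: S = {i | y i odd}, ε the signing of S,
y' i = y i + ε i on S (even), y' = y elsewhere, y'' = y'/2 in [0,2^t]; |∑ (y/2^(t+1) - y''/2^t) a| =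
2^(-(t+1)) |∑_S ε a| ≤ D 2^(-(t+1)); y i = 0 ⇒ y'' i = 0 and y i = 2^(t+1) ⇒ y'' i = 2^t.
Given x: f i = fract (x i) ∈ [0,1); choose t with card ι ≤ 2^t; if f i = 0 put y i = 0, otherwise choose
y i = ⌊2^t f i⌋ or that plus ... : y i = ⌊2^t f i⌋ ∈ [0, 2^t - 1], |f i - y i/2^t| ≤ 2^(-t).
z i ∈ {0,1}; final integer ⌊x i⌋ + z i.  |x i - final| = |f i - z i| < 1: it is < 1 if z i = 1 only when f i > 0: if f i = 0
then y i = 0 and z i = 0; if f i > 0, z i = 1 gives 1 - f i < 1; z i = 0 gives f i < 1.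
Error ≤ ∑ |f i - y i/2^t| |a p i| + D ≤ card ι·2^(-t) + D ≤ 1 + D.
-/

set_option autoImplicit false

namespace Pool.Agent.Lib.MP_183cce_co.RR

/-- dyadic rounding -/
private theorem lsv_dyadic {m : ℕ} {ι : Type} [Fintype ι] [DecidableEq ι] (a : Fin m → ι → ℝ)
    {D : ℝ}
    (h : ∀ S : Finset ι, ∃ ε : ι → ℤ, (∀ i, ε i = 1 ∨ ε i = -1) ∧
      ∀ p, |∑ i ∈ S, a p i * ε i| ≤ D) (t : ℕ) :
    ∀ y : ι → ℤ, (∀ i, 0 ≤ y i ∧ y i ≤ 2 ^ t) →
      ∃ z : ι → ℤ, (∀ i, z i = 0 ∨ z i = 1) ∧ (∀ i, y i = 0 → z i = 0) ∧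
        ∀ p, |∑ i, ((y i : ℝ) / 2 ^ t - z i) * a p i| ≤ D * (1 - (1 / 2) ^ t) := by
  induction t with
  | zero =>
    intro y hy
    refine ⟨y, fun i => ?_, fun i h => h, fun p => ?_⟩
    · have h1 := hy i
      rw [pow_zero] at h1
      omega
    · simp
  | succ t ih =>
    intro y hy
    obtain ⟨ε, hε, hS⟩ := h (Finset.univ.filter fun i => y i % 2 = 1)
    obtain ⟨e, he⟩ : ∃ e : ι → ℤ, e = fun i => if y i % 2 = 1 then ε i else 0 := ⟨_, rfl⟩
    obtain ⟨w, hw⟩ : ∃ w : ι → ℤ, w = fun i => (y i + e i) / 2 := ⟨_, rfl⟩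
    have hei : ∀ i, (y i % 2 = 1 ∧ (e i = 1 ∨ e i = -1)) ∨ (y i % 2 = 0 ∧ e i = 0) := by
      intro i
      by_cases h1 : y i % 2 = 1
      · left
        refine ⟨h1, ?_⟩
        have h2 : e i = ε i := by rw [he]; simp [h1]
        rw [h2]
        exact hε i
      · right
        have h2 : e i = 0 := by rw [he]; simp [h1]
        refine ⟨by omega, h2⟩
    have hw2 : ∀ i, 2 * w i = y i + e i := by
      intro i
      have h1 : w i = (y i + e i) / 2 := by rw [hw]
      have h2 := hei i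
      omega
    have hwb : ∀ i, 0 ≤ w i ∧ w i ≤ 2 ^ t := by
      intro i
      have h1 := hw2 i
      have h2 := hei i
      have h3 := hy i
      rw [pow_succ] at h3
      omega
    obtain ⟨z, hz1, hz2, hz3⟩ := ih w hwb
    refine ⟨z, hz1, fun i hi => hz2 i ?_, fun p => ?_⟩
    · have h1 := hw2 i
      have h2 := hei i
      omega
    · have key : ∑ i, ((y i : ℝ) / 2 ^ (t + 1) - z i) * a p i =
          ∑ i, ((w i : ℝ) / 2 ^ t - z i) * a p i -
            (1 / 2 ^ (t + 1)) * ∑ i ∈ Finset.univ.filter (fun i => y i % 2 = 1), a p i * ε i := by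
        rw [Finset.mul_sum, Finset.sum_filter, ← Finset.sum_sub_distrib]
        refine Finset.sum_congr rfl fun i _ => ?_
        have h1 : (2 : ℝ) * w i = y i + e i := by exact_mod_cast hw2 i
        have h2 : (if y i % 2 = 1 then (1 / 2 ^ (t + 1)) * (a p i * (ε i : ℝ)) else 0) =
            (1 / 2 ^ (t + 1)) * (a p i * (e i : ℝ)) := by
          rw [he]
          by_cases h3 : y i % 2 = 1
          · simp [h3]
          · simp [h3]
        rw [h2]
        have h4 : (y i : ℝ) = 2 * w i - e i := by linarith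
        rw [h4, pow_succ]
        have h5 : (2 : ℝ) ^ t ≠ 0 := by positivity
        field_simp
        ring
      rw [key]
      have h1 := hz3 p
      have h2 := hS p
      have h3 : |(1 / 2 ^ (t + 1) : ℝ) *
          ∑ i ∈ Finset.univ.filter (fun i => y i % 2 = 1), a p i * ε i| ≤
          (1 / 2 ^ (t + 1)) * D := by
        rw [abs_mul, abs_of_pos (by positivity : (0 : ℝ) < 1 / 2 ^ (t + 1))]
        exact mul_le_mul_of_nonneg_left h2 (by positivity)
      have h4 : |∑ i, ((w i : ℝ) / 2 ^ t - z i) * a p i -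
            (1 / 2 ^ (t + 1)) * ∑ i ∈ Finset.univ.filter (fun i => y i % 2 = 1), a p i * ε i| ≤
          D * (1 - (1 / 2) ^ t) + (1 / 2 ^ (t + 1)) * D :=
        (abs_sub _ _).trans (add_le_add h1 h3)
      refine h4.trans (le_of_eq ?_)
      have h5 : (2 : ℝ) ^ t ≠ 0 := by positivity
      rw [one_div_pow, one_div_pow, pow_succ]
      field_simp
      ring

theorem lsv {m : ℕ} {ι : Type} [Fintype ι] [DecidableEq ι] (a : Fin m → ι → ℝ)
    (ha : ∀ p i, |a p i| ≤ 1) {D : ℝ} (hD : 0 ≤ D)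
    (h : ∀ S : Finset ι, ∃ ε : ι → ℤ, (∀ i, ε i = 1 ∨ ε i = -1) ∧
      ∀ p, |∑ i ∈ S, a p i * ε i| ≤ D) :
    Rounds (fun i p => a p i) (D + 1) := by
  intro x
  obtain ⟨t, ht⟩ : ∃ t : ℕ, Fintype.card ι ≤ 2 ^ t :=
    ⟨Fintype.card ι, (Nat.lt_two_pow_self).le⟩
  have h2t : (0 : ℝ) < 2 ^ t := by positivity
  have hf0 : ∀ i, 0 ≤ Int.fract (x i) := fun i => Int.fract_nonneg _
  have hf1 : ∀ i, Int.fract (x i) < 1 := fun i => Int.fract_lt_one _
  obtain ⟨y, hy⟩ : ∃ y : ι → ℤ, ∀ i, y i = ⌊(2 : ℝ) ^ t * Int.fract (x i)⌋ :=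
    ⟨fun i => ⌊(2 : ℝ) ^ t * Int.fract (x i)⌋, fun i => rfl⟩
  have hyb : ∀ i, 0 ≤ y i ∧ y i ≤ 2 ^ t := by
    intro i
    rw [hy i]
    constructor
    · exact Int.floor_nonneg.2 (mul_nonneg h2t.le (hf0 i))
    · have h1 : (⌊(2 : ℝ) ^ t * Int.fract (x i)⌋ : ℝ) ≤ 2 ^ t := by
        refine (Int.floor_le _).trans ?_
        have := mul_le_mul_of_nonneg_left (hf1 i).le h2t.le
        linarith
      exact_mod_cast h1
  obtain ⟨z, hz1, hz2, hz3⟩ := lsv_dyadic a h t y hyb
  refine ⟨fun i => ⌊x i⌋ + z i, fun i => ?_, fun p => ?_⟩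
  · have e1 : x i - ((⌊x i⌋ + z i : ℤ) : ℝ) = Int.fract (x i) - z i := by
      push_cast
      have := Int.self_sub_floor (x i)
      linarith
    rw [e1]
    rcases hz1 i with h1 | h1
    · rw [h1, Int.cast_zero, sub_zero, abs_of_nonneg (hf0 i)]
      exact hf1 i
    · have h2 : y i ≠ 0 := by
        intro h3
        have := hz2 i h3
        omega
      have h3 : 0 < Int.fract (x i) := by
        rcases (hf0 i).lt_or_eq with h4 | h4
        · exact h4
        · exfalso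
          apply h2
          rw [hy i, ← h4, mul_zero, Int.floor_zero]
      rw [h1, Int.cast_one, abs_lt]
      have := hf1 i
      constructor <;> linarith
  · have e1 : ∑ i, (x i - ((⌊x i⌋ + z i : ℤ) : ℝ)) * a p i =
        ∑ i, (Int.fract (x i) - (y i : ℝ) / 2 ^ t) * a p i +
          ∑ i, ((y i : ℝ) / 2 ^ t - z i) * a p i := by
      rw [← Finset.sum_add_distrib]
      refine Finset.sum_congr rfl fun i _ => ?_
      push_cast
      have := Int.self_sub_floor (x i)
      rw [← this]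
      ring
    rw [e1]
    have h1 : |∑ i, (Int.fract (x i) - (y i : ℝ) / 2 ^ t) * a p i| ≤ 1 := by
      refine (Finset.abs_sum_le_sum_abs _ _).trans ?_
      have h2 : ∀ i ∈ Finset.univ, |(Int.fract (x i) - (y i : ℝ) / 2 ^ t) * a p i| ≤
          1 / 2 ^ t := by
        intro i _
        rw [abs_mul]
        have h3 : |Int.fract (x i) - (y i : ℝ) / 2 ^ t| ≤ 1 / 2 ^ t := by
          have h4 : Int.fract (x i) - (y i : ℝ) / 2 ^ t =
              (2 ^ t * Int.fract (x i) - y i) / 2 ^ t := by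
            field_simp
          rw [h4, abs_div, abs_of_pos h2t]
          refine div_le_div_of_nonneg_right ?_ h2t.le
          rw [hy i, Int.self_sub_floor, abs_of_nonneg (Int.fract_nonneg _)]
          exact (Int.fract_lt_one _).le
        calc |Int.fract (x i) - (y i : ℝ) / 2 ^ t| * |a p i| ≤ (1 / 2 ^ t) * 1 :=
              mul_le_mul h3 (ha p i) (abs_nonneg _) (by positivity)
          _ = 1 / 2 ^ t := mul_one _
      refine (Finset.sum_le_sum h2).trans ?_
      rw [Finset.sum_const, nsmul_eq_mul, Finset.card_univ, mul_one_div, div_le_one h2t]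
      exact_mod_cast ht
    have h3 : D * (1 - (1 / 2) ^ t) ≤ D := by
      have h4 : (0 : ℝ) ≤ (1 / 2) ^ t := by positivity
      nlinarith
    have h5 := hz3 p
    have h6 := abs_add_le (∑ i, (Int.fract (x i) - (y i : ℝ) / 2 ^ t) * a p i)
      (∑ i, ((y i : ℝ) / 2 ^ t - z i) * a p i)
    linarith

/-- rounding to nearest integers -/
theorem rounds_trivial {m : ℕ} {ι : Type} [Fintype ι] (v : ι → Fin m → ℝ)
    (hv : ∀ i p, |v i p| ≤ 1) : Rounds v (Fintype.card ι) := by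
  intro x
  refine ⟨fun i => round (x i), fun i => ?_, fun p => ?_⟩
  · exact lt_of_le_of_lt (abs_sub_round (x i)) (by norm_num)
  · refine (Finset.abs_sum_le_sum_abs _ _).trans ?_
    have h2 : ∀ i ∈ Finset.univ, |(x i - (round (x i) : ℝ)) * v i p| ≤ 1 := by
      intro i _
      rw [abs_mul]
      have h3 := abs_sub_round (x i)
      calc |x i - (round (x i) : ℝ)| * |v i p| ≤ 1 * 1 :=
            mul_le_mul (h3.trans (by norm_num)) (hv i p) (abs_nonneg _) (by norm_num)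
        _ = 1 := mul_one _
    refine (Finset.sum_le_sum h2).trans ?_
    rw [Finset.sum_const, nsmul_eq_mul, mul_one, Finset.card_univ]

end Pool.Agent.Lib.MP_183cce_co.RR
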