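import Pool.Agent.Lib.MP_183cce_co.RR.Defs

/-!
RR-Sgn: from partial signings to signings (induction on |S|).

PROOF.  Let K = β/(1-(15/16)^κ), so K(15/16)^κ + β = K.  Strong induction on |S|.  |S| ≤ 3: take ε = 1,
|∑| ≤ 3.  |S| ≥ 4: take χ; S' = {i ∈ S | χ i = 0} has |S'| ≤ (15/16)|S| < |S|; ε = χ on S \ S', ε = ε' on S'
(ε' for S'): |∑_S a ε| ≤ |∑_S a χ| + |∑_{S'} a ε'| ≤ β (|S|/M)^κ + K (|S'|/M)^κ + 3 ≤
β (|S|/M)^κ + K (15/16)^κ (|S|/M)^κ + 3 = K(|S|/M)^κ + 3.
-/

set_option autoImplicit false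

namespace Pool.Agent.Lib.MP_183cce_co.RR

theorem signing {m : ℕ} {ι : Type} [DecidableEq ι] (a : Fin m → ι → ℝ)
    (ha : ∀ p i, |a p i| ≤ 1) {κ β M : ℝ} (hκ : 0 < κ) (hβ : 0 ≤ β) (hM : 0 < M)
    (hpart : ∀ S : Finset ι, 4 ≤ S.card → ∃ χ, PartialSigning a S (β * ((S.card : ℝ) / M) ^ κ) χ)
    (S : Finset ι) :
    ∃ ε : ι → ℤ, (∀ i, ε i = 1 ∨ ε i = -1) ∧
      ∀ p, |∑ i ∈ S, a p i * ε i| ≤ β / (1 - (15 / 16) ^ κ) * ((S.card : ℝ) / M) ^ κ + 3 := by
  have hr0 : (0 : ℝ) ≤ (15 / 16 : ℝ) ^ κ := Real.rpow_nonneg (by norm_num) κ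
  have hr1 : (15 / 16 : ℝ) ^ κ < 1 := Real.rpow_lt_one (by norm_num) (by norm_num) hκ
  set r : ℝ := (15 / 16 : ℝ) ^ κ with hr
  set K : ℝ := β / (1 - r) with hK
  have h1r : 0 < 1 - r := by linarith
  have hK0 : 0 ≤ K := div_nonneg hβ h1r.le
  have hKr : K * r + β = K := by
    rw [hK]
    field_simp
    ring
  suffices h : ∀ n : ℕ, ∀ S : Finset ι, S.card = n → ∃ ε : ι → ℤ, (∀ i, ε i = 1 ∨ ε i = -1) ∧
      ∀ p, |∑ i ∈ S, a p i * ε i| ≤ K * ((S.card : ℝ) / M) ^ κ + 3 from h _ S rfl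
  intro n
  induction n using Nat.strong_induction_on with
  | _ n ih =>
    intro S hS
    have hpow : ∀ T : Finset ι, 0 ≤ ((T.card : ℝ) / M) ^ κ := fun T =>
      Real.rpow_nonneg (div_nonneg (Nat.cast_nonneg _) hM.le) κ
    by_cases h4 : 4 ≤ S.card
    · obtain ⟨χ, h1, h2, h3⟩ := hpart S h4
      set S' : Finset ι := S.filter fun i => χ i = 0 with hS'
      have hcard : S'.card + (S.filter fun i => ¬ χ i = 0).card = S.card :=
        Finset.card_filter_add_card_filter_not _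
      have h16 : 16 * S'.card ≤ 15 * S.card := by
        have h2' : S.card ≤ 16 * (S.filter fun i => ¬ χ i = 0).card := h2
        omega
      have hlt : S'.card < n := by omega
      obtain ⟨ε', he1, he2⟩ := ih S'.card hlt S' rfl
      refine ⟨fun i => if χ i = 0 then ε' i else χ i, ?_, ?_⟩
      · intro i
        by_cases hi : χ i = 0
        · simp only [hi, if_true]
          exact he1 i
        · simp only [hi, if_false]
          rcases h1 i with h | h | h
          · exact absurd h hi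
          · exact Or.inl h
          · exact Or.inr h
      · intro p
        have hsplit : ∑ i ∈ S, a p i * (((if χ i = 0 then ε' i else χ i : ℤ)) : ℝ) =
            ∑ i ∈ S, a p i * χ i + ∑ i ∈ S', a p i * ε' i := by
          rw [hS', Finset.sum_filter, ← Finset.sum_add_distrib]
          refine Finset.sum_congr rfl fun i _ => ?_
          by_cases hi : χ i = 0
          · simp [hi]
          · simp [hi]
        have hle : ((S'.card : ℝ) / M) ^ κ ≤ r * ((S.card : ℝ) / M) ^ κ := by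
          have h5 : ((S'.card : ℝ) / M) ≤ 15 / 16 * ((S.card : ℝ) / M) := by
            have h6 : (16 : ℝ) * S'.card ≤ 15 * S.card := by exact_mod_cast h16
            rw [← mul_div_assoc, div_le_div_iff_of_pos_right hM]
            linarith
          calc ((S'.card : ℝ) / M) ^ κ ≤ (15 / 16 * ((S.card : ℝ) / M)) ^ κ :=
                Real.rpow_le_rpow (div_nonneg (Nat.cast_nonneg _) hM.le) h5 hκ.le
            _ = r * ((S.card : ℝ) / M) ^ κ := by
                rw [Real.mul_rpow (by norm_num) (div_nonneg (Nat.cast_nonneg _) hM.le)]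
        rw [hsplit]
        calc |∑ i ∈ S, a p i * χ i + ∑ i ∈ S', a p i * ε' i|
            ≤ |∑ i ∈ S, a p i * χ i| + |∑ i ∈ S', a p i * ε' i| := abs_add_le _ _
          _ ≤ β * ((S.card : ℝ) / M) ^ κ + (K * ((S'.card : ℝ) / M) ^ κ + 3) :=
              add_le_add (h3 p) (he2 p)
          _ ≤ β * ((S.card : ℝ) / M) ^ κ + (K * (r * ((S.card : ℝ) / M) ^ κ) + 3) := by
              have := mul_le_mul_of_nonneg_left hle hK0
              linarith
          _ = (K * r + β) * ((S.card : ℝ) / M) ^ κ + 3 := by ring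
          _ = K * ((S.card : ℝ) / M) ^ κ + 3 := by rw [hKr]
    · refine ⟨fun _ => 1, fun _ => Or.inl rfl, fun p => ?_⟩
      have h5 : |∑ i ∈ S, a p i * ((1 : ℤ) : ℝ)| ≤ S.card := by
        calc |∑ i ∈ S, a p i * ((1 : ℤ) : ℝ)| ≤ ∑ i ∈ S, |a p i * ((1 : ℤ) : ℝ)| :=
              Finset.abs_sum_le_sum_abs _ _
          _ ≤ ∑ i ∈ S, (1 : ℝ) := Finset.sum_le_sum fun i _ => by
              rw [Int.cast_one, mul_one]
              exact ha p i
          _ = S.card := by simp
      have h6 : (S.card : ℝ) ≤ 3 := by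
        have : S.card ≤ 3 := by omega
        exact_mod_cast this
      have h7 : 0 ≤ K * ((S.card : ℝ) / M) ^ κ := mul_nonneg hK0 (hpow S)
      exact h5.trans (by linarith)

end Pool.Agent.Lib.MP_183cce_co.RR
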