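import Pool.Agent.Lib.MP_183cce_co.RR.Wt

/-!
RR-Thr: from the mass condition to the bound for ∑ phi.

PROOF.  u_p = R_p/b², θ = (c b²/2)², √θ = c b²/2.  T = {p | θ < u_p}.
∑_{p∉T} phi u_p ≤ √θ ∑ u_p ≤ (c b²/2)(s/b²) = cs/2 (`phi_le_of_le`).
|T| θ b² ≤ ∑_{p∈T} R_p ≤ s, so |T| ≤ s/(θ b²) = 4 s/(c² b⁶) and by hT ∑_{p∈T} phi u_p ≤ ∑_{p∈T} u_p ≤ (c/2) s
(phi u ≤ u by definition).
-/

set_option autoImplicit false

namespace Pool.Agent.Lib.MP_183cce_co.RR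

theorem phi_sum_le {m : ℕ} (R : Fin m → ℝ) (hR : ∀ p, 0 ≤ R p) {s b c : ℝ} (hs : 0 ≤ s)
    (hb : 0 < b) (hc : 0 < c) (hsum : ∑ p, R p ≤ s)
    (hT : ∀ T : Finset (Fin m), (T.card : ℝ) ≤ 4 * s / (c ^ 2 * b ^ 6) →
      ∑ p ∈ T, R p ≤ c / 2 * b ^ 2 * s) :
    ∑ p, phi (R p / b ^ 2) ≤ c * s := by
  classical
  have hb2 : 0 < b ^ 2 := by positivity
  set r : ℝ := c * b ^ 2 / 2 with hr
  have hr0 : 0 < r := by positivity
  set T : Finset (Fin m) := Finset.univ.filter (fun p => r ^ 2 < R p / b ^ 2) with hTdef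
  have hsub : ∑ p ∈ T, R p ≤ s :=
    le_trans (Finset.sum_le_sum_of_subset_of_nonneg (Finset.subset_univ _)
      (fun p _ _ => hR p)) hsum
  have hcard : (T.card : ℝ) ≤ 4 * s / (c ^ 2 * b ^ 6) := by
    have h1 : (T.card : ℝ) * (r ^ 2 * b ^ 2) ≤ ∑ p ∈ T, R p := by
      rw [← nsmul_eq_mul]
      refine Finset.card_nsmul_le_sum T _ _ ?_
      intro p hp
      have h2 := (Finset.mem_filter.1 hp).2
      rw [lt_div_iff₀ hb2] at h2
      exact h2.le
    have h3 : (T.card : ℝ) * (r ^ 2 * b ^ 2) ≤ s := le_trans h1 hsub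
    rw [le_div_iff₀ (by positivity)]
    have h4 : (T.card : ℝ) * (c ^ 2 * b ^ 6) = 4 * ((T.card : ℝ) * (r ^ 2 * b ^ 2)) := by
      rw [hr]
      ring
    rw [h4]
    linarith
  have hmass := hT T hcard
  have hin : ∑ p ∈ T, phi (R p / b ^ 2) ≤ c / 2 * s := by
    have h1 : ∑ p ∈ T, phi (R p / b ^ 2) ≤ ∑ p ∈ T, R p / b ^ 2 :=
      Finset.sum_le_sum (fun p _ => min_le_left _ _)
    rw [← Finset.sum_div] at h1
    refine le_trans h1 ?_
    rw [div_le_iff₀ hb2]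
    linarith
  have hout : ∑ p ∈ Finset.univ.filter (fun p => ¬ r ^ 2 < R p / b ^ 2), phi (R p / b ^ 2) ≤
      c / 2 * s := by
    have h1 : ∑ p ∈ Finset.univ.filter (fun p => ¬ r ^ 2 < R p / b ^ 2), phi (R p / b ^ 2) ≤
        ∑ p ∈ Finset.univ.filter (fun p => ¬ r ^ 2 < R p / b ^ 2), (R p / b ^ 2) * r := by
      refine Finset.sum_le_sum ?_
      intro p hp
      have h2 := (Finset.mem_filter.1 hp).2
      rw [not_lt] at h2
      have h3 : 0 ≤ R p / b ^ 2 := div_nonneg (hR p) hb2.le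
      have h4 : Real.sqrt (R p / b ^ 2) ≤ r := by
        rw [Real.sqrt_le_left hr0.le]
        exact h2
      exact le_trans (min_le_right _ _) (mul_le_mul_of_nonneg_left h4 h3)
    refine le_trans h1 ?_
    rw [← Finset.sum_mul, ← Finset.sum_div]
    have h5 : ∑ p ∈ Finset.univ.filter (fun p => ¬ r ^ 2 < R p / b ^ 2), R p ≤ s :=
      le_trans (Finset.sum_le_sum_of_subset_of_nonneg (Finset.subset_univ _)
        (fun p _ _ => hR p)) hsum
    have h6 : (∑ p ∈ Finset.univ.filter (fun p => ¬ r ^ 2 < R p / b ^ 2), R p) / b ^ 2 * r ≤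
        s / b ^ 2 * r :=
      mul_le_mul_of_nonneg_right (div_le_div_of_nonneg_right h5 hb2.le) hr0.le
    refine le_trans h6 (le_of_eq ?_)
    rw [hr]
    field_simp
  have hsplit := Finset.sum_filter_add_sum_filter_not Finset.univ
    (fun p => r ^ 2 < R p / b ^ 2) (fun p => phi (R p / b ^ 2))
  rw [← hsplit]
  linarith

end Pool.Agent.Lib.MP_183cce_co.RR
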