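import Pool.Agent.Lib.MP_183cce_co.RR.Part
import Pool.Agent.Lib.MP_183cce_co.RR.Thr
import Pool.Agent.Lib.MP_183cce_co.RR.Sgn
import Pool.Agent.Lib.MP_183cce_co.RR.Lsv
import Pool.Agent.Lib.MP_183cce_co.RR.Inv

/-!
RR-Good: a rotation outside the bad event rounds well.

PROOF.  a p i = (U v_i)_p, |a p i| ≤ 1 (`rot_entry_le`), ∑_p ∑_{i∈S} a_pi² = |S| (`rot_sq`).  For |S| ≥ 4 put
b = 448000 A (|S|/m)^κ > 0; R_p = ∑_{i∈S} a_pi², ∑_{p∈T} R_p = ∑_{i∈S} mass T (U v_i).  `phi_sum_le` with c = 1/2000, s = |S|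
(4 s/(c² b⁶) = 16000000 s/b⁶, c/2·b²·s = b²/4000·s) and `partial_signing` give a PartialSigning with bound b = β (|S|/m)^κ,
β = 448000 A.  `signing` (M = m) and (|S|/m)^κ ≤ A^κ ≤ A give signings with bound D = β/(1-(15/16)^κ)·A + 3; `lsv`.
-/

set_option autoImplicit false

namespace Pool.Agent.Lib.MP_183cce_co.RR

theorem good_rounds {A κ : ℝ} (hA : 1 ≤ A) (hκ : 0 < κ) (hκ1 : κ ≤ 1 / 20) {m N : ℕ}
    (hm : 1 ≤ m) (hN : (N : ℝ) ≤ A * m) (U : Matrix.orthogonalGroup (Fin m) ℝ)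
    (v : Fin N → Fin m → ℝ) (hv : ∀ i, ∑ p, v i p ^ 2 = 1)
    (hgood : ∀ S : Finset (Fin N), 1 ≤ S.card → ∀ T : Finset (Fin m),
      (T.card : ℝ) ≤ 16000000 * S.card / (448000 * A * ((S.card : ℝ) / m) ^ κ) ^ 6 →
      ∑ i ∈ S, mass T (U.1.mulVec (v i))
        ≤ (448000 * A * ((S.card : ℝ) / m) ^ κ) ^ 2 / 4000 * S.card) :
    Rounds (fun i => U.1.mulVec (v i)) (448000 * A / (1 - (15 / 16) ^ κ) * A + 4) := by
  classical
  set a : Fin m → Fin N → ℝ := fun p i => (U.1.mulVec (v i)) p with ha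
  have hm0 : (0 : ℝ) < m := by exact_mod_cast hm
  have hA0 : (0 : ℝ) < A := by linarith
  have hq : ((15 : ℝ) / 16) ^ κ < 1 := Real.rpow_lt_one (by norm_num) (by norm_num) hκ
  have hK : 0 ≤ 448000 * A / (1 - (15 / 16) ^ κ) :=
    div_nonneg (by positivity) (by linarith)
  have ha1 : ∀ p i, |a p i| ≤ 1 := fun p i => rot_entry_le U (v i) (hv i) p
  have hpart : ∀ S : Finset (Fin N), 4 ≤ S.card →
      ∃ χ, PartialSigning a S (448000 * A * ((S.card : ℝ) / m) ^ κ) χ := by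
    intro S hS
    have hS0 : (0 : ℝ) < S.card := by
      have : 0 < S.card := by omega
      exact_mod_cast this
    have hb : 0 < 448000 * A * ((S.card : ℝ) / m) ^ κ :=
      mul_pos (by positivity) (Real.rpow_pos_of_pos (div_pos hS0 hm0) κ)
    apply partial_signing a S hb hS
    have h1 := phi_sum_le (fun p => ∑ i ∈ S, a p i ^ 2)
      (fun p => Finset.sum_nonneg fun i _ => sq_nonneg _) (s := (S.card : ℝ))
      (b := 448000 * A * ((S.card : ℝ) / m) ^ κ) (c := 1 / 2000) hS0.le hb (by norm_num) ?_ ?_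
    · refine h1.trans (le_of_eq ?_)
      ring
    · rw [Finset.sum_comm]
      have h2 : ∀ i ∈ S, ∑ p, a p i ^ 2 = 1 := by
        intro i _
        have h3 := rot_sq U (v i)
        rw [hv i] at h3
        exact h3
      rw [Finset.sum_congr rfl h2]
      simp
    · intro T hT
      have h2 := hgood S (by omega) T (by
        refine hT.trans (le_of_eq ?_)
        have hb6 : (448000 * A * ((S.card : ℝ) / m) ^ κ) ^ 6 ≠ 0 := (pow_pos hb 6).ne'
        field_simp
        ring)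
      have h3 : ∑ p ∈ T, (fun p => ∑ i ∈ S, a p i ^ 2) p = ∑ i ∈ S, mass T (U.1.mulVec (v i)) := by
        show ∑ p ∈ T, ∑ i ∈ S, a p i ^ 2 = _
        rw [Finset.sum_comm]
        rfl
      rw [h3]
      refine h2.trans (le_of_eq ?_)
      ring
  have hsgn : ∀ S : Finset (Fin N), ∃ ε : Fin N → ℤ, (∀ i, ε i = 1 ∨ ε i = -1) ∧
      ∀ p, |∑ i ∈ S, a p i * ε i| ≤ 448000 * A / (1 - (15 / 16) ^ κ) * A + 3 := by
    intro S
    obtain ⟨ε, h1, h2⟩ := signing a ha1 hκ (β := 448000 * A) (M := (m : ℝ)) (by positivity) hm0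
      hpart S
    refine ⟨ε, h1, fun p => (h2 p).trans ?_⟩
    have h3 : ((S.card : ℝ) / m) ≤ A := by
      rw [div_le_iff₀ hm0]
      have h4 : (S.card : ℝ) ≤ N := by
        have h5 := Finset.card_le_univ S
        rw [Fintype.card_fin] at h5
        exact_mod_cast h5
      exact h4.trans hN
    have h4 : ((S.card : ℝ) / m) ^ κ ≤ A := by
      have h5 : ((S.card : ℝ) / m) ^ κ ≤ A ^ κ :=
        Real.rpow_le_rpow (by positivity) h3 hκ.le
      have h6 : A ^ κ ≤ A ^ (1 : ℝ) := Real.rpow_le_rpow_of_exponent_le hA (by linarith)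
      rw [Real.rpow_one] at h6
      exact h5.trans h6
    have h5 := mul_le_mul_of_nonneg_left h4 hK
    linarith
  have h1 := lsv a ha1 (D := 448000 * A / (1 - (15 / 16) ^ κ) * A + 3)
    (by have := mul_nonneg hK hA0.le; linarith) hsgn
  exact h1.mono (by linarith)

end Pool.Agent.Lib.MP_183cce_co.RR
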