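import Pool.Agent.Lib.MP_183cce_co.RR.Inv

/-!
RR-Lat: from arbitrarily many generators to a basis chosen among them.

PROOF.  Choose a maximal linearly independent subfamily of w (`exists_linearIndependent'` or
`Module.Basis...`): f : Fin N → Fin n injective, w ∘ f linearly independent, N ≤ m
(`LinearIndependent.fintype_card_le_finrank`, finrank (Fin m → ℝ) = m), and span (range (w ∘ f)) = span (range w).
If U rounds (w ∘ f) with bound C then for x : Fin n → ℝ write ∑_j x_j w_j = ∑_i y_i w_(f i), take integers a for y, and put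
a' = ∑ of a_i at f i (a' j = ∑_{i, f i = j} a i): ∑_j a'_j w_j = ∑_i a_i w_(f i).  Apply the linear map U.
-/

set_option autoImplicit false

namespace Pool.Agent.Lib.MP_183cce_co.RR

private theorem Lat_exists {m n : ℕ} (w : Fin n → Fin m → ℝ) :
    ∃ (N : ℕ) (f : Fin N → Fin n), N ≤ m ∧
      Submodule.span ℝ (Set.range (w ∘ f)) = Submodule.span ℝ (Set.range w) := by
  classical
  obtain ⟨κ, a, ha, hs, hli⟩ := exists_linearIndependent' ℝ w
  have hfin : Finite κ := Finite.of_injective a ha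
  have : Fintype κ := Fintype.ofFinite κ
  have hcard : Fintype.card κ ≤ m := by
    have h := hli.fintype_card_le_finrank
    simpa using h
  refine ⟨Fintype.card κ, fun i => a ((Fintype.equivFin κ).symm i), hcard, ?_⟩
  rw [← hs]
  congr 1
  ext v
  constructor
  · rintro ⟨i, rfl⟩
    exact ⟨(Fintype.equivFin κ).symm i, rfl⟩
  · rintro ⟨k, rfl⟩
    exact ⟨Fintype.equivFin κ k, by simp⟩

theorem lat {m n : ℕ} (w : Fin n → Fin m → ℝ) :
    ∃ (N : ℕ) (f : Fin N → Fin n), N ≤ m ∧
      ∀ (U : Matrix.orthogonalGroup (Fin m) ℝ) (C : ℝ),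
        Rounds (fun i => U.1.mulVec (w (f i))) C → CoveringRadiusLE (fun j => U.1.mulVec (w j)) C := by
  classical
  obtain ⟨N, f, hN, hspan⟩ := Lat_exists w
  refine ⟨N, f, hN, fun U C hR x => ?_⟩
  -- the point ∑ x_j w_j lies in the span of w ∘ f
  have hmem : ∑ j, x j • w j ∈ Submodule.span ℝ (Set.range (w ∘ f)) := by
    rw [hspan]
    exact Submodule.sum_mem _ fun j _ =>
      Submodule.smul_mem _ _ (Submodule.subset_span ⟨j, rfl⟩)
  obtain ⟨y, hy⟩ := (Submodule.mem_span_range_iff_exists_fun ℝ).1 hmem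
  obtain ⟨a, -, ha⟩ := hR y
  refine ⟨fun j => ∑ i ∈ Finset.univ.filter (fun i => f i = j), a i, fun p => ?_⟩
  have key : ∀ v : Fin n → ℝ, ∀ c : Fin N → ℝ,
      ∑ j, (∑ i ∈ Finset.univ.filter (fun i => f i = j), c i) * v j = ∑ i, c i * v (f i) := by
    intro v c
    simp_rw [Finset.sum_mul]
    have h1 : ∀ j, ∑ i ∈ Finset.univ.filter (fun i => f i = j), c i * v j =
        ∑ i ∈ Finset.univ.filter (fun i => f i = j), c i * v (f i) := by
      intro j
      refine Finset.sum_congr rfl fun i hi => ?_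
      rw [(Finset.mem_filter.1 hi).2]
    simp_rw [h1]
    exact Finset.sum_fiberwise_of_maps_to (fun i _ => Finset.mem_univ (f i)) _
  have e1 : ∑ j, x j * (U.1.mulVec (w j)) p = ∑ i, y i * (U.1.mulVec (w (f i))) p := by
    have h1 : ∀ {k : ℕ} (c : Fin k → ℝ) (v : Fin k → Fin m → ℝ),
        ∑ j, c j * (U.1.mulVec (v j)) p = (U.1.mulVec (∑ j, c j • v j)) p := by
      intro k c v
      rw [Matrix.mulVec_sum, Finset.sum_apply]
      refine Finset.sum_congr rfl fun j _ => ?_
      rw [Matrix.mulVec_smul]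
      rfl
    rw [h1 x w, h1 y (fun i => w (f i))]
    have h2 : ∑ i, y i • (w ∘ f) i = ∑ i, y i • w (f i) := rfl
    rw [← hy, h2]
  have e2 : ∑ j, (((∑ i ∈ Finset.univ.filter (fun i => f i = j), a i : ℤ)) : ℝ) *
      (U.1.mulVec (w j)) p = ∑ i, (a i : ℝ) * (U.1.mulVec (w (f i))) p := by
    have := key (fun j => (U.1.mulVec (w j)) p) (fun i => (a i : ℝ))
    rw [← this]
    refine Finset.sum_congr rfl fun j _ => ?_
    push_cast
    rfl
  rw [e1, e2, ← Finset.sum_sub_distrib]
  have h3 := ha p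
  have h4 : ∑ i, (y i - a i) * (U.1.mulVec (w (f i))) p =
      ∑ i, (y i * (U.1.mulVec (w (f i))) p - (a i : ℝ) * (U.1.mulVec (w (f i))) p) := by
    refine Finset.sum_congr rfl fun i _ => ?_
    ring
  rw [← h4]
  exact h3

end Pool.Agent.Lib.MP_183cce_co.RR
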