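import Pool.Agent.Lib.MP_183cce_co.RR.Tot
import Pool.Agent.Lib.MP_183cce_co.RR.Good
import Pool.Agent.Lib.MP_183cce_co.RR.Lat
import Pool.Agent.Lib.MP_183cce_co.RR.Bg

/-!
RR-Final (helper75): assembly.
-/

set_option autoImplicit false

open MeasureTheory

namespace Pool.Agent.Lib.MP_183cce_co.RR

theorem rounds_main (A ε : ℝ) (hε : 0 < ε) :
    ∃ C : ℝ, ∀ m : ℕ, 1 ≤ m → ∀ [MeasurableSpace (Matrix.orthogonalGroup (Fin m) ℝ)]
        [BorelSpace (Matrix.orthogonalGroup (Fin m) ℝ)]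
        (μ : Measure (Matrix.orthogonalGroup (Fin m) ℝ)) [IsProbabilityMeasure μ]
        [μ.IsHaarMeasure] (N : ℕ) (v : Fin N → Fin m → ℝ), (N : ℝ) ≤ A * m →
        (∀ i, ∑ p, v i p ^ 2 = 1) →
      μ {U | ¬ Rounds (fun i => U.1.mulVec (v i)) C}
        ≤ ENNReal.ofReal (Real.exp (-((m : ℝ) ^ (1 - ε)))) := by
  set A' : ℝ := max A 1 with hA'
  have hA1 : 1 ≤ A' := le_max_right _ _
  have hAA : A ≤ A' := le_max_left _ _
  set κ : ℝ := min (1 / 20) (ε / 2) with hκdef
  have hκ : 0 < κ := lt_min (by norm_num) (by linarith)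
  have hκ1 : κ ≤ 1 / 20 := min_le_left _ _
  have hκ2 : κ ≤ ε / 2 := min_le_right _ _
  obtain ⟨m0, hm0, htot⟩ := tot hA1 hκ hκ1
  refine ⟨max (448000 * A' / (1 - (15 / 16) ^ κ) * A' + 4) (A' * m0), ?_⟩
  intro m hm _ _ μ _ _ N v hN hv
  have hm' : (1 : ℝ) ≤ m := by exact_mod_cast hm
  have hN' : (N : ℝ) ≤ A' * m := hN.trans (mul_le_mul_of_nonneg_right hAA (by linarith))
  rcases le_or_gt m0 m with h | h
  · have h1 := htot m h μ N v hN' hv
    refine (measure_mono ?_).trans (h1.trans ?_)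
    · intro U hU
      by_contra hcon
      apply hU
      refine (good_rounds hA1 hκ hκ1 hm hN' U v hv ?_).mono (le_max_left _ _)
      intro S hS T hT
      by_contra hlt
      push Not at hlt
      exact hcon ⟨S, hS, T, hT, hlt⟩
    · refine ENNReal.ofReal_le_ofReal (Real.exp_le_exp.2 ?_)
      rw [neg_le_neg_iff]
      exact Real.rpow_le_rpow_of_exponent_le hm' (by linarith)
  · have h2 : {U : Matrix.orthogonalGroup (Fin m) ℝ |
        ¬ Rounds (fun i => U.1.mulVec (v i))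
          (max (448000 * A' / (1 - (15 / 16) ^ κ) * A' + 4) (A' * m0))} = ∅ := by
      rw [Set.eq_empty_iff_forall_notMem]
      intro U hU
      apply hU
      refine (rounds_trivial _ (fun i p => rot_entry_le U (v i) (hv i) p)).mono ?_
      rw [Fintype.card_fin]
      refine (hN'.trans ?_).trans (le_max_right _ _)
      have : (m : ℝ) ≤ m0 := by exact_mod_cast h.le
      exact mul_le_mul_of_nonneg_left this (by linarith)
    rw [h2, measure_empty]
    exact bot_le

theorem lattice_main (ε : ℝ) (hε : 0 < ε) :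
    ∃ C : ℝ, ∀ m : ℕ, 1 ≤ m → ∀ [MeasurableSpace (Matrix.orthogonalGroup (Fin m) ℝ)]
        [BorelSpace (Matrix.orthogonalGroup (Fin m) ℝ)]
        (μ : Measure (Matrix.orthogonalGroup (Fin m) ℝ)) [IsProbabilityMeasure μ]
        [μ.IsHaarMeasure] (n : ℕ) (w : Fin n → Fin m → ℝ),
        (∀ i, ∑ p, w i p ^ 2 = 1) →
      μ {U | ¬ CoveringRadiusLE (fun i => U.1.mulVec (w i)) C}
        ≤ ENNReal.ofReal (Real.exp (-((m : ℝ) ^ (1 - ε)))) := by
  obtain ⟨C, hC⟩ := rounds_main 1 ε hε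
  refine ⟨C, fun m hm _ _ μ _ _ n w hw => ?_⟩
  obtain ⟨N, f, hN, hf⟩ := lat w
  have h1 := hC m hm μ N (fun i => w (f i)) (by
    rw [one_mul]
    exact_mod_cast hN) (fun i => hw (f i))
  refine (measure_mono ?_).trans h1
  intro U hU hcon
  exact hU (hf U C hcon)

private theorem Final_between {x : ℝ} {z : ℤ} (h1 : (⌊x⌋ : ℤ) ≤ z) (h2 : z ≤ ⌈x⌉) :
    |x - z| < 1 := by
  have h3 : (⌊x⌋ : ℝ) ≤ z := by exact_mod_cast h1
  have h4 : (z : ℝ) ≤ ⌈x⌉ := by exact_mod_cast h2
  have h5 := Int.ceil_lt_add_one x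
  have h6 := Int.sub_one_lt_floor x
  rw [abs_lt]
  constructor <;> linarith

theorem fixed_main (ε : ℝ) (hε : 0 < ε) :
    ∃ C : ℝ, ∀ m : ℕ, 1 ≤ m → ∀ [MeasurableSpace (Matrix.orthogonalGroup (Fin m) ℝ)]
        [BorelSpace (Matrix.orthogonalGroup (Fin m) ℝ)]
        (μ : Measure (Matrix.orthogonalGroup (Fin m) ℝ)) [IsProbabilityMeasure μ]
        [μ.IsHaarMeasure] (n : ℕ) (v : Fin n → Fin m → ℝ) (x : Fin n → ℝ),
        (∀ i, ∑ p, v i p ^ 2 = 1) →
      μ {U | ¬ ∃ a : Fin n → ℤ, (∀ i, |x i - a i| < 1) ∧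
          ∀ p, |∑ i, (x i - a i) * (U.1.mulVec (v i)) p| ≤ C}
        ≤ ENNReal.ofReal (Real.exp (-((m : ℝ) ^ (1 - ε)))) := by
  classical
  obtain ⟨C, hC⟩ := rounds_main 1 ε hε
  refine ⟨C, fun m hm _ _ μ _ _ n v x hv => ?_⟩
  obtain ⟨y, hy1, hy2, F, hF, hy3⟩ := bg v x
  set e := F.equivFin with he
  have h1 := hC m hm μ F.card (fun i => v (e.symm i)) (by
    rw [one_mul]
    exact_mod_cast hF) (fun i => hv _)
  refine (measure_mono ?_).trans h1
  intro U hU hcon
  apply hU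
  obtain ⟨a', ha1, ha2⟩ := hcon (fun i => y (e.symm i))
  choose z hz using hy3
  set a : Fin n → ℤ := fun i => if h : i ∈ F then a' (e ⟨i, h⟩) else z i h with ha
  have haF : ∀ (i : Fin n) (h : i ∈ F), a i = a' (e ⟨i, h⟩) := fun i h => by
    rw [ha]; simp only [h, dif_pos]
  have haN : ∀ (i : Fin n) (h : i ∉ F), (a i : ℝ) = y i := fun i h => by
    rw [ha]; simp only [h, dif_neg, not_false_eq_true]
    exact (hz i h).symm
  refine ⟨a, fun i => ?_, fun p => ?_⟩
  · by_cases h : i ∈ F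
    · have h2 := ha1 (e ⟨i, h⟩)
      simp only [Equiv.symm_apply_apply] at h2
      rw [← haF i h, abs_lt] at h2
      have h3 := hy1 i
      refine Final_between ?_ ?_
      · have : (⌊x i⌋ : ℝ) < a i + 1 := by linarith [h2.2, h3.1]
        have : ⌊x i⌋ < a i + 1 := by exact_mod_cast this
        omega
      · have : (a i : ℝ) < ⌈x i⌉ + 1 := by linarith [h2.1, h3.2]
        have : a i < ⌈x i⌉ + 1 := by exact_mod_cast this
        omega
    · have h2 := haN i h
      have h3 := hy1 i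
      rw [← h2] at h3
      exact Final_between (by exact_mod_cast h3.1) (by exact_mod_cast h3.2)
  · have h4 : ∑ i, (x i - y i) * (U.1.mulVec (v i)) p = 0 := by
      simp only [Matrix.mulVec, dotProduct, Finset.mul_sum]
      rw [Finset.sum_comm]
      refine Finset.sum_eq_zero fun q _ => ?_
      have h5 : ∑ i, (x i - y i) * (U.1 p q * v i q) = U.1 p q * (∑ i, x i * v i q - ∑ i, y i * v i q) := by
        rw [← Finset.sum_sub_distrib, Finset.mul_sum]
        exact Finset.sum_congr rfl fun i _ => by ring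
      rw [h5, hy2 q, sub_self, mul_zero]
    have h6 : ∑ i, (x i - a i) * (U.1.mulVec (v i)) p
        = ∑ i, (y (e.symm i) - a' i) * (U.1.mulVec (v (e.symm i))) p := by
      have h7 : ∑ i, (x i - a i) * (U.1.mulVec (v i)) p
          = ∑ i, (y i - a i) * (U.1.mulVec (v i)) p := by
        have : ∑ i, (x i - a i) * (U.1.mulVec (v i)) p
            = ∑ i, (y i - a i) * (U.1.mulVec (v i)) p
              + ∑ i, (x i - y i) * (U.1.mulVec (v i)) p := by
          rw [← Finset.sum_add_distrib]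
          exact Finset.sum_congr rfl fun i _ => by ring
        rw [this, h4, add_zero]
      rw [h7]
      have h8 : ∑ i, (y i - a i) * (U.1.mulVec (v i)) p
          = ∑ i ∈ F, (y i - a i) * (U.1.mulVec (v i)) p := by
        symm
        refine Finset.sum_subset (Finset.subset_univ _) fun i _ hi => ?_
        rw [haN i hi, sub_self, zero_mul]
      rw [h8, ← Finset.sum_coe_sort F (fun i => (y i - a i) * (U.1.mulVec (v i)) p)]
      refine Fintype.sum_equiv e _ _ fun i => ?_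
      rw [haF i.1 i.2, Equiv.symm_apply_apply]
    rw [h6]
    exact ha2 p

end Pool.Agent.Lib.MP_183cce_co.RR
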