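import Pool.Agent.Lib.MP_183cce_co.RR.Defs

/-!
RR-Gmg: two exponential moments of the standard Gaussian measure `gau m`.

PROOF.  For one variable and a < 1/2: ∫⁻ exp(a x²) dN(0,1) = (1-2a)^(-1/2) (`gaussianReal_of_var_ne_zero`,
`lintegral` against the density, `integral_gaussian` with b = 1/2 - a, `ofReal_integral_eq_lintegral_ofReal`).
a = 1/8: (4/3)^(1/2) ≤ exp(1/6) (because 4/3 ≤ exp(1/3): `Real.add_one_le_exp (1/3)`).  a = -1/2: 2^(-1/2).
`gau_mass`: exp(mass T g/8) = ∏_p (if p ∈ T then exp(g_p²/8) else 1), `lintegral_fintype_prod_eq_prod`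
(or `MeasureTheory.lintegral_prod...`), so the integral is ≤ exp(1/6)^|T|.
`gau_small`: Markov: gau{∑ g² < m/2} ≤ exp(m/4) ∫⁻ exp(-∑ g²/2) = exp(m/4) 2^(-m/2) ≤ exp(-m/16), since
1/4 - (log 2)/2 ≤ -1/16 (log 2 > 0.69).
-/

set_option autoImplicit false

open MeasureTheory

namespace Pool.Agent.Lib.MP_183cce_co.RR

private theorem Gmg_pdf (x : ℝ) : ProbabilityTheory.gaussianPDFReal 0 1 x
    = (Real.sqrt (2 * Real.pi))⁻¹ * Real.exp (-(1/2) * x ^ 2) := by
  rw [ProbabilityTheory.gaussianPDFReal_def]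
  have h1 : (2 * Real.pi * ((1 : NNReal) : ℝ)) = 2 * Real.pi := by simp
  have h2 : -(x - 0) ^ 2 / (2 * ((1 : NNReal) : ℝ)) = -(1/2) * x ^ 2 := by
    rw [sub_zero, NNReal.coe_one]; ring
  simp only [h1, h2]

private theorem Gmg_mul (a x : ℝ) : ProbabilityTheory.gaussianPDFReal 0 1 x * Real.exp (a * x ^ 2)
    = (Real.sqrt (2 * Real.pi))⁻¹ * Real.exp (-(1/2 - a) * x ^ 2) := by
  rw [Gmg_pdf, mul_assoc, ← Real.exp_add]
  congr 2; ring

private theorem Gmg_integrable (a : ℝ) (ha : a < 1/2) :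
    Integrable (fun x : ℝ => Real.exp (a * x ^ 2)) (ProbabilityTheory.gaussianReal 0 1) := by
  rw [ProbabilityTheory.gaussianReal_of_var_ne_zero 0 one_ne_zero]
  rw [integrable_withDensity_iff_integrable_smul'
    (ProbabilityTheory.measurable_gaussianPDF 0 1)
    (Filter.Eventually.of_forall fun x => by
      show ENNReal.ofReal _ < ⊤
      exact ENNReal.ofReal_lt_top)]
  have h : (fun x : ℝ => (ProbabilityTheory.gaussianPDF 0 1 x).toReal • Real.exp (a * x ^ 2))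
      = fun x : ℝ => (Real.sqrt (2 * Real.pi))⁻¹ * Real.exp (-(1/2 - a) * x ^ 2) := by
    funext x
    have h1 : (ProbabilityTheory.gaussianPDF 0 1 x).toReal
        = ProbabilityTheory.gaussianPDFReal 0 1 x :=
      ENNReal.toReal_ofReal (ProbabilityTheory.gaussianPDFReal_nonneg 0 1 x)
    rw [h1, smul_eq_mul, Gmg_mul]
  rw [h]
  exact (integrable_exp_neg_mul_sq (by linarith : (0:ℝ) < 1/2 - a)).const_mul _

private theorem Gmg_integral (a : ℝ) (ha : a < 1/2) :
    ∫ x : ℝ, Real.exp (a * x ^ 2) ∂(ProbabilityTheory.gaussianReal 0 1)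
      = (Real.sqrt (1 - 2 * a))⁻¹ := by
  rw [ProbabilityTheory.integral_gaussianReal_eq_integral_smul one_ne_zero]
  have h : (fun x : ℝ => ProbabilityTheory.gaussianPDFReal 0 1 x • Real.exp (a * x ^ 2))
      = fun x : ℝ => (Real.sqrt (2 * Real.pi))⁻¹ * Real.exp (-(1/2 - a) * x ^ 2) := by
    funext x
    rw [smul_eq_mul, Gmg_mul]
  rw [h, integral_const_mul, integral_gaussian]
  have hpi : 0 < Real.pi := Real.pi_pos
  have h1 : (0:ℝ) < 1 - 2 * a := by linarith
  rw [← Real.sqrt_inv, ← Real.sqrt_inv, ← Real.sqrt_mul (by positivity)]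
  congr 1
  have h2 : (1/2 - a) ≠ 0 := by linarith
  field_simp

private theorem Gmg_lint {m : ℕ} (f : Fin m → ℝ → ℝ)
    (hf : ∀ p, Integrable (f p) (ProbabilityTheory.gaussianReal 0 1)) (hpos : ∀ p x, 0 ≤ f p x) :
    ∫⁻ g, ENNReal.ofReal (∏ p, f p (g p)) ∂(gau m)
      = ENNReal.ofReal (∏ p, ∫ x, f p x ∂(ProbabilityTheory.gaussianReal 0 1)) := by
  unfold gau
  rw [← ofReal_integral_eq_lintegral_ofReal (Integrable.fintype_prod hf)
    (Filter.Eventually.of_forall fun g => Finset.prod_nonneg fun p _ => hpos p _)]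
  rw [integral_fintype_prod_eq_prod]

theorem gau_mass {m : ℕ} (T : Finset (Fin m)) :
    ∫⁻ g, ENNReal.ofReal (Real.exp (mass T g / 8)) ∂(gau m)
      ≤ ENNReal.ofReal (Real.exp ((T.card : ℝ) / 6)) := by
  have h1 : ∀ g : Fin m → ℝ, Real.exp (mass T g / 8)
      = ∏ p, (fun x : ℝ => Real.exp ((if p ∈ T then (1/8 : ℝ) else 0) * x ^ 2)) (g p) := by
    intro g
    unfold mass
    rw [← Real.exp_sum]
    congr 1
    rw [Finset.sum_div, ← Finset.sum_filter_add_sum_filter_not Finset.univ (fun p => p ∈ T)]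
    have ha : ∑ p ∈ Finset.univ.filter (fun p => p ∈ T), (if p ∈ T then (1/8 : ℝ) else 0) * g p ^ 2
        = ∑ p ∈ T, g p ^ 2 / 8 := by
      rw [Finset.filter_mem_eq_inter, Finset.univ_inter]
      exact Finset.sum_congr rfl fun p hp => by rw [if_pos hp]; ring
    have hb : ∑ p ∈ Finset.univ.filter (fun p => ¬ p ∈ T),
        (if p ∈ T then (1/8 : ℝ) else 0) * g p ^ 2 = 0 := by
      refine Finset.sum_eq_zero fun p hp => ?_
      rw [if_neg (Finset.mem_filter.1 hp).2, zero_mul]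
    rw [ha, hb, add_zero]
  have h2 : ∀ p : Fin m, (if p ∈ T then (1/8 : ℝ) else 0) < 1/2 := by
    intro p; split <;> norm_num
  have h3 := Gmg_lint (fun (p : Fin m) (x : ℝ) =>
      Real.exp ((if p ∈ T then (1/8 : ℝ) else 0) * x ^ 2))
    (fun p => Gmg_integrable _ (h2 p)) (fun p x => (Real.exp_pos _).le)
  simp_rw [h1]
  rw [h3]
  refine ENNReal.ofReal_le_ofReal ?_
  have h4 : ∀ p : Fin m, ∫ x : ℝ, Real.exp ((if p ∈ T then (1/8 : ℝ) else 0) * x ^ 2)
      ∂(ProbabilityTheory.gaussianReal 0 1) ≤ Real.exp (if p ∈ T then (1/6 : ℝ) else 0) := by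
    intro p
    rw [Gmg_integral _ (h2 p)]
    split
    · have h5 : (1 : ℝ) - 2 * (1/8) = 3/4 := by norm_num
      rw [h5]
      have h6 : (Real.sqrt (3/4))⁻¹ = Real.sqrt (4/3) := by
        rw [← Real.sqrt_inv]; norm_num
      rw [h6]
      have h7 : (4/3 : ℝ) ≤ Real.exp (1/3) := by
        have := Real.add_one_le_exp (1/3 : ℝ)
        linarith
      rw [Real.sqrt_le_left (Real.exp_pos _).le, ← Real.exp_nat_mul]
      refine h7.trans (Real.exp_le_exp.2 ?_)
      norm_num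
    · simp
  calc ∏ p : Fin m, ∫ x : ℝ, Real.exp ((if p ∈ T then (1/8 : ℝ) else 0) * x ^ 2)
      ∂(ProbabilityTheory.gaussianReal 0 1)
      ≤ ∏ p : Fin m, Real.exp (if p ∈ T then (1/6 : ℝ) else 0) :=
        Finset.prod_le_prod (fun p _ => integral_nonneg fun x => (Real.exp_pos _).le)
          (fun p _ => h4 p)
    _ = Real.exp ((T.card : ℝ) / 6) := by
        rw [← Real.exp_sum]
        congr 1
        rw [← Finset.sum_filter, Finset.filter_mem_eq_inter, Finset.univ_inter, Finset.sum_const,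
          nsmul_eq_mul]
        ring

theorem gau_small (m : ℕ) :
    gau m {g | ∑ p, g p ^ 2 < (m : ℝ) / 2} ≤ ENNReal.ofReal (Real.exp (-((m : ℝ) / 16))) := by
  have h1 : ∀ g : Fin m → ℝ, Real.exp ((m : ℝ) / 4 - (∑ p, g p ^ 2) / 2)
      = Real.exp ((m : ℝ) / 4) * ∏ p, (fun x : ℝ => Real.exp ((-(1/2) : ℝ) * x ^ 2)) (g p) := by
    intro g
    rw [← Real.exp_sum, ← Real.exp_add]
    congr 1
    rw [← Finset.mul_sum]
    ring
  have h3 := Gmg_lint (m := m) (fun (_ : Fin m) (x : ℝ) => Real.exp ((-(1/2) : ℝ) * x ^ 2))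
    (fun p => Gmg_integrable _ (by norm_num)) (fun p x => (Real.exp_pos _).le)
  have hmeas : Measurable fun g : Fin m → ℝ =>
      ENNReal.ofReal (Real.exp ((m : ℝ) / 4 - (∑ p, g p ^ 2) / 2)) := by
    fun_prop
  have h4 : gau m {g | ∑ p, g p ^ 2 < (m : ℝ) / 2}
      ≤ gau m {g | 1 ≤ ENNReal.ofReal (Real.exp ((m : ℝ) / 4 - (∑ p, g p ^ 2) / 2))} := by
    refine measure_mono fun g hg => ?_
    simp only [Set.mem_ofPred_eq] at hg ⊢
    rw [← ENNReal.ofReal_one]
    refine ENNReal.ofReal_le_ofReal ?_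
    rw [← Real.exp_zero]
    exact Real.exp_le_exp.2 (by linarith)
  have h5 := mul_meas_ge_le_lintegral (μ := gau m) hmeas 1
  rw [one_mul] at h5
  refine h4.trans (h5.trans ?_)
  have h6 : ∫⁻ g, ENNReal.ofReal (Real.exp ((m : ℝ) / 4 - (∑ p, g p ^ 2) / 2)) ∂(gau m)
      = ENNReal.ofReal (Real.exp ((m : ℝ) / 4)) *
        ∫⁻ g, ENNReal.ofReal (∏ p, (fun x : ℝ => Real.exp ((-(1/2) : ℝ) * x ^ 2)) (g p))
          ∂(gau m) := by
    rw [← lintegral_const_mul _ (by fun_prop)]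
    refine lintegral_congr fun g => ?_
    rw [h1 g, ENNReal.ofReal_mul (Real.exp_pos _).le]
  rw [h6, h3, ← ENNReal.ofReal_mul (Real.exp_pos _).le]
  refine ENNReal.ofReal_le_ofReal ?_
  rw [Finset.prod_const, Finset.card_univ, Fintype.card_fin, Gmg_integral _ (by norm_num)]
  have h7 : (1 : ℝ) - 2 * (-(1/2)) = 2 := by norm_num
  rw [h7]
  have h8 : (Real.sqrt 2)⁻¹ ≤ Real.exp (-(5/16)) := by
    rw [← Real.sqrt_inv, Real.sqrt_le_left (Real.exp_pos _).le, ← Real.exp_nat_mul]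
    have h9 : Real.exp (-Real.log 2) = (2 : ℝ)⁻¹ := by
      rw [Real.exp_neg, Real.exp_log (by norm_num)]
    rw [← h9]
    refine Real.exp_le_exp.2 ?_
    have := Real.log_two_gt_d9
    push_cast
    linarith
  calc Real.exp ((m : ℝ) / 4) * (Real.sqrt 2)⁻¹ ^ m
      ≤ Real.exp ((m : ℝ) / 4) * (Real.exp (-(5/16))) ^ m := by
        gcongr
    _ = Real.exp (-((m : ℝ) / 16)) := by
        rw [← Real.exp_nat_mul, ← Real.exp_add]
        congr 1
        ring

end Pool.Agent.Lib.MP_183cce_co.RR
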