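import Pool.Agent.Lib.MP_183cce_co.RR.Dir
import Pool.Agent.Lib.MP_183cce_co.RR.Inv
import Pool.Agent.Lib.MP_183cce_co.RR.Cpt

/-!
RR-Haar: exponential moment of the mass of a randomly rotated unit vector.

PROOF.  F(x) = exp((m/16) mass T x/∑ x_p²) (`ENNReal.ofReal` of it), G(x) = F(x).  For g ≠ 0 there is R with
R v = g/|g| (`exists_rot`), and by right invariance (`haar_right`, `lintegral_map`)
∫ F(U g) dμ = ∫ F(U (g/|g|)) dμ = ∫ F(U R v) dμ = ∫ F(U v) dμ = ∫ exp((m/16) mass T (U v)) dμ =: c (homogeneity of F of degree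
0, `rot_sq`).  So for `gau m`-almost every g (all g ≠ 0; the case m = 0 cannot occur because of hv, and gau{0} = 0; or
avoid it: for g = 0, F(U 0) = 1 ≤ ... only an inequality c ≤ is needed: one needs c = ∫∫ F(Ug) up to the null set {0})
c = ∫_g ∫_U F(U g) = ∫_U ∫_g F(U g) (`lintegral_lintegral_swap`, joint measurability of (U, g) ↦ U g from
`measurable_rot`) = ∫_U ∫_g F(g) (`gau_inv`) = ∫_g F(g) ≤ 2 exp(|T|/6) (`dir_gau`).
(gau {0} = 0: `gau` has no atoms: `Measure.pi` of measures without atoms, or the hyperplane g_p = 0.)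
-/

set_option autoImplicit false

open MeasureTheory

namespace Pool.Agent.Lib.MP_183cce_co.RR

private theorem mass_smul {m : ℕ} (T : Finset (Fin m)) (a : ℝ) (x : Fin m → ℝ) :
    mass T (a • x) = a ^ 2 * mass T x := by
  unfold mass
  rw [Finset.mul_sum]
  refine Finset.sum_congr rfl fun p _ => ?_
  simp only [Pi.smul_apply, smul_eq_mul]
  ring

private theorem sum_smul {m : ℕ} (a : ℝ) (x : Fin m → ℝ) :
    ∑ p, (a • x) p ^ 2 = a ^ 2 * ∑ p, x p ^ 2 := by
  rw [Finset.mul_sum]
  refine Finset.sum_congr rfl fun p _ => ?_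
  simp only [Pi.smul_apply, smul_eq_mul]
  ring

private theorem measurable_mass {m : ℕ} (T : Finset (Fin m)) :
    Measurable fun x : Fin m → ℝ => mass T x := by
  unfold mass
  refine Finset.measurable_fun_sum _ fun p _ => ?_
  exact (measurable_pi_apply p).pow_const 2

private theorem measurable_sq {m : ℕ} :
    Measurable fun x : Fin m → ℝ => ∑ p, x p ^ 2 := by
  refine Finset.measurable_fun_sum _ fun p _ => ?_
  exact (measurable_pi_apply p).pow_const 2

private theorem measurable_F {m : ℕ} (T : Finset (Fin m)) :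
    Measurable fun x : Fin m → ℝ =>
      ENNReal.ofReal (Real.exp ((m : ℝ) / 16 * (mass T x / ∑ p, x p ^ 2))) := by
  refine ENNReal.measurable_ofReal.comp (Real.measurable_exp.comp ?_)
  exact ((measurable_mass T).div measurable_sq).const_mul _

private theorem measurable_rotvec {m : ℕ}
    [MeasurableSpace (Matrix.orthogonalGroup (Fin m) ℝ)]
    [BorelSpace (Matrix.orthogonalGroup (Fin m) ℝ)] :
    Measurable fun z : (Fin m → ℝ) × Matrix.orthogonalGroup (Fin m) ℝ => z.2.1.mulVec z.1 := by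
  refine measurable_pi_lambda _ fun p => ?_
  unfold Matrix.mulVec dotProduct
  refine Finset.measurable_fun_sum _ fun q _ => ?_
  exact ((measurable_rot p q).comp measurable_snd).mul
    ((measurable_pi_apply q).comp measurable_fst)

private theorem measurable_vec_left {m : ℕ}
    [MeasurableSpace (Matrix.orthogonalGroup (Fin m) ℝ)]
    [BorelSpace (Matrix.orthogonalGroup (Fin m) ℝ)] (x : Fin m → ℝ) :
    Measurable fun U : Matrix.orthogonalGroup (Fin m) ℝ => U.1.mulVec x := by
  refine measurable_pi_lambda _ fun p => ?_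
  unfold Matrix.mulVec dotProduct
  refine Finset.measurable_fun_sum _ fun q _ => ?_
  exact (measurable_rot p q).mul_const _

private theorem measurable_vec_right {m : ℕ} (U : Matrix.orthogonalGroup (Fin m) ℝ) :
    Measurable fun g : Fin m → ℝ => U.1.mulVec g := by
  refine measurable_pi_lambda _ fun p => ?_
  unfold Matrix.mulVec dotProduct
  refine Finset.measurable_fun_sum _ fun q _ => ?_
  exact (measurable_pi_apply q).const_mul _

private theorem ae_ne {m : ℕ} (p : Fin m) : ∀ᵐ g ∂(gau m), (∑ q, g q ^ 2) ≠ 0 := by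
  rw [ae_iff]
  refine measure_mono_null (t := Function.eval p ⁻¹' ({0} : Set ℝ)) ?_ ?_
  · intro g hg
    have hg' : ∑ q, g q ^ 2 = 0 := by
      by_contra h
      exact hg h
    rw [Finset.sum_eq_zero_iff_of_nonneg fun q _ => sq_nonneg _] at hg'
    have := hg' p (Finset.mem_univ p)
    simpa using this
  · unfold gau
    refine Measure.pi_eval_preimage_null _ ?_
    have : NullSingletonClass (ProbabilityTheory.gaussianReal 0 1) :=
      ProbabilityTheory.nullSingletonClass_gaussianReal one_ne_zero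
    exact measure_singleton 0

private theorem inner_eq {m : ℕ} [MeasurableSpace (Matrix.orthogonalGroup (Fin m) ℝ)]
    [BorelSpace (Matrix.orthogonalGroup (Fin m) ℝ)]
    (μ : Measure (Matrix.orthogonalGroup (Fin m) ℝ)) [IsProbabilityMeasure μ] [μ.IsHaarMeasure]
    (v : Fin m → ℝ) (hv : ∑ p, v p ^ 2 = 1) (T : Finset (Fin m)) (g : Fin m → ℝ)
    (hg : ∑ q, g q ^ 2 ≠ 0) :
    ∫⁻ U, ENNReal.ofReal (Real.exp ((m : ℝ) / 16 *
        (mass T (U.1.mulVec g) / ∑ p, (U.1.mulVec g) p ^ 2))) ∂μ =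
      ∫⁻ U, ENNReal.ofReal (Real.exp ((m : ℝ) / 16 * mass T (U.1.mulVec v))) ∂μ := by
  have hpos : 0 < ∑ q, g q ^ 2 :=
    lt_of_le_of_ne (Finset.sum_nonneg fun q _ => sq_nonneg _) (Ne.symm hg)
  obtain ⟨s, hs⟩ : ∃ s, s = Real.sqrt (∑ q, g q ^ 2) := ⟨_, rfl⟩
  have hs0 : 0 < s := by rw [hs]; exact Real.sqrt_pos.mpr hpos
  have hs2 : s ^ 2 = ∑ q, g q ^ 2 := by rw [hs]; exact Real.sq_sqrt hpos.le
  obtain ⟨R, hR⟩ := exists_rot v (s⁻¹ • g) (by
    rw [hv, sum_smul, ← hs2]
    field_simp)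
  have hmeas : Measurable fun U : Matrix.orthogonalGroup (Fin m) ℝ =>
      ENNReal.ofReal (Real.exp ((m : ℝ) / 16 * mass T (U.1.mulVec v))) := by
    refine ENNReal.measurable_ofReal.comp (Real.measurable_exp.comp ?_)
    exact ((measurable_mass T).comp (measurable_vec_left v)).const_mul _
  have hRm : Measurable fun U : Matrix.orthogonalGroup (Fin m) ℝ => U * R := by
    exact (continuous_mul_const R).measurable
  rw [← haar_right μ R, lintegral_map hmeas hRm, haar_right μ R]
  refine lintegral_congr fun U => ?_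
  have h1 : (U * R).1.mulVec v = s⁻¹ • U.1.mulVec g := by
    have : (U * R).1 = U.1 * R.1 := rfl
    rw [this, ← Matrix.mulVec_mulVec, hR, Matrix.mulVec_smul]
  rw [h1, mass_smul, rot_sq, ← hs2]
  congr 3
  field_simp

theorem haar_mgf {m : ℕ} [MeasurableSpace (Matrix.orthogonalGroup (Fin m) ℝ)]
    [BorelSpace (Matrix.orthogonalGroup (Fin m) ℝ)]
    (μ : Measure (Matrix.orthogonalGroup (Fin m) ℝ)) [IsProbabilityMeasure μ] [μ.IsHaarMeasure]
    (v : Fin m → ℝ) (hv : ∑ p, v p ^ 2 = 1) (T : Finset (Fin m)) :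
    ∫⁻ U, ENNReal.ofReal (Real.exp ((m : ℝ) / 16 * mass T (U.1.mulVec v))) ∂μ
      ≤ ENNReal.ofReal (2 * Real.exp ((T.card : ℝ) / 6)) := by
  have hm : Nonempty (Fin m) := by
    by_contra h
    rw [not_nonempty_iff] at h
    rw [Finset.univ_eq_empty, Finset.sum_empty] at hv
    exact zero_ne_one hv
  obtain ⟨p0⟩ := hm
  have hF := measurable_F T (m := m)
  have hc : ∫⁻ U, ENNReal.ofReal (Real.exp ((m : ℝ) / 16 * mass T (U.1.mulVec v))) ∂μ =
      ∫⁻ g, ∫⁻ U, ENNReal.ofReal (Real.exp ((m : ℝ) / 16 *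
        (mass T (U.1.mulVec g) / ∑ p, (U.1.mulVec g) p ^ 2))) ∂μ ∂(gau m) := by
    have h1 : ∫⁻ g, ∫⁻ U, ENNReal.ofReal (Real.exp ((m : ℝ) / 16 *
        (mass T (U.1.mulVec g) / ∑ p, (U.1.mulVec g) p ^ 2))) ∂μ ∂(gau m) =
        ∫⁻ _g, ∫⁻ U, ENNReal.ofReal (Real.exp ((m : ℝ) / 16 * mass T (U.1.mulVec v))) ∂μ
          ∂(gau m) := by
      refine lintegral_congr_ae ?_
      filter_upwards [ae_ne p0] with g hg
      exact inner_eq μ v hv T g hg
    rw [h1, lintegral_const, measure_univ, mul_one]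
  rw [hc, lintegral_lintegral_swap]
  · have h2 : ∀ U : Matrix.orthogonalGroup (Fin m) ℝ,
        ∫⁻ g, ENNReal.ofReal (Real.exp ((m : ℝ) / 16 *
          (mass T (U.1.mulVec g) / ∑ p, (U.1.mulVec g) p ^ 2))) ∂(gau m) =
        ∫⁻ g, ENNReal.ofReal (Real.exp ((m : ℝ) / 16 * (mass T g / ∑ p, g p ^ 2))) ∂(gau m) := by
      intro U
      have h3 := lintegral_map (μ := gau m) hF (measurable_vec_right U)
      rw [gau_inv U] at h3
      exact h3.symm
    rw [lintegral_congr h2, lintegral_const, measure_univ, mul_one]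
    exact dir_gau T
  · exact (hF.comp measurable_rotvec).aemeasurable

end Pool.Agent.Lib.MP_183cce_co.RR
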