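import Pool.Agent.Lib.MP_183cce_co.RR.Defs

/-!
RR-Ham: the size of a Hamming ball of radius n/16.

PROOF of `ball_card`.  n = card ι.  For τ in the ball, x^(d) ≥ x^(n/16) with x = 1/16 and d the distance,
so #ball ≤ ∑_τ 16^(n/16) (1/16)^(d(σ,τ)) = 2^(n/4) ∑_τ ∏_i (if σ i = τ i then 1 else 1/16)
= 2^(n/4) (17/16)^n (`Finset.prod_univ_sum` / `Fintype.piFinset`, or the number of τ at distance d is
`n.choose d`).  `ball_lt`: 2^(n/4)·(17/16)^n < 2^(3n/4-1) because 2 (17/16)^n < 2^(n/2) for n ≥ 4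
(induction from n = 4: 2(17/16)^4 < 4, and 17/16 < √2).
-/

set_option autoImplicit false

namespace Pool.Agent.Lib.MP_183cce_co.RR

private lemma ham_sum {ι : Type} [Fintype ι] [DecidableEq ι] (σ : ι → Bool) :
    ∑ τ : ι → Bool, ((1 : ℝ) / 16) ^ (Finset.univ.filter fun i => σ i ≠ τ i).card
      = (17 / 16 : ℝ) ^ Fintype.card ι := by
  have h := Finset.prod_univ_sum (R := ℝ) (fun _ : ι => (Finset.univ : Finset Bool))
    (fun i b => if σ i ≠ b then (1 : ℝ) / 16 else 1)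
  rw [Fintype.piFinset_univ] at h
  have h1 : ∀ i : ι, (∑ b ∈ (Finset.univ : Finset Bool), (if σ i ≠ b then (1 : ℝ) / 16 else 1))
      = 17 / 16 := by
    intro i
    cases hs : σ i <;> simp [hs] <;> norm_num
  rw [Finset.prod_congr rfl (fun i _ => h1 i), Finset.prod_const, Finset.card_univ] at h
  rw [h]
  refine Finset.sum_congr rfl fun τ _ => ?_
  rw [Finset.prod_ite, Finset.prod_const, Finset.prod_const_one, mul_one]

theorem ball_card {ι : Type} [Fintype ι] [DecidableEq ι] (σ : ι → Bool) :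
    ((Finset.univ.filter fun τ : ι → Bool =>
      16 * (Finset.univ.filter fun i => σ i ≠ τ i).card < Fintype.card ι).card : ℝ)
      ≤ (2 : ℝ) ^ ((Fintype.card ι : ℝ) / 4) * (17 / 16) ^ Fintype.card ι := by
  rw [← ham_sum σ, Finset.mul_sum, Finset.card_eq_sum_ones, Nat.cast_sum]
  refine le_trans (Finset.sum_le_sum (g := fun τ : ι → Bool => (2 : ℝ) ^ ((Fintype.card ι : ℝ) / 4) *
      ((1 : ℝ) / 16) ^ (Finset.univ.filter fun i => σ i ≠ τ i).card) ?_) ?_
  · intro τ hτ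
    rw [Finset.mem_filter] at hτ
    have hd := hτ.2
    set d := (Finset.univ.filter fun i => σ i ≠ τ i).card with hdd
    have e : ((1 : ℝ) / 16) ^ d = (2 : ℝ) ^ (-(4 * (d : ℝ))) := by
      rw [Real.rpow_neg (by norm_num), Real.rpow_mul (by norm_num), Real.rpow_natCast]
      rw [show (2 : ℝ) ^ (4 : ℝ) = 16 by norm_num, one_div, inv_pow]
    rw [e, ← Real.rpow_add (by norm_num)]
    rw [Nat.cast_one]
    apply Real.one_le_rpow (by norm_num)
    have : (16 * (d : ℝ)) < Fintype.card ι := by exact_mod_cast hd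
    linarith
  · apply Finset.sum_le_sum_of_subset_of_nonneg (Finset.filter_subset _ _)
    intro τ _ _
    positivity

private lemma ham_pow (n : ℕ) (h4 : 4 ≤ n) : 2 * (17 / 16 : ℝ) ^ n < (2 : ℝ) ^ ((n : ℝ) / 2) := by
  induction n, h4 using Nat.le_induction with
  | base => norm_num
  | succ n hn ih =>
    have h1 : (17 / 16 : ℝ) < (2 : ℝ) ^ ((1 : ℝ) / 2) := by
      rw [← Real.sqrt_eq_rpow]
      exact Real.lt_sqrt_of_sq_lt (by norm_num)
    have e : (2 : ℝ) ^ (((n + 1 : ℕ) : ℝ) / 2) = (2 : ℝ) ^ ((n : ℝ) / 2) * (2 : ℝ) ^ ((1 : ℝ) / 2) := by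
      rw [← Real.rpow_add (by norm_num)]
      congr 1
      push_cast
      ring
    rw [e, pow_succ, ← mul_assoc]
    exact mul_lt_mul'' ih h1 (by positivity) (by norm_num)

theorem ball_lt {ι : Type} [Fintype ι] [DecidableEq ι] (σ : ι → Bool) (h4 : 4 ≤ Fintype.card ι) :
    ((Finset.univ.filter fun τ : ι → Bool =>
      16 * (Finset.univ.filter fun i => σ i ≠ τ i).card < Fintype.card ι).card : ℝ)
      < (2 : ℝ) ^ (3 * (Fintype.card ι : ℝ) / 4 - 1) := by
  refine lt_of_le_of_lt (ball_card σ) ?_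
  have h := ham_pow (Fintype.card ι) h4
  have e : (2 : ℝ) ^ (3 * (Fintype.card ι : ℝ) / 4 - 1)
      = (2 : ℝ) ^ ((Fintype.card ι : ℝ) / 4) * ((2 : ℝ) ^ ((Fintype.card ι : ℝ) / 2) / 2) := by
    rw [Real.rpow_sub (by norm_num), Real.rpow_one, ← mul_div_assoc, ← Real.rpow_add (by norm_num)]
    congr 2
    ring
  rw [e]
  have hp : (0 : ℝ) < (2 : ℝ) ^ ((Fintype.card ι : ℝ) / 4) := by positivity
  apply mul_lt_mul_of_pos_left _ hp
  linarith

end Pool.Agent.Lib.MP_183cce_co.RR
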