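import Pool.Agent.Lib.MP_183cce_co.RR.Defs

/-!
RR-Mom: second and fourth moments of sums of random signs.

PROOF.  Induction on the finite type (or on a Finset): it is convenient to prove first, for `Fin n`,
by induction with `Fin.consEquiv` / `Fintype.sum_equiv (Fin.insertNthEquiv ..)`, the three formulas
`∑_σ X = 0`, `∑_σ X^2 = 2^n R`, `∑_σ X^4 ≤ 3·2^n R^2` (X = ∑ a_i s_i, R = ∑ a_i²): if Y = X + a s with
a new sign s, then summing over s = ±1 gives (X+a)²+(X-a)² = 2X²+2a², (X+a)⁴+(X-a)⁴ =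
2X⁴+12a²X²+2a⁴ and 3R²+6a²R+a⁴ ≤ 3(R+a²)².  Transport to a general Fintype by `Fintype.equivFin`
(`Equiv.arrowCongr`).  (Alternative for `mom_two`: expand the square, ∑_σ s_i s_j = 0 for i ≠ j.)
-/

set_option autoImplicit false

namespace Pool.Agent.Lib.MP_183cce_co.RR

private theorem mom_split (n : ℕ) (a : Fin (n + 1) → ℝ) (F : ℝ → ℝ) :
    ∑ σ : Fin (n + 1) → Bool, F (∑ i, a i * sg (σ i)) =
      ∑ τ : Fin n → Bool, (F (a 0 * sg true + ∑ i, a i.succ * sg (τ i)) +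
        F (a 0 * sg false + ∑ i, a i.succ * sg (τ i))) := by
  rw [← (Fin.consEquiv fun _ => Bool).sum_comp, Fintype.sum_prod_type, Fintype.sum_bool,
    ← Finset.sum_add_distrib]
  refine Finset.sum_congr rfl fun τ _ => ?_
  simp only [Fin.consEquiv, Equiv.coe_fn_mk, Fin.sum_univ_succ, Fin.cons_zero, Fin.cons_succ]

private theorem mom_fin (n : ℕ) : ∀ a : Fin n → ℝ,
    ∑ σ : Fin n → Bool, (∑ i, a i * sg (σ i)) ^ 2 = 2 ^ n * ∑ i, a i ^ 2 ∧
    ∑ σ : Fin n → Bool, (∑ i, a i * sg (σ i)) ^ 4 ≤ 2 ^ n * (3 * (∑ i, a i ^ 2) ^ 2) := by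
  induction n with
  | zero =>
    intro a
    simp
  | succ n ih =>
    intro a
    obtain ⟨h2, h4⟩ := ih (fun i => a i.succ)
    have st : sg true ^ 2 = 1 ∧ sg true * sg true = 1 ∧ sg false = -sg true := by
      simp [sg]
    have e1 : ∀ X : ℝ, (a 0 * sg true + X) ^ 2 + (a 0 * sg false + X) ^ 2 = 2 * X ^ 2 + 2 * a 0 ^ 2 := by
      intro X
      rw [st.2.2]
      linear_combination (2 * a 0 ^ 2) * st.1
    have e2 : ∀ X : ℝ, (a 0 * sg true + X) ^ 4 + (a 0 * sg false + X) ^ 4 =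
        2 * X ^ 4 + 12 * a 0 ^ 2 * X ^ 2 + 2 * a 0 ^ 4 := by
      intro X
      rw [st.2.2]
      linear_combination (12 * a 0 ^ 2 * X ^ 2 + 2 * a 0 ^ 4 * (sg true ^ 2 + 1)) * st.1
    have c : (∑ _τ : Fin n → Bool, (1 : ℝ)) = 2 ^ n := by simp
    constructor
    · rw [mom_split n a (fun x => x ^ 2)]
      simp only [e1]
      rw [Finset.sum_add_distrib, ← Finset.mul_sum, h2, Fin.sum_univ_succ, pow_succ (2 : ℝ) n]
      have : ∑ _τ : Fin n → Bool, (2 * a 0 ^ 2) = 2 * a 0 ^ 2 * 2 ^ n := by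
        rw [← c, Finset.mul_sum]
        simp
      rw [this]
      ring
    · rw [mom_split n a (fun x => x ^ 4)]
      simp only [e2]
      rw [Finset.sum_add_distrib, Finset.sum_add_distrib, ← Finset.mul_sum, ← Finset.mul_sum, h2,
        Fin.sum_univ_succ, pow_succ (2 : ℝ) n]
      have : ∑ _τ : Fin n → Bool, (2 * a 0 ^ 4) = 2 * a 0 ^ 4 * 2 ^ n := by
        rw [← c, Finset.mul_sum]
        simp
      rw [this]
      have hp : (0 : ℝ) < 2 ^ n := by positivity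
      have h0 : 0 ≤ 2 ^ n * a 0 ^ 4 := by positivity
      set R : ℝ := ∑ i : Fin n, a i.succ ^ 2 with hR
      have e3 : 2 ^ n * 2 * (3 * (a 0 ^ 2 + R) ^ 2) = 2 * (2 ^ n * (3 * R ^ 2)) +
          12 * a 0 ^ 2 * (2 ^ n * R) + 2 * a 0 ^ 4 * 2 ^ n + 4 * (2 ^ n * a 0 ^ 4) := by ring
      rw [e3]
      linarith

theorem mom_two {ι : Type} [Fintype ι] [DecidableEq ι] (a : ι → ℝ) :
    ∑ σ : ι → Bool, (∑ i, a i * sg (σ i)) ^ 2 = 2 ^ Fintype.card ι * ∑ i, a i ^ 2 := by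
  have e := Fintype.equivFin ι
  have h := (mom_fin (Fintype.card ι) (fun i => a (e.symm i))).1
  rw [← (e.arrowCongr (Equiv.refl Bool)).sum_comp] at h
  rw [← e.symm.sum_comp (fun i => a i ^ 2), ← h]
  refine Finset.sum_congr rfl fun σ _ => ?_
  rw [← e.symm.sum_comp (fun i => a i * sg (σ i))]
  rfl

theorem mom_four {ι : Type} [Fintype ι] [DecidableEq ι] (a : ι → ℝ) :
    ∑ σ : ι → Bool, (∑ i, a i * sg (σ i)) ^ 4
      ≤ 2 ^ Fintype.card ι * (3 * (∑ i, a i ^ 2) ^ 2) := by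
  have e := Fintype.equivFin ι
  have h := (mom_fin (Fintype.card ι) (fun i => a (e.symm i))).2
  rw [← (e.arrowCongr (Equiv.refl Bool)).sum_comp, e.symm.sum_comp (fun i => a i ^ 2)] at h
  refine le_trans (le_of_eq ?_) h
  refine Finset.sum_congr rfl fun σ _ => ?_
  rw [← e.symm.sum_comp (fun i => a i * sg (σ i))]
  rfl

end Pool.Agent.Lib.MP_183cce_co.RR
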