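import Pool.Agent.Lib.MP_183cce_co.RR.Cnt

/-!
RR-Num: the numerical inequality for the exponent.

Notation: c = 1/2000, A ≥ 1, β = 448000 A (= 224 A/c), κ ≤ 1/20, ρ = s/m ∈ (0, A], b = β ρ^κ,
τ = 4ρ/(c² b⁶) (= 16000000 ρ/b⁶), y = (c/2) b² = b²/4000.

PROOF.  Put r = ρ^(2κ) > 0; b² = β² r, b⁶ = β⁶ r³ = β⁶ ρ^(6κ).  Since ρ ≤ A, A ≥ 1: ρ^e ≤ A ρ^(2κ) for 2κ ≤ e ≤ 1 + 2κ
(ρ^(e-2κ) ≤ A^(e-2κ) ≤ A).
`tau_le`: τ = (4/(c²β⁶)) ρ^(1-6κ) ≤ (4/(c²β⁶)) A ≤ 1.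
`expo`: with x_log:
 ρ(1+log(A/ρ)) = A·x(1+log(1/x)), x = ρ/A: ≤ 2A√(ρ/A) ≤ 2 √A ρ^(1/2) ≤ 2 √A·A^(1/2-2κ) r ≤ 2A r;
 τ(1+log(1/τ)) ≤ 2√τ = (4/(cβ³)) ρ^((1-6κ)/2) ≤ (4/(cβ³)) A r ≤ A r   ((1-6κ)/2 ≥ 2κ because κ ≤ 1/10);
 τ/6 ≤ τ ≤ (4/(c²β⁶)) A r ≤ A r;   y/16 = β² r/64000 ≥ 6 A r... (β² = 448000² A² ), in fact y/16 ≥ 3·10⁶ A² r.
 Sum ≤ (2A + A + A) r - 6 A r ≤ -2 A r ≤ -2 r.
Only crude constants are needed.
-/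

set_option autoImplicit false

namespace Pool.Agent.Lib.MP_183cce_co.RR

private theorem num_pow {A κ ρ : ℝ} (hA : 1 ≤ A) (hρ : 0 < ρ) (hρA : ρ ≤ A) {t : ℝ}
    (ht0 : 0 ≤ t) (ht1 : t ≤ 1) (n : ℕ) : ρ ^ (t + n * κ) ≤ A * (ρ ^ κ) ^ n := by
  have h1 : ρ ^ (t + n * κ) = ρ ^ t * (ρ ^ κ) ^ n := by
    rw [Real.rpow_add hρ, mul_comm (n : ℝ) κ, Real.rpow_mul hρ.le, Real.rpow_natCast]
  have h2 : ρ ^ t ≤ A := by
    calc ρ ^ t ≤ A ^ t := Real.rpow_le_rpow hρ.le hρA ht0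
      _ ≤ A ^ (1 : ℝ) := Real.rpow_le_rpow_of_exponent_le hA ht1
      _ = A := Real.rpow_one A
  rw [h1]
  exact mul_le_mul_of_nonneg_right h2 (by positivity)

theorem tau_le {A κ ρ : ℝ} (hA : 1 ≤ A) (hκ : 0 < κ) (hκ1 : κ ≤ 1 / 20) (hρ : 0 < ρ)
    (hρA : ρ ≤ A) : 16000000 * ρ / (448000 * A * ρ ^ κ) ^ 6 ≤ 1 := by
  have hP : 0 < ρ ^ κ := Real.rpow_pos_of_pos hρ κ
  have h6 : ρ ≤ A * (ρ ^ κ) ^ 6 := by
    have h := num_pow (κ := κ) hA hρ hρA (t := 1 - 6 * κ) (by linarith) (by linarith) 6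
    have h' : (1 - 6 * κ + ((6 : ℕ) : ℝ) * κ) = 1 := by push_cast; ring
    rwa [h', Real.rpow_one] at h
  rw [div_le_one (by positivity)]
  have hA6 : A ≤ A ^ 6 := le_self_pow₀ hA (by norm_num)
  have hP6 : 0 < (ρ ^ κ) ^ 6 := by positivity
  calc 16000000 * ρ ≤ 16000000 * (A * (ρ ^ κ) ^ 6) := by linarith
    _ = 16000000 * A * (ρ ^ κ) ^ 6 := by ring
    _ ≤ 448000 ^ 6 * A ^ 6 * (ρ ^ κ) ^ 6 := by
        apply mul_le_mul_of_nonneg_right _ hP6.le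
        nlinarith
    _ = (448000 * A * ρ ^ κ) ^ 6 := by ring

theorem expo {A κ ρ : ℝ} (hA : 1 ≤ A) (hκ : 0 < κ) (hκ1 : κ ≤ 1 / 20) (hρ : 0 < ρ)
    (hρA : ρ ≤ A) :
    ρ * (1 + Real.log (A / ρ))
      + 16000000 * ρ / (448000 * A * ρ ^ κ) ^ 6
        * (1 + Real.log (1 / (16000000 * ρ / (448000 * A * ρ ^ κ) ^ 6)))
      + 16000000 * ρ / (448000 * A * ρ ^ κ) ^ 6 / 6
      - (448000 * A * ρ ^ κ) ^ 2 / 4000 / 16 ≤ -(2 * ρ ^ (2 * κ)) := by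
  have hA0 : 0 < A := by linarith
  have hP : 0 < ρ ^ κ := Real.rpow_pos_of_pos hρ κ
  have hr : ρ ^ (2 * κ) = (ρ ^ κ) ^ 2 := by
    rw [mul_comm 2 κ, Real.rpow_mul hρ.le, Real.rpow_two]
  have hτ1 := tau_le hA hκ hκ1 hρ hρA
  have hτ0 : 0 < 16000000 * ρ / (448000 * A * ρ ^ κ) ^ 6 := by positivity
  -- first term
  have hT1 : ρ * (1 + Real.log (A / ρ)) ≤ 2 * A * (ρ ^ κ) ^ 2 := by
    have hx0 : 0 < ρ / A := div_pos hρ hA0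
    have hx1 : ρ / A ≤ 1 := (div_le_one hA0).2 hρA
    have h := x_log hx0 hx1
    have hinv : 1 / (ρ / A) = A / ρ := one_div_div ρ A
    rw [hinv] at h
    have hs : Real.sqrt (ρ / A) ≤ (ρ ^ κ) ^ 2 := by
      rw [Real.sqrt_eq_rpow, ← hr]
      calc (ρ / A) ^ (1 / 2 : ℝ) ≤ (ρ / A) ^ (2 * κ) :=
            Real.rpow_le_rpow_of_exponent_ge hx0 hx1 (by linarith)
        _ ≤ ρ ^ (2 * κ) := by
            apply Real.rpow_le_rpow hx0.le _ (by linarith)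
            exact div_le_self hρ.le hA
    have h2 : ρ * (1 + Real.log (A / ρ)) = A * (ρ / A * (1 + Real.log (A / ρ))) := by
      field_simp
    rw [h2]
    calc A * (ρ / A * (1 + Real.log (A / ρ))) ≤ A * (2 * Real.sqrt (ρ / A)) :=
          mul_le_mul_of_nonneg_left h hA0.le
      _ ≤ A * (2 * (ρ ^ κ) ^ 2) := by
          apply mul_le_mul_of_nonneg_left _ hA0.le
          linarith
      _ = 2 * A * (ρ ^ κ) ^ 2 := by ring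
  have hP2 : 0 < (ρ ^ κ) ^ 2 := by positivity
  -- second term
  have hT2 : 16000000 * ρ / (448000 * A * ρ ^ κ) ^ 6
        * (1 + Real.log (1 / (16000000 * ρ / (448000 * A * ρ ^ κ) ^ 6)))
        ≤ A * (ρ ^ κ) ^ 2 := by
    refine (x_log hτ0 hτ1).trans ?_
    have h10 : ρ ≤ A * (ρ ^ κ) ^ 10 := by
      have h := num_pow (κ := κ) hA hρ hρA (t := 1 - 10 * κ) (by linarith) (by linarith) 10
      have h' : (1 - 10 * κ + ((10 : ℕ) : ℝ) * κ) = 1 := by push_cast; ring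
      rwa [h', Real.rpow_one] at h
    have hb : 16000000 * ρ / (448000 * A * ρ ^ κ) ^ 6 ≤ (A * (ρ ^ κ) ^ 2 / 2) ^ 2 := by
      rw [div_le_iff₀ (by positivity)]
      have hA1 : A ≤ A ^ 8 := le_self_pow₀ hA (by norm_num)
      have hP10 : 0 < (ρ ^ κ) ^ 10 := by positivity
      calc 16000000 * ρ ≤ 16000000 * (A * (ρ ^ κ) ^ 10) := by linarith
        _ = 16000000 * A * (ρ ^ κ) ^ 10 := by ring
        _ ≤ 448000 ^ 6 / 4 * A ^ 8 * (ρ ^ κ) ^ 10 := by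
            apply mul_le_mul_of_nonneg_right _ hP10.le
            nlinarith
        _ = (A * (ρ ^ κ) ^ 2 / 2) ^ 2 * (448000 * A * ρ ^ κ) ^ 6 := by ring
    have hs : Real.sqrt (16000000 * ρ / (448000 * A * ρ ^ κ) ^ 6) ≤ A * (ρ ^ κ) ^ 2 / 2 :=
      (Real.sqrt_le_sqrt hb).trans (le_of_eq (Real.sqrt_sq (by positivity)))
    linarith
  -- third term
  have hT3 : 16000000 * ρ / (448000 * A * ρ ^ κ) ^ 6 ≤ A * (ρ ^ κ) ^ 2 := by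
    have h8 : ρ ≤ A * (ρ ^ κ) ^ 8 := by
      have h := num_pow (κ := κ) hA hρ hρA (t := 1 - 8 * κ) (by linarith) (by linarith) 8
      have h' : (1 - 8 * κ + ((8 : ℕ) : ℝ) * κ) = 1 := by push_cast; ring
      rwa [h', Real.rpow_one] at h
    rw [div_le_iff₀ (by positivity)]
    have hA1 : A ≤ A ^ 7 := le_self_pow₀ hA (by norm_num)
    have hP8 : 0 < (ρ ^ κ) ^ 8 := by positivity
    calc 16000000 * ρ ≤ 16000000 * (A * (ρ ^ κ) ^ 8) := by linarith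
      _ = 16000000 * A * (ρ ^ κ) ^ 8 := by ring
      _ ≤ 448000 ^ 6 * A ^ 7 * (ρ ^ κ) ^ 8 := by
          apply mul_le_mul_of_nonneg_right _ hP8.le
          nlinarith
      _ = A * (ρ ^ κ) ^ 2 * (448000 * A * ρ ^ κ) ^ 6 := by ring
  -- fourth term
  have hT4 : (448000 * A * ρ ^ κ) ^ 2 / 4000 / 16 = 3136000 * A ^ 2 * (ρ ^ κ) ^ 2 := by ring
  rw [hT4, hr]
  have hA2 : A ≤ A ^ 2 := le_self_pow₀ hA (by norm_num)
  have h5 : A * (ρ ^ κ) ^ 2 ≤ A ^ 2 * (ρ ^ κ) ^ 2 := mul_le_mul_of_nonneg_right hA2 hP2.le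
  have h6 : 1 * (ρ ^ κ) ^ 2 ≤ A * (ρ ^ κ) ^ 2 := mul_le_mul_of_nonneg_right hA hP2.le
  have h7 : 16000000 * ρ / (448000 * A * ρ ^ κ) ^ 6 / 6 ≤ A * (ρ ^ κ) ^ 2 := by linarith
  linarith

end Pool.Agent.Lib.MP_183cce_co.RR
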