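import Pool.Agent.Lib.MP_183cce_co.RR.Haar

/-!
RR-One: one pair (S, T).

PROOF.  s = |S| ≥ 1.  On the event, exp((m/16) (1/s) ∑_{i∈S} mass T (U v_i)) ≥ exp(m y/16); by convexity of exp
(Jensen, `ConvexOn.map_sum_le` or `inner_le_nnorm..`; weights 1/s) exp((1/s)∑ ..) ≤ (1/s) ∑_{i∈S} exp((m/16) mass T (U v_i)), whose
integral is ≤ 2 exp(|T|/6) by `haar_mgf`.  Markov (`meas_ge_le_lintegral_div` or `mul_meas_ge_le_lintegral`):
μ(event) ≤ exp(-m y/16)·2 exp(|T|/6).
-/

set_option autoImplicit false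

open MeasureTheory

namespace Pool.Agent.Lib.MP_183cce_co.RR

private theorem one_meas {m : ℕ} [MeasurableSpace (Matrix.orthogonalGroup (Fin m) ℝ)]
    [BorelSpace (Matrix.orthogonalGroup (Fin m) ℝ)] (v : Fin m → ℝ) (T : Finset (Fin m)) :
    Measurable fun U : Matrix.orthogonalGroup (Fin m) ℝ =>
      ENNReal.ofReal (Real.exp ((m : ℝ) / 16 * mass T (U.1.mulVec v))) := by
  refine ENNReal.measurable_ofReal.comp (Real.measurable_exp.comp (Measurable.const_mul ?_ _))
  unfold mass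
  refine Finset.measurable_sum _ fun p _ => Measurable.pow_const ?_ 2
  have h : (fun U : Matrix.orthogonalGroup (Fin m) ℝ => U.1.mulVec v p) =
      fun U : Matrix.orthogonalGroup (Fin m) ℝ => ∑ q, U.1 p q * v q := by
    funext U
    rfl
  rw [h]
  exact Finset.measurable_sum _ fun q _ => (measurable_rot p q).mul_const _

private theorem one_jensen {ι : Type} (S : Finset ι) (hS : S.Nonempty) (f : ι → ℝ) (c y : ℝ)
    (hc : 0 ≤ c) (h : y * S.card < ∑ i ∈ S, f i) :
    S.card * Real.exp (c * y) ≤ ∑ i ∈ S, Real.exp (c * f i) := by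
  have hs : (0 : ℝ) < S.card := by exact_mod_cast hS.card_pos
  have h1 := convexOn_exp.map_sum_le (t := S) (w := fun _ => (1 : ℝ) / S.card)
    (p := fun i => c * f i) (fun i _ => by positivity)
    (by rw [Finset.sum_const, nsmul_eq_mul]; field_simp) (fun i _ => Set.mem_univ _)
  simp only [smul_eq_mul] at h1
  rw [← Finset.mul_sum, ← Finset.mul_sum, ← Finset.mul_sum] at h1
  have h2 : c * y ≤ 1 / S.card * (c * ∑ i ∈ S, f i) := by
    rw [one_div, ← mul_assoc, mul_comm _ c, mul_assoc]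
    refine mul_le_mul_of_nonneg_left ?_ hc
    rw [inv_mul_eq_div, le_div_iff₀ hs]
    exact h.le
  have h3 := (Real.exp_le_exp.2 h2).trans h1
  rw [one_div, inv_mul_eq_div, le_div_iff₀ hs] at h3
  linarith

theorem one_pair {m : ℕ} [MeasurableSpace (Matrix.orthogonalGroup (Fin m) ℝ)]
    [BorelSpace (Matrix.orthogonalGroup (Fin m) ℝ)]
    (μ : Measure (Matrix.orthogonalGroup (Fin m) ℝ)) [IsProbabilityMeasure μ] [μ.IsHaarMeasure]
    {ι : Type} (v : ι → Fin m → ℝ) (hv : ∀ i, ∑ p, v i p ^ 2 = 1) (S : Finset ι)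
    (hS : S.Nonempty) (T : Finset (Fin m)) (y : ℝ) :
    μ {U | y * S.card < ∑ i ∈ S, mass T (U.1.mulVec (v i))}
      ≤ ENNReal.ofReal (2 * Real.exp ((T.card : ℝ) / 6 - m * y / 16)) := by
  have hs : (0 : ℝ) < S.card := by exact_mod_cast hS.card_pos
  set F : Matrix.orthogonalGroup (Fin m) ℝ → ENNReal := fun U =>
    ∑ i ∈ S, ENNReal.ofReal (Real.exp ((m : ℝ) / 16 * mass T (U.1.mulVec (v i)))) with hF
  have hFm : Measurable F := Finset.measurable_sum _ fun i _ => one_meas (v i) T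
  set ε : ENNReal := ENNReal.ofReal (S.card * Real.exp ((m : ℝ) / 16 * y)) with hε
  have hsub : {U | y * S.card < ∑ i ∈ S, mass T (U.1.mulVec (v i))} ⊆ {U | ε ≤ F U} := by
    intro U hU
    have h1 := one_jensen S hS (fun i => mass T (U.1.mulVec (v i))) ((m : ℝ) / 16) y
      (by positivity) hU
    show ε ≤ F U
    rw [hε, hF]
    simp only
    rw [← ENNReal.ofReal_sum_of_nonneg fun i _ => (Real.exp_pos _).le]
    exact ENNReal.ofReal_le_ofReal h1
  have hM := mul_meas_ge_le_lintegral₀ (μ := μ) hFm.aemeasurable ε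
  have hint : ∫⁻ U, F U ∂μ ≤ S.card * ENNReal.ofReal (2 * Real.exp ((T.card : ℝ) / 6)) := by
    rw [hF]
    simp only
    rw [lintegral_finsetSum _ fun i _ => one_meas (v i) T]
    refine (Finset.sum_le_sum fun i _ => haar_mgf μ (v i) (hv i) T).trans ?_
    rw [Finset.sum_const, nsmul_eq_mul]
  have h2 : ε * μ {U | y * S.card < ∑ i ∈ S, mass T (U.1.mulVec (v i))} ≤
      S.card * ENNReal.ofReal (2 * Real.exp ((T.card : ℝ) / 6)) :=
    (mul_le_mul_right (measure_mono hsub) _).trans (hM.trans hint)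
  have hε0 : ε ≠ 0 := by
    rw [hε]
    simp only [ne_eq, ENNReal.ofReal_eq_zero, not_le]
    positivity
  have hεt : ε ≠ ⊤ := ENNReal.ofReal_ne_top
  have h3 : ε * ENNReal.ofReal (2 * Real.exp ((T.card : ℝ) / 6 - m * y / 16)) =
      S.card * ENNReal.ofReal (2 * Real.exp ((T.card : ℝ) / 6)) := by
    rw [hε, ← ENNReal.ofReal_mul (by positivity), ← ENNReal.ofReal_natCast,
      ← ENNReal.ofReal_mul (by positivity)]
    congr 1
    have e : Real.exp ((T.card : ℝ) / 6) = Real.exp ((m : ℝ) / 16 * y) *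
        Real.exp ((T.card : ℝ) / 6 - m * y / 16) := by
      rw [← Real.exp_add]
      congr 1
      ring
    rw [e]
    ring
  rw [← h3] at h2
  exact (ENNReal.mul_le_mul_iff_right hε0 hεt).1 h2

end Pool.Agent.Lib.MP_183cce_co.RR
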