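import Pool.Agent.Lib.MP_183cce_co.RR.Ham

/-!
RR-Pig: the pigeonhole step.

PROOF.  n = card ι, W σ = ∑_p w p (k p σ) ≥ 0.  Good = {σ | W σ ≤ 2 E2}; by Markov at least 2^(n-1) signs
are good (if E2 = 0 all are; E2 ≥ 0 follows from h2 and hw).  Let K be the union of the images of
the k p (a Finset ℤ).  The number of values of the map σ ↦ (p ↦ k p σ) on Good is at most
∑_{κ ∈ piFinset (fun _ => K)} exp(2 E2 - ∑_p w p (κ p)) = exp(2 E2) ∏_p ∑_{k∈K} exp(-(w p k)) ≤
exp(2 E2 + E1) ≤ 2^(n/4) (`Finset.prod_univ_sum`).  So some fibre has at least 2^(3n/4-1) members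
(`Finset.exists_le_card_fiber_of_...` or by contradiction with `Finset.card_eq_sum_card_fiberwise`).
Take σ in it; by `ball_lt` some σ' of the fibre is outside the ball around σ.
-/

set_option autoImplicit false

namespace Pool.Agent.Lib.MP_183cce_co.RR

private lemma pig_markov {S : Type} [Fintype S] (W : S → ℝ) (hW : ∀ σ, 0 ≤ W σ) (E2 : ℝ)
    (h2 : ∑ σ, W σ ≤ Fintype.card S * E2) :
    (Fintype.card S : ℝ) / 2 ≤ ((Finset.univ.filter fun σ => W σ ≤ 2 * E2).card : ℝ) := by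
  classical
  have hc := Finset.card_filter_add_card_filter_not (s := (Finset.univ : Finset S))
    (fun σ => W σ ≤ 2 * E2)
  rw [Finset.card_univ] at hc
  have hc' : ((Finset.univ.filter fun σ => W σ ≤ 2 * E2).card : ℝ) +
      ((Finset.univ.filter fun σ => ¬ W σ ≤ 2 * E2).card : ℝ) = Fintype.card S := by
    exact_mod_cast hc
  have hb : ((Finset.univ.filter fun σ => ¬ W σ ≤ 2 * E2).card : ℝ) * (2 * E2) ≤
      Fintype.card S * E2 := by
    refine le_trans ?_ h2
    refine le_trans ?_ (Finset.sum_le_sum_of_subset_of_nonneg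
      (Finset.filter_subset (fun σ => ¬ W σ ≤ 2 * E2) Finset.univ) (fun σ _ _ => hW σ))
    rw [← nsmul_eq_mul]
    refine Finset.card_nsmul_le_sum _ _ _ fun σ hσ => ?_
    exact le_of_lt (not_le.1 (Finset.mem_filter.1 hσ).2)
  by_cases hS : Fintype.card S = 0
  · rw [hS, Nat.cast_zero, zero_div]
    positivity
  have hS' : (0 : ℝ) < Fintype.card S := by
    exact_mod_cast Nat.pos_of_ne_zero hS
  have hE : 0 ≤ E2 := by
    have : 0 ≤ ∑ σ, W σ := Finset.sum_nonneg fun σ _ => hW σ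
    by_contra hneg
    push Not at hneg
    nlinarith
  rcases hE.eq_or_lt with h0 | h0
  · have hz : (Finset.univ.filter fun σ => ¬ W σ ≤ 2 * E2) = ∅ := by
      rw [Finset.filter_eq_empty_iff]
      intro σ _
      push Not
      have := Finset.single_le_sum (f := W) (fun σ _ => hW σ) (Finset.mem_univ σ)
      rw [← h0] at h2 ⊢
      linarith
    rw [hz, Finset.card_empty, Nat.cast_zero, add_zero] at hc'
    rw [hc']
    linarith
  · have : ((Finset.univ.filter fun σ => ¬ W σ ≤ 2 * E2).card : ℝ) * 2 ≤ Fintype.card S := by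
      by_contra hcon
      have hcon' := mul_lt_mul_of_pos_right (not_le.1 hcon) h0
      linarith
    linarith

private lemma pig_image {S P : Type} [Fintype S] [Fintype P] [DecidableEq P]
    (k : P → S → ℤ) (w : P → ℤ → ℝ) (E1 E2 : ℝ)
    (h1 : ∀ K : Finset ℤ, ∏ p, ∑ j ∈ K, Real.exp (-(w p j)) ≤ Real.exp E1) :
    (((Finset.univ.filter fun σ => ∑ p, w p (k p σ) ≤ 2 * E2).image
      (fun σ p => k p σ)).card : ℝ) ≤ Real.exp (E1 + 2 * E2) := by
  classical
  set K : Finset ℤ := Finset.univ.biUnion fun p => Finset.univ.image (k p) with hK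
  have hsub : ((Finset.univ.filter fun σ => ∑ p, w p (k p σ) ≤ 2 * E2).image
      (fun σ p => k p σ)) ⊆ Fintype.piFinset (fun _ : P => K) := by
    intro κ hκ
    rw [Finset.mem_image] at hκ
    obtain ⟨σ, _, rfl⟩ := hκ
    rw [Fintype.mem_piFinset]
    intro p
    rw [hK, Finset.mem_biUnion]
    exact ⟨p, Finset.mem_univ _, Finset.mem_image.2 ⟨σ, Finset.mem_univ _, rfl⟩⟩
  have hle : (((Finset.univ.filter fun σ => ∑ p, w p (k p σ) ≤ 2 * E2).image
      (fun σ p => k p σ)).card : ℝ) ≤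
      ∑ κ ∈ ((Finset.univ.filter fun σ => ∑ p, w p (k p σ) ≤ 2 * E2).image
      (fun σ p => k p σ)), Real.exp (2 * E2) * ∏ p, Real.exp (-(w p (κ p))) := by
    rw [Finset.card_eq_sum_ones, Nat.cast_sum]
    refine Finset.sum_le_sum fun κ hκ => ?_
    rw [Finset.mem_image] at hκ
    obtain ⟨σ, hσ, rfl⟩ := hκ
    have hs := (Finset.mem_filter.1 hσ).2
    rw [← Real.exp_sum, ← Real.exp_add, Nat.cast_one]
    apply Real.one_le_exp
    rw [Finset.sum_neg_distrib]
    linarith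
  refine hle.trans ?_
  refine (Finset.sum_le_sum_of_subset_of_nonneg hsub fun κ _ _ => by positivity).trans ?_
  rw [← Finset.mul_sum, ← Finset.prod_univ_sum (fun _ : P => K)
    (fun p j => Real.exp (-(w p j))), add_comm, Real.exp_add]
  exact mul_le_mul_of_nonneg_left (h1 K) (Real.exp_pos _).le

theorem pig {ι P : Type} [Fintype ι] [DecidableEq ι] [Fintype P] [DecidableEq P]
    (k : P → (ι → Bool) → ℤ) (w : P → ℤ → ℝ) (E1 E2 : ℝ) (hw : ∀ p k, 0 ≤ w p k)
    (h1 : ∀ K : Finset ℤ, ∏ p, ∑ j ∈ K, Real.exp (-(w p j)) ≤ Real.exp E1)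
    (h2 : ∑ σ : ι → Bool, ∑ p, w p (k p σ) ≤ 2 ^ Fintype.card ι * E2)
    (h3 : E1 + 2 * E2 ≤ Fintype.card ι * Real.log 2 / 4) (h4 : 4 ≤ Fintype.card ι) :
    ∃ σ σ' : ι → Bool, (∀ p, k p σ = k p σ') ∧
      Fintype.card ι ≤ 16 * (Finset.univ.filter fun i => σ i ≠ σ' i).card := by
  classical
  by_contra hcon
  push Not at hcon
  have hcard : Fintype.card (ι → Bool) = 2 ^ Fintype.card ι := by
    rw [Fintype.card_fun, Fintype.card_bool]
  have hm := pig_markov (fun σ : ι → Bool => ∑ p, w p (k p σ))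
    (fun σ => Finset.sum_nonneg fun p _ => hw _ _) E2 (by
      rw [hcard]
      push_cast
      exact h2)
  have hi := pig_image k w E1 E2 h1
  set Good := Finset.univ.filter fun σ : ι → Bool => ∑ p, w p (k p σ) ≤ 2 * E2 with hG
  rw [hcard] at hm
  push_cast at hm
  set F : (ι → Bool) → P → ℤ := fun σ p => k p σ with hF
  have hfib := Finset.card_eq_sum_card_image F Good
  have hfib' : (Good.card : ℝ) = ∑ κ ∈ Good.image F, ((Good.filter fun σ => F σ = κ).card : ℝ) := by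
    exact_mod_cast hfib
  have hGpos : (0 : ℝ) < Good.card := lt_of_lt_of_le (by positivity) hm
  have hGne : Good.Nonempty := by
    rw [← Finset.card_pos]
    exact_mod_cast hGpos
  have hlt : (Good.card : ℝ) <
      ∑ κ ∈ Good.image F, (2 : ℝ) ^ (3 * (Fintype.card ι : ℝ) / 4 - 1) := by
    rw [hfib']
    refine Finset.sum_lt_sum_of_nonempty (hGne.image F) fun κ hκ => ?_
    rw [Finset.mem_image] at hκ
    obtain ⟨σ, hσ, rfl⟩ := hκ
    refine lt_of_le_of_lt ?_ (ball_lt σ h4)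
    norm_cast
    refine Finset.card_le_card fun τ hτ => ?_
    rw [Finset.mem_filter] at hτ ⊢
    refine ⟨Finset.mem_univ _, hcon σ τ fun p => ?_⟩
    exact (congrFun hτ.2 p).symm
  rw [Finset.sum_const, nsmul_eq_mul] at hlt
  have h5 : Real.exp (E1 + 2 * E2) ≤ (2 : ℝ) ^ ((Fintype.card ι : ℝ) / 4) := by
    rw [Real.rpow_def_of_pos (by norm_num)]
    apply Real.exp_le_exp.2
    refine h3.trans (le_of_eq ?_)
    ring
  have h6 : ((Good.image F).card : ℝ) * (2 : ℝ) ^ (3 * (Fintype.card ι : ℝ) / 4 - 1) ≤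
      (2 : ℝ) ^ ((Fintype.card ι : ℝ) / 4) * (2 : ℝ) ^ (3 * (Fintype.card ι : ℝ) / 4 - 1) :=
    mul_le_mul_of_nonneg_right (hi.trans h5) (by positivity)
  have h7 : (2 : ℝ) ^ ((Fintype.card ι : ℝ) / 4) * (2 : ℝ) ^ (3 * (Fintype.card ι : ℝ) / 4 - 1) =
      (2 : ℝ) ^ Fintype.card ι / 2 := by
    rw [← Real.rpow_add (by norm_num)]
    rw [show (Fintype.card ι : ℝ) / 4 + (3 * (Fintype.card ι : ℝ) / 4 - 1) =
      (Fintype.card ι : ℝ) - 1 by ring, Real.rpow_sub (by norm_num), Real.rpow_natCast,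
      Real.rpow_one]
  linarith

end Pool.Agent.Lib.MP_183cce_co.RR
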