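import Pool.Agent.Lib.MP_183cce_co.RR.Row
import Pool.Agent.Lib.MP_183cce_co.RR.Pig

/-!
RR-Part: the partial signing lemma.

PROOF.  ι' = {i // i ∈ S}, P = {p // 0 < ∑_{i∈S} a_pi²}, u_p = ∑_{i∈S} a_pi²/b² > 0 on P,
k p σ = round ((∑_{i∈S} a_pi sg(σ i))/b), w p = wt (min 1 (u_p²)).  `wt_sum` and `min_sq_le_phi`:
∏_p ∑_{k∈K} exp(-w) ≤ exp(∑_p 4 phi u_p) ≤ exp(4 |S|/2000) =: exp E1; `row_mean`: E2 = 110 |S|/2000;
E1 + 2E2 = 224 |S|/2000 = 0.112 |S| ≤ |S| log 2/4 (log 2 > 0.69, `Real.log_two_gt_d9`).  `pig` gives σ, σ'.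
χ i = 0 if i ∉ S or σ i = σ' i, else 1 if σ i = true and -1 if σ i = false; so χ i = (sg (σ i) - sg (σ' i))/2
on S.  For p ∈ P both X/b and X'/b are within 1/2 of the same integer (`abs_sub_round`), so |X - X'| ≤ b and
|∑ a χ| ≤ b/2 ≤ b; for p ∉ P all a_pi = 0 (i ∈ S) and the sum is 0.
-/

set_option autoImplicit false

namespace Pool.Agent.Lib.MP_183cce_co.RR

private theorem part_sum {ι : Type} [DecidableEq ι] (S : Finset ι) (a : ι → ℝ)
    (σ σ' : {x // x ∈ S} → Bool) (χ : ι → ℤ)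
    (hχ : ∀ i : {x // x ∈ S}, ((χ i : ℤ) : ℝ) = (sg (σ i) - sg (σ' i)) / 2) :
    ∑ i ∈ S, a i * χ i =
      ((∑ i : {x // x ∈ S}, a i * sg (σ i)) - ∑ i : {x // x ∈ S}, a i * sg (σ' i)) / 2 := by
  rw [← Finset.sum_coe_sort S (fun i => a i * (χ i : ℝ)), ← Finset.sum_sub_distrib,
    Finset.sum_div]
  refine Finset.sum_congr rfl fun i _ => ?_
  rw [hχ i]
  ring

theorem partial_signing {m : ℕ} {ι : Type} [DecidableEq ι] (a : Fin m → ι → ℝ) (S : Finset ι)
    {b : ℝ} (hb : 0 < b) (hS : 4 ≤ S.card)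
    (h : ∑ p, phi ((∑ i ∈ S, a p i ^ 2) / b ^ 2) ≤ S.card / 2000) :
    ∃ χ : ι → ℤ, PartialSigning a S b χ := by
  classical
  set u : Fin m → ℝ := fun p => (∑ i ∈ S, a p i ^ 2) / b ^ 2 with hu
  have hb2 : 0 < b ^ 2 := by positivity
  have hu0 : ∀ p, 0 ≤ u p := fun p =>
    div_nonneg (Finset.sum_nonneg fun i _ => sq_nonneg _) hb2.le
  set Pf : Finset (Fin m) := Finset.univ.filter fun p => 0 < ∑ i ∈ S, a p i ^ 2 with hPf
  have hPfu : ∀ p : {x // x ∈ Pf}, 0 < u p := fun p => div_pos (Finset.mem_filter.1 p.2).2 hb2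
  have hphi : ∑ p : {x // x ∈ Pf}, phi (u p) ≤ S.card / 2000 := by
    rw [Finset.sum_coe_sort Pf (fun p => phi (u p))]
    exact (Finset.sum_le_sum_of_subset_of_nonneg (Finset.subset_univ _)
      fun p _ _ => phi_nonneg (hu0 p)).trans h
  have hcard : Fintype.card {x // x ∈ S} = S.card := Fintype.card_coe S
  have hq0 : ∀ p : {x // x ∈ Pf}, 0 < min 1 (u p ^ 2) := fun p =>
    lt_min one_pos (pow_pos (hPfu p) 2)
  obtain ⟨σ, σ', h1, h2⟩ := pig (ι := {x // x ∈ S}) (P := {x // x ∈ Pf})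
    (fun p σ => round ((∑ i : {x // x ∈ S}, a p i * sg (σ i)) / b))
    (fun p => wt (min 1 (u p ^ 2))) (4 * (S.card / 2000)) (110 * (S.card / 2000))
    (fun p k => wt_nonneg (hq0 p) (min_le_left _ _) k)
    (by
      intro K
      refine (Finset.prod_le_prod (fun p _ => Finset.sum_nonneg fun j _ => (Real.exp_pos _).le)
        (fun p _ => wt_sum (hq0 p) (min_le_left _ _) K)).trans ?_
      rw [← Real.exp_sum, ← Finset.mul_sum]
      apply Real.exp_le_exp.2
      refine mul_le_mul_of_nonneg_left ?_ (by norm_num)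
      exact (Finset.sum_le_sum fun (p : {x // x ∈ Pf}) _ => min_sq_le_phi (hu0 p)).trans hphi)
    (by
      rw [Finset.sum_comm]
      refine (Finset.sum_le_sum fun (p : {x // x ∈ Pf}) _ =>
        row_mean (fun i : {x // x ∈ S} => a p i) hb (hPfu p) ?_).trans ?_
      · rw [Finset.sum_coe_sort S (fun i => a p i ^ 2), hu]
        field_simp
      · rw [← Finset.mul_sum, ← Finset.mul_sum]
        refine mul_le_mul_of_nonneg_left ?_ (by positivity)
        exact mul_le_mul_of_nonneg_left hphi (by norm_num))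
    (by
      rw [hcard]
      have hl := Real.log_two_gt_d9
      have hc : (0 : ℝ) ≤ S.card := Nat.cast_nonneg _
      nlinarith)
    (by rw [hcard]; exact hS)
  set χ : ι → ℤ := fun i => if hi : i ∈ S then
    (if σ ⟨i, hi⟩ = σ' ⟨i, hi⟩ then 0 else if σ ⟨i, hi⟩ = true then 1 else -1) else 0 with hχd
  have hχ : ∀ i : {x // x ∈ S}, ((χ i : ℤ) : ℝ) = (sg (σ i) - sg (σ' i)) / 2 := by
    intro i
    have hi : (i : ι) ∈ S := i.2
    have e : (⟨(i : ι), hi⟩ : {x // x ∈ S}) = i := rfl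
    simp only [hχd, hi, dite_true, e]
    unfold sg
    rcases hs : σ i <;> rcases hs' : σ' i <;> simp <;> norm_num
  refine ⟨χ, ?_, ?_, ?_⟩
  · intro i
    simp only [hχd]
    split_ifs <;> simp
  · rw [← hcard]
    refine h2.trans ?_
    refine Nat.mul_le_mul_left 16 ?_
    refine Finset.card_le_card_of_injOn (fun i : {x // x ∈ S} => (i : ι)) ?_
      (fun i _ j _ hij => Subtype.ext hij)
    intro i hi
    have hi' : σ i ≠ σ' i := (Finset.mem_filter.1 (Finset.mem_coe.1 hi)).2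
    rw [Finset.mem_coe, Finset.mem_filter]
    refine ⟨i.2, ?_⟩
    intro h0
    have h3 := hχ i
    rw [h0] at h3
    apply hi'
    unfold sg at h3
    rcases hs : σ i <;> rcases hs' : σ' i <;> rw [hs, hs'] at h3 <;> simp at h3 ⊢ <;>
      norm_num at h3
  · intro p
    rw [part_sum S (a p) σ σ' χ hχ]
    by_cases hp : p ∈ Pf
    · have h3 := h1 ⟨p, hp⟩
      simp only at h3
      set X := ∑ i : {x // x ∈ S}, a p i * sg (σ i) with hX
      set X' := ∑ i : {x // x ∈ S}, a p i * sg (σ' i) with hX'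
      have h4 := abs_sub_round (X / b)
      have h5 := abs_sub_round (X' / b)
      rw [← h3] at h5
      have h6 : |X / b - X' / b| ≤ 1 := by
        rw [abs_le] at h4 h5 ⊢
        constructor <;> linarith [h4.1, h4.2, h5.1, h5.2]
      have h7 : |X - X'| ≤ b := by
        rw [← sub_div, abs_div, abs_of_pos hb, div_le_one hb] at h6
        exact h6
      rw [abs_div, abs_of_pos (by norm_num : (0 : ℝ) < 2)]
      linarith
    · have h8 : ∑ i ∈ S, a p i ^ 2 ≤ 0 := by
        by_contra hcon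
        exact hp (Finset.mem_filter.2 ⟨Finset.mem_univ _, not_le.1 hcon⟩)
      have h9 : ∀ i ∈ S, a p i = 0 := by
        intro i hi
        have := (Finset.sum_eq_zero_iff_of_nonneg (fun i _ => sq_nonneg (a p i))).1
          (le_antisymm h8 (Finset.sum_nonneg fun i _ => sq_nonneg _)) i hi
        exact pow_eq_zero_iff (two_ne_zero) |>.1 this
      have h10 : ∀ τ : {x // x ∈ S} → Bool, ∑ i : {x // x ∈ S}, a p i * sg (τ i) = 0 := by
        intro τ
        refine Finset.sum_eq_zero fun i _ => ?_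
        rw [h9 i i.2, zero_mul]
      rw [h10, h10]
      simp [hb.le]

end Pool.Agent.Lib.MP_183cce_co.RR
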