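import Pool.Agent.Lib.MP_183cce_co.RR.Defs

/-!
RR-Wt: elementary facts on the weights `wt q k` (`wt q 0 = 0`, `wt q k = log (k²/q)` otherwise).

PROOFS.
`wt_nonneg`: k ≠ 0 gives k² ≥ 1 ≥ q.
`wt_sum`: exp(-wt q k) = q/k² for k ≠ 0 and 1 for k = 0; ∑_{k ∈ K, k ≠ 0} 1/k² ≤ 4 for every finite
K ⊂ ℤ (K ⊂ [-N, N]; 2 ∑_{j=1}^N 1/j² ≤ 2(2 - 1/N)); 1 + 4q ≤ exp (4q).
`wt_round`: let k = round x ≠ 0.  Then |x| ≥ 1/2 (`round_eq_zero_iff` / `abs_sub_round`), |k| ≤ |x| + 1/2 ≤ 2|x|.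
  (a) q = 1: log (k²) ≤ k² ≤ 4x² (`Real.log_le_self`...).
  (b) 0 < q ≤ 1: log(k²/q) = log(k²) + log(1/q) ≤ 4x² + log(1/q) ≤ 16 x⁴ (1 + log (1/q)), as 4x² ≥ 1.
`min_sq_le_phi`: u ≤ 1: u² ≤ u and u² ≤ u√u; u ≥ 1: 1 ≤ u, 1 ≤ u√u.
`log_bound`: for 0 < u ≤ 1: u²(1 + 2 log(1/u)) ≤ (16/7) u √u: with z = u^(1/4): log(1/u) = 4 log(1/z) ≤
  4(1/z - 1), so √u(1 + 2log(1/u)) ≤ z²(8/z - 7) = 8z - 7z² ≤ 16/7.
`phi_eq_of_le`, `phi_eq_of_ge`: as √u ≤ 1 resp. ≥ 1.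
-/

set_option autoImplicit false

namespace Pool.Agent.Lib.MP_183cce_co.RR

theorem wt_nonneg {q : ℝ} (hq : 0 < q) (hq1 : q ≤ 1) (k : ℤ) : 0 ≤ wt q k := by
  unfold wt
  split_ifs with h
  · exact le_rfl
  · refine Real.log_nonneg ?_
    rw [le_div_iff₀ hq, one_mul]
    have h1 : 1 ≤ k ^ 2 := by
      have : 0 < k ^ 2 := by positivity
      omega
    have h2 : (1 : ℝ) ≤ (k : ℝ) ^ 2 := by exact_mod_cast h1
    linarith

private theorem wt_sum_nat (N : ℕ) : ∑ j ∈ Finset.range (N + 1), 1 / ((j : ℝ) + 1) ^ 2 ≤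
    2 - 1 / ((N : ℝ) + 1) := by
  induction N with
  | zero => norm_num
  | succ N ih =>
    rw [Finset.sum_range_succ]
    have h1 : (0 : ℝ) < (N : ℝ) + 1 := by positivity
    have h2 : 1 / (((N + 1 : ℕ) : ℝ) + 1) ^ 2 ≤ 1 / ((N : ℝ) + 1) -
        1 / (((N + 1 : ℕ) : ℝ) + 1) := by
      push_cast
      rw [div_sub_div _ _ (by positivity) (by positivity), div_le_div_iff₀ (by positivity)
        (by positivity)]
      nlinarith
    linarith

private theorem wt_sum_nat' (N : ℕ) : ∑ j ∈ Finset.range N, 1 / ((j : ℝ) + 1) ^ 2 ≤ 2 := by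
  have h := wt_sum_nat N
  rw [Finset.sum_range_succ] at h
  have h1 : (0 : ℝ) < 1 / ((N : ℝ) + 1) ^ 2 := by positivity
  have h2 : (0 : ℝ) < 1 / ((N : ℝ) + 1) := by positivity
  linarith

private theorem wt_sum_int (K : Finset ℤ) :
    ∑ k ∈ K.filter (fun k => k ≠ 0), 1 / (k : ℝ) ^ 2 ≤ 4 := by
  classical
  set N := K.sup Int.natAbs with hN
  have hsub : K.filter (fun k => k ≠ 0) ⊆
      (Finset.range N).image (fun j : ℕ => ((j : ℤ) + 1)) ∪
        (Finset.range N).image (fun j : ℕ => -((j : ℤ) + 1)) := by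
    intro k hk
    rw [Finset.mem_filter] at hk
    have h1 : k.natAbs ≤ N := Finset.le_sup (f := Int.natAbs) hk.1
    have h2 := hk.2
    rw [Finset.mem_union, Finset.mem_image, Finset.mem_image]
    rcases lt_or_gt_of_ne h2 with h | h
    · right
      exact ⟨k.natAbs - 1, Finset.mem_range.2 (by omega), by omega⟩
    · left
      exact ⟨k.natAbs - 1, Finset.mem_range.2 (by omega), by omega⟩
  have h1 : ∑ k ∈ (Finset.range N).image (fun j : ℕ => ((j : ℤ) + 1)), 1 / (k : ℝ) ^ 2 ≤ 2 := by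
    rw [Finset.sum_image (fun a _ b _ h => by
      have h' : (a : ℤ) + 1 = (b : ℤ) + 1 := h
      omega)]
    refine le_trans (le_of_eq (Finset.sum_congr rfl fun j _ => ?_)) (wt_sum_nat' N)
    push_cast
    ring
  have h2 : ∑ k ∈ (Finset.range N).image (fun j : ℕ => -((j : ℤ) + 1)), 1 / (k : ℝ) ^ 2 ≤ 2 := by
    rw [Finset.sum_image (fun a _ b _ h => by
      have h' : -((a : ℤ) + 1) = -((b : ℤ) + 1) := h
      omega)]
    refine le_trans (le_of_eq (Finset.sum_congr rfl fun j _ => ?_)) (wt_sum_nat' N)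
    push_cast
    rw [neg_sq]
  have h3 := Finset.sum_le_sum_of_subset_of_nonneg (f := fun k : ℤ => 1 / (k : ℝ) ^ 2) hsub
    (fun i _ _ => by positivity)
  have h4 := Finset.sum_union_inter (s₁ := (Finset.range N).image (fun j : ℕ => ((j : ℤ) + 1)))
    (s₂ := (Finset.range N).image (fun j : ℕ => -((j : ℤ) + 1)))
    (f := fun k : ℤ => 1 / (k : ℝ) ^ 2)
  have h5 : 0 ≤ ∑ k ∈ (Finset.range N).image (fun j : ℕ => ((j : ℤ) + 1)) ∩
      (Finset.range N).image (fun j : ℕ => -((j : ℤ) + 1)), 1 / (k : ℝ) ^ 2 :=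
    Finset.sum_nonneg fun i _ => by positivity
  linarith

theorem wt_sum {q : ℝ} (hq : 0 < q) (hq1 : q ≤ 1) (K : Finset ℤ) :
    ∑ k ∈ K, Real.exp (-(wt q k)) ≤ Real.exp (4 * q) := by
  classical
  rw [← Finset.sum_filter_add_sum_filter_not K (fun k => k ≠ 0)]
  have h1 : ∑ k ∈ K.filter (fun k => k ≠ 0), Real.exp (-(wt q k)) =
      q * ∑ k ∈ K.filter (fun k => k ≠ 0), 1 / (k : ℝ) ^ 2 := by
    rw [Finset.mul_sum]
    refine Finset.sum_congr rfl fun k hk => ?_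
    have hk0 : k ≠ 0 := (Finset.mem_filter.1 hk).2
    have hk1 : (k : ℝ) ≠ 0 := by exact_mod_cast hk0
    unfold wt
    rw [if_neg hk0, Real.exp_neg, Real.exp_log (by positivity)]
    field_simp
  have h2 : ∑ k ∈ K.filter (fun k => ¬ k ≠ 0), Real.exp (-(wt q k)) ≤ 1 := by
    have hs : K.filter (fun k => ¬ k ≠ 0) ⊆ {0} := by
      intro k hk
      rw [Finset.mem_filter] at hk
      rw [Finset.mem_singleton]
      exact not_not.1 hk.2
    refine (Finset.sum_le_sum_of_subset_of_nonneg hs fun i _ _ => (Real.exp_pos _).le).trans ?_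
    rw [Finset.sum_singleton]
    unfold wt
    rw [if_pos rfl]
    simp
  have h3 := mul_le_mul_of_nonneg_left (wt_sum_int K) hq.le
  have h4 := Real.add_one_le_exp (4 * q)
  rw [h1]
  linarith

private theorem wt_round_abs (x : ℝ) (h : round x ≠ 0) :
    1 ≤ ((round x : ℤ) : ℝ) ^ 2 ∧ ((round x : ℤ) : ℝ) ^ 2 ≤ 4 * x ^ 2 := by
  have h1 := abs_sub_round x
  have h2 : (1 : ℝ) ≤ |((round x : ℤ) : ℝ)| := by
    have : 1 ≤ |round x| := Int.one_le_abs h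
    exact_mod_cast this
  have h3 : |((round x : ℤ) : ℝ)| - |x| ≤ |x - round x| := by
    rw [abs_sub_comm]
    exact abs_sub_abs_le_abs_sub _ _
  have h4 : |((round x : ℤ) : ℝ)| ≤ 2 * |x| := by linarith
  have h5 : 0 ≤ |x| := abs_nonneg x
  constructor
  · rw [← sq_abs]
    nlinarith
  · rw [← sq_abs, ← sq_abs x]
    nlinarith [abs_nonneg ((round x : ℤ) : ℝ)]

theorem wt_round_one (x : ℝ) : wt 1 (round x) ≤ 4 * x ^ 2 := by
  unfold wt
  split_ifs with h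
  · positivity
  · obtain ⟨h1, h2⟩ := wt_round_abs x h
    rw [div_one]
    exact (Real.log_le_self (by linarith)).trans h2

theorem wt_round {q : ℝ} (hq : 0 < q) (hq1 : q ≤ 1) (x : ℝ) :
    wt q (round x) ≤ 16 * x ^ 4 * (1 + Real.log (1 / q)) := by
  have hl : 0 ≤ Real.log (1 / q) := Real.log_nonneg (by rw [le_div_iff₀ hq]; linarith)
  unfold wt
  split_ifs with h
  · positivity
  · obtain ⟨h1, h2⟩ := wt_round_abs x h
    have h3 : Real.log (((round x : ℤ) : ℝ) ^ 2 / q) =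
        Real.log (((round x : ℤ) : ℝ) ^ 2) + Real.log (1 / q) := by
      rw [← Real.log_mul (by linarith) (by positivity)]
      congr 1
      ring
    have h4 : Real.log (((round x : ℤ) : ℝ) ^ 2) ≤ 4 * x ^ 2 :=
      (Real.log_le_self (by linarith)).trans h2
    have h5 : 1 ≤ 4 * x ^ 2 := h1.trans h2
    have h6 : 4 * x ^ 2 ≤ 16 * x ^ 4 := by nlinarith
    rw [h3]
    nlinarith

private theorem wt_le_sqrt {u : ℝ} (hu : 0 ≤ u) (hu1 : u ≤ 1) : u ≤ √u := by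
  exact Real.le_sqrt_of_sq_le (by nlinarith)

theorem min_sq_le_phi {u : ℝ} (hu : 0 ≤ u) : min 1 (u ^ 2) ≤ phi u := by
  unfold phi
  rcases le_total u 1 with h | h
  · have h1 := wt_le_sqrt hu h
    refine (min_le_right _ _).trans (le_min (by nlinarith) (by nlinarith))
  · have h1 : 1 ≤ √u := Real.one_le_sqrt.2 h
    exact (min_le_left _ _).trans (le_min h (by nlinarith))

theorem log_bound {u : ℝ} (hu : 0 < u) (hu1 : u ≤ 1) :
    u ^ 2 * (1 + 2 * Real.log (1 / u)) ≤ 16 / 7 * (u * Real.sqrt u) := by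
  set z := √(√u) with hz
  have hz0 : 0 < z := Real.sqrt_pos.2 (Real.sqrt_pos.2 hu)
  have h1 : z ^ 2 = √u := Real.sq_sqrt (Real.sqrt_nonneg u)
  have h2 : u = z ^ 4 := by
    have : √u ^ 2 = u := Real.sq_sqrt hu.le
    rw [← this, ← h1]
    ring
  rw [← h1]
  rw [h2]
  have h3 : Real.log (1 / z ^ 4) = -(4 * Real.log z) := by
    rw [one_div, Real.log_inv, Real.log_pow]
    norm_num
  have h4 : 1 - z⁻¹ ≤ Real.log z := Real.one_sub_inv_le_log_of_pos hz0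
  rw [h3]
  have h5 : 1 + 2 * -(4 * Real.log z) ≤ 8 * z⁻¹ - 7 := by linarith
  have h6 : (z ^ 4) ^ 2 * (1 + 2 * -(4 * Real.log z)) ≤ (z ^ 4) ^ 2 * (8 * z⁻¹ - 7) :=
    mul_le_mul_of_nonneg_left h5 (by positivity)
  have h7 : (z ^ 4) ^ 2 * (8 * z⁻¹ - 7) = z ^ 6 * (8 * z - 7 * z ^ 2) := by
    field_simp
  have h8 : 8 * z - 7 * z ^ 2 ≤ 16 / 7 := by nlinarith [sq_nonneg (z - 4 / 7)]
  have h9 : z ^ 6 * (8 * z - 7 * z ^ 2) ≤ z ^ 6 * (16 / 7) :=
    mul_le_mul_of_nonneg_left h8 (by positivity)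
  calc _ ≤ _ := h6
    _ = _ := h7
    _ ≤ _ := h9
    _ = _ := by ring

theorem phi_of_le {u : ℝ} (hu : 0 ≤ u) (hu1 : u ≤ 1) : phi u = u * Real.sqrt u := by
  unfold phi
  have h : √u ≤ 1 := Real.sqrt_le_one.2 hu1
  exact min_eq_right (by nlinarith)

theorem phi_of_ge {u : ℝ} (hu1 : 1 ≤ u) : phi u = u := by
  unfold phi
  have h : 1 ≤ √u := Real.one_le_sqrt.2 hu1
  exact min_eq_left (by nlinarith)

theorem phi_nonneg {u : ℝ} (hu : 0 ≤ u) : 0 ≤ phi u := by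
  unfold phi
  exact le_min hu (by positivity)

/-- for every threshold -/
theorem phi_le_of_le {u θ : ℝ} (hu : 0 ≤ u) (h : u ≤ θ) : phi u ≤ Real.sqrt θ * u := by
  unfold phi
  refine (min_le_right _ _).trans ?_
  have h1 : √u ≤ √θ := Real.sqrt_le_sqrt h
  nlinarith

end Pool.Agent.Lib.MP_183cce_co.RR
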