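import Pool.Agent.Lib.MP_183cce_co.RR.Mom
import Pool.Agent.Lib.MP_183cce_co.RR.Wt

/-!
RR-Row: the mean cost of one row.

PROOF of `row_mean`.  X = ∑ a_i s_i, R = ∑ a_i² = u b², u > 0, q = min 1 (u²).
If u ≤ 1: q = u², log(1/q) = 2 log(1/u); `wt_round` with x = X/b and `mom_four`:
∑_σ wt ≤ 16 (1 + 2 log(1/u)) ∑_σ (X/b)⁴ ≤ 2^n · 48 u² (1 + 2 log (1/u)) ≤ 2^n · 48·(16/7) u√u ≤
2^n · 110 · phi u (`log_bound`, `phi_of_le`).
If u ≥ 1: q = 1; `wt_round_one` and `mom_two`: ∑_σ wt ≤ 4 ∑ (X/b)² = 2^n·4u ≤ 2^n·110 phi u.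
-/

set_option autoImplicit false

namespace Pool.Agent.Lib.MP_183cce_co.RR

theorem row_mean {ι : Type} [Fintype ι] [DecidableEq ι] (a : ι → ℝ) {b u : ℝ} (hb : 0 < b)
    (hu : 0 < u) (h : ∑ i, a i ^ 2 = u * b ^ 2) :
    ∑ σ : ι → Bool, wt (min 1 (u ^ 2)) (round ((∑ i, a i * sg (σ i)) / b))
      ≤ 2 ^ Fintype.card ι * (110 * phi u) := by
  have hn : (0 : ℝ) < 2 ^ Fintype.card ι := by positivity
  rcases le_total u 1 with h1 | h1
  · have hq : min 1 (u ^ 2) = u ^ 2 := min_eq_right (by nlinarith)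
    have hq0 : 0 < u ^ 2 := by positivity
    have hq1 : u ^ 2 ≤ 1 := by nlinarith
    rw [hq]
    have hlog : Real.log (1 / u ^ 2) = 2 * Real.log (1 / u) := by
      rw [one_div, one_div, Real.log_inv, Real.log_inv, Real.log_pow]
      push_cast
      ring
    have hl0 : 0 ≤ Real.log (1 / u) := Real.log_nonneg (by rw [le_div_iff₀ hu]; linarith)
    have hstep : ∀ σ : ι → Bool, wt (u ^ 2) (round ((∑ i, a i * sg (σ i)) / b)) ≤
        16 * (1 + 2 * Real.log (1 / u)) / b ^ 4 * (∑ i, a i * sg (σ i)) ^ 4 := by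
      intro σ
      refine (wt_round hq0 hq1 _).trans (le_of_eq ?_)
      rw [hlog, div_pow]
      field_simp
    refine (Finset.sum_le_sum fun σ _ => hstep σ).trans ?_
    rw [← Finset.mul_sum]
    have hm := mom_four a
    rw [h] at hm
    have hc0 : 0 ≤ 16 * (1 + 2 * Real.log (1 / u)) / b ^ 4 := by positivity
    refine (mul_le_mul_of_nonneg_left hm hc0).trans ?_
    have e : 16 * (1 + 2 * Real.log (1 / u)) / b ^ 4 *
        (2 ^ Fintype.card ι * (3 * (u * b ^ 2) ^ 2)) =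
        2 ^ Fintype.card ι * (48 * (u ^ 2 * (1 + 2 * Real.log (1 / u)))) := by
      field_simp
      ring
    rw [e, phi_of_le hu.le h1]
    refine mul_le_mul_of_nonneg_left ?_ hn.le
    have hb2 := log_bound hu h1
    have hs : 0 ≤ u * Real.sqrt u := mul_nonneg hu.le (Real.sqrt_nonneg u)
    nlinarith
  · have hq : min 1 (u ^ 2) = 1 := min_eq_left (by nlinarith)
    rw [hq]
    have hstep : ∀ σ : ι → Bool, wt 1 (round ((∑ i, a i * sg (σ i)) / b)) ≤
        4 / b ^ 2 * (∑ i, a i * sg (σ i)) ^ 2 := by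
      intro σ
      refine (wt_round_one _).trans (le_of_eq ?_)
      rw [div_pow]
      field_simp
    refine (Finset.sum_le_sum fun σ _ => hstep σ).trans ?_
    rw [← Finset.mul_sum, mom_two, h, phi_of_ge h1]
    have e : 4 / b ^ 2 * (2 ^ Fintype.card ι * (u * b ^ 2)) =
        2 ^ Fintype.card ι * (4 * u) := by
      field_simp
    rw [e]
    refine mul_le_mul_of_nonneg_left ?_ hn.le
    linarith

end Pool.Agent.Lib.MP_183cce_co.RR
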