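import Pool.Agent.Lib.MP_183cce_co.RR.Uni
import Pool.Agent.Lib.MP_183cce_co.RR.Num

/-!
RR-Tot: the total probability of the bad event.

PROOF.  Fix A ≥ 1, 0 < κ ≤ 1/20.  For each s with 1 ≤ s ≤ N ≤ A m put ρ = s/m, M = A m, b = 448000 A ρ^κ,
τ = 16000000 ρ/b⁶ ≤ 1 (`tau_le`), y = b²/4000.  `uni`: exponent = m·(LHS of `expo`) ≤ -2 m ρ^(2κ) ≤ -2 m^(1-2κ) (ρ ≥ 1/m).
(s(1 + log(Am/s)) = m ρ(1 + log(A/ρ)).)  Note T.card ≤ 16000000·s/b⁶ is T.card ≤ τ m.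
Sum over s = 1..N: ≤ 2N exp(-2m^(1-2κ)) ≤ 2Am exp(-2 m^(1-2κ)) ≤ exp(-m^(1-2κ)) for m ≥ m0(A, κ)
(2Am exp(-m^(1-2κ)) → 0; e.g. m^(1-2κ) ≥ √m and exp √m ≥ 2Am eventually; `tendsto_rpow..`/`isLittleO`).
-/

set_option autoImplicit false

open MeasureTheory

namespace Pool.Agent.Lib.MP_183cce_co.RR

private theorem tot_exp {A κ : ℝ} (hA : 1 ≤ A) (hκ : 0 < κ) (hκ1 : κ ≤ 1 / 20) {m : ℕ}
    (hm : 48 * A ≤ m) : A * m * 2 ≤ Real.exp ((m : ℝ) ^ (1 - 2 * κ)) := by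
  have hm1 : (1 : ℝ) ≤ m := by linarith
  have hm0 : (0 : ℝ) < m := by linarith
  have h1 : (m : ℝ) ^ (1 / 2 : ℝ) ≤ (m : ℝ) ^ (1 - 2 * κ) :=
    Real.rpow_le_rpow_of_exponent_le hm1 (by linarith)
  have h0 : (0 : ℝ) ≤ (m : ℝ) ^ (1 / 2 : ℝ) := Real.rpow_nonneg hm0.le _
  have h2 : ((m : ℝ) ^ (1 / 2 : ℝ)) ^ 4 = (m : ℝ) ^ 2 := by
    rw [← Real.rpow_natCast, ← Real.rpow_mul hm0.le]
    norm_num
  have h3 : (m : ℝ) ^ 2 ≤ ((m : ℝ) ^ (1 - 2 * κ)) ^ 4 := by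
    rw [← h2]
    exact pow_le_pow_left₀ h0 h1 4
  have h4 := Real.pow_div_factorial_le_exp ((m : ℝ) ^ (1 - 2 * κ)) (h0.trans h1) 4
  have h5 : ((Nat.factorial 4 : ℕ) : ℝ) = 24 := by norm_num [Nat.factorial]
  rw [h5] at h4
  have h6 : (m : ℝ) ^ 2 / 24 ≤ Real.exp ((m : ℝ) ^ (1 - 2 * κ)) := by
    refine le_trans ?_ h4
    gcongr
  refine le_trans ?_ h6
  rw [le_div_iff₀ (by norm_num)]
  nlinarith

theorem tot {A κ : ℝ} (hA : 1 ≤ A) (hκ : 0 < κ) (hκ1 : κ ≤ 1 / 20) :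
    ∃ m0 : ℕ, 1 ≤ m0 ∧ ∀ m : ℕ, m0 ≤ m →
      ∀ [MeasurableSpace (Matrix.orthogonalGroup (Fin m) ℝ)]
        [BorelSpace (Matrix.orthogonalGroup (Fin m) ℝ)]
        (μ : Measure (Matrix.orthogonalGroup (Fin m) ℝ)) [IsProbabilityMeasure μ]
        [μ.IsHaarMeasure] (N : ℕ) (v : Fin N → Fin m → ℝ), (N : ℝ) ≤ A * m →
        (∀ i, ∑ p, v i p ^ 2 = 1) →
      μ {U | ∃ S : Finset (Fin N), 1 ≤ S.card ∧ ∃ T : Finset (Fin m),
          (T.card : ℝ) ≤ 16000000 * S.card / (448000 * A * ((S.card : ℝ) / m) ^ κ) ^ 6 ∧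
          (448000 * A * ((S.card : ℝ) / m) ^ κ) ^ 2 / 4000 * S.card
            < ∑ i ∈ S, mass T (U.1.mulVec (v i))}
        ≤ ENNReal.ofReal (Real.exp (-((m : ℝ) ^ (1 - 2 * κ)))) := by
  refine ⟨⌈48 * A⌉₊, Nat.one_le_iff_ne_zero.2 ?_, ?_⟩
  · intro h
    rw [Nat.ceil_eq_zero] at h
    linarith
  intro m hm _ _ μ _ _ N v hN hv
  have hm' : 48 * A ≤ m := (Nat.le_ceil _).trans (by exact_mod_cast hm)
  have hm1 : (1 : ℝ) ≤ m := by linarith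
  have hm0 : (0 : ℝ) < m := by linarith
  set B : ENNReal := ENNReal.ofReal (2 * Real.exp (-(2 * (m : ℝ) ^ (1 - 2 * κ)))) with hB
  have hone : ∀ s ∈ Finset.Icc 1 N, μ {U : Matrix.orthogonalGroup (Fin m) ℝ |
      ∃ S : Finset (Fin N), S.card = s ∧ ∃ T : Finset (Fin m),
        (T.card : ℝ) ≤ 16000000 * ((s : ℝ) / m) / (448000 * A * ((s : ℝ) / m) ^ κ) ^ 6 * m ∧
        (448000 * A * ((s : ℝ) / m) ^ κ) ^ 2 / 4000 * s
          < ∑ i ∈ S, mass T (U.1.mulVec (v i))} ≤ B := by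
    intro s hs
    rw [Finset.mem_Icc] at hs
    have hs1 : (1 : ℝ) ≤ s := by exact_mod_cast hs.1
    have hs0 : (0 : ℝ) < s := by linarith
    have hsN : (s : ℝ) ≤ N := by exact_mod_cast hs.2
    have hρ : 0 < (s : ℝ) / m := div_pos hs0 hm0
    have hρA : (s : ℝ) / m ≤ A := by
      rw [div_le_iff₀ hm0]
      linarith
    have hτ1 := tau_le hA hκ hκ1 hρ hρA
    have hP : 0 < ((s : ℝ) / m) ^ κ := Real.rpow_pos_of_pos hρ κ
    have hτ0 : 0 < 16000000 * ((s : ℝ) / m) / (448000 * A * ((s : ℝ) / m) ^ κ) ^ 6 := by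
      have : 0 < A := by linarith
      positivity
    refine (uni μ v hv hs.1 hs.2 hN hτ0 hτ1
      (y := (448000 * A * ((s : ℝ) / m) ^ κ) ^ 2 / 4000)).trans ?_
    rw [hB]
    apply ENNReal.ofReal_le_ofReal
    have hex := expo hA hκ hκ1 hρ hρA
    have hr : (m : ℝ) ^ (1 - 2 * κ) ≤ m * ((s : ℝ) / m) ^ (2 * κ) := by
      have e1 : (m : ℝ) ^ (1 - 2 * κ) = m * (1 / (m : ℝ)) ^ (2 * κ) := by
        rw [Real.rpow_sub hm0, Real.rpow_one, Real.div_rpow zero_le_one hm0.le, Real.one_rpow]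
        ring
      rw [e1]
      apply mul_le_mul_of_nonneg_left _ hm0.le
      apply Real.rpow_le_rpow (by positivity) _ (by linarith)
      gcongr
    have hlog : A / ((s : ℝ) / m) = A * m / s := by
      field_simp
    rw [hlog] at hex
    have hex2 := mul_le_mul_of_nonneg_left hex hm0.le
    have hfin : (s : ℝ) * (1 + Real.log (A * m / s))
          + m * (16000000 * ((s : ℝ) / m) / (448000 * A * ((s : ℝ) / m) ^ κ) ^ 6
            * (1 + Real.log (1 / (16000000 * ((s : ℝ) / m)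
              / (448000 * A * ((s : ℝ) / m) ^ κ) ^ 6))))
          + 16000000 * ((s : ℝ) / m) / (448000 * A * ((s : ℝ) / m) ^ κ) ^ 6 * m / 6
          - m * ((448000 * A * ((s : ℝ) / m) ^ κ) ^ 2 / 4000) / 16
        ≤ -(2 * (m : ℝ) ^ (1 - 2 * κ)) := by
      have hsm : (s : ℝ) = m * ((s : ℝ) / m) := by field_simp
      generalize hL : Real.log (A * m / s) = L at hex2 ⊢
      generalize hρ' : (s : ℝ) / m = ρ at hex2 hr hsm ⊢
      rw [hsm]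
      generalize (448000 * A * ρ ^ κ) ^ 6 = b6 at hex2 ⊢
      generalize (448000 * A * ρ ^ κ) ^ 2 = b2 at hex2 ⊢
      generalize Real.log (1 / (16000000 * ρ / b6)) = L2 at hex2 ⊢
      generalize 16000000 * ρ / b6 = τ at hex2 ⊢
      nlinarith [hex2, hr]
    have := Real.exp_le_exp.2 hfin
    linarith
  have hsub : {U : Matrix.orthogonalGroup (Fin m) ℝ |
      ∃ S : Finset (Fin N), 1 ≤ S.card ∧ ∃ T : Finset (Fin m),
          (T.card : ℝ) ≤ 16000000 * S.card / (448000 * A * ((S.card : ℝ) / m) ^ κ) ^ 6 ∧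
          (448000 * A * ((S.card : ℝ) / m) ^ κ) ^ 2 / 4000 * S.card
            < ∑ i ∈ S, mass T (U.1.mulVec (v i))}
      ⊆ ⋃ s ∈ Finset.Icc 1 N, {U : Matrix.orthogonalGroup (Fin m) ℝ |
      ∃ S : Finset (Fin N), S.card = s ∧ ∃ T : Finset (Fin m),
        (T.card : ℝ) ≤ 16000000 * ((s : ℝ) / m) / (448000 * A * ((s : ℝ) / m) ^ κ) ^ 6 * m ∧
        (448000 * A * ((s : ℝ) / m) ^ κ) ^ 2 / 4000 * s
          < ∑ i ∈ S, mass T (U.1.mulVec (v i))} := by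
    rintro U ⟨S, hS, T, hT, h⟩
    simp only [Set.mem_iUnion]
    refine ⟨S.card, ?_, S, rfl, T, ?_, h⟩
    · rw [Finset.mem_Icc]
      refine ⟨hS, ?_⟩
      have := Finset.card_le_univ S
      simpa using this
    · refine hT.trans (le_of_eq ?_)
      have hb : 16000000 * ((S.card : ℝ) / m) / (448000 * A * ((S.card : ℝ) / m) ^ κ) ^ 6 * m
        = 16000000 * (((S.card : ℝ) / m) * m) / (448000 * A * ((S.card : ℝ) / m) ^ κ) ^ 6 := by
        ring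
      rw [hb, div_mul_cancel₀ _ hm0.ne']
  refine (measure_mono hsub).trans ((measure_biUnion_finset_le _ _).trans ?_)
  refine (Finset.sum_le_sum hone).trans ?_
  rw [Finset.sum_const, nsmul_eq_mul, Nat.card_Icc, Nat.add_sub_cancel, hB,
    ← ENNReal.ofReal_natCast, ← ENNReal.ofReal_mul (Nat.cast_nonneg N)]
  apply ENNReal.ofReal_le_ofReal
  have hE := tot_exp hA hκ hκ1 hm'
  have he0 : 0 < Real.exp (-(2 * (m : ℝ) ^ (1 - 2 * κ))) := Real.exp_pos _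
  calc (N : ℝ) * (2 * Real.exp (-(2 * (m : ℝ) ^ (1 - 2 * κ))))
      ≤ (A * m) * (2 * Real.exp (-(2 * (m : ℝ) ^ (1 - 2 * κ)))) :=
        mul_le_mul_of_nonneg_right hN (by positivity)
    _ = (A * m * 2) * Real.exp (-(2 * (m : ℝ) ^ (1 - 2 * κ))) := by ring
    _ ≤ Real.exp ((m : ℝ) ^ (1 - 2 * κ)) * Real.exp (-(2 * (m : ℝ) ^ (1 - 2 * κ))) :=
        mul_le_mul_of_nonneg_right hE he0.le
    _ = Real.exp (-((m : ℝ) ^ (1 - 2 * κ))) := by
        rw [← Real.exp_add]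
        congr 1
        ring

end Pool.Agent.Lib.MP_183cce_co.RR
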