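import Pool.Agent.Lib.MP_183cce_co.RR.One
import Pool.Agent.Lib.MP_183cce_co.RR.Cnt

/-!
RR-Uni: union bound over the sets S of size s and the sets T with |T| ≤ τ m.

PROOF.  The event is the union over S ∈ powersetCard s univ and T ∈ univ.filter(|T| ≤ τ m) of the events of `one_pair`, each of
measure ≤ 2 exp(τ m/6 - m y/16).  `measure_biUnion_finset_le` (twice), |powersetCard| = N.choose s ≤ exp(s(1+log(M/s)))
(`choose_le`), `card_small_sets`.  Everything in `ENNReal.ofReal`; product of exponentials.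
-/

set_option autoImplicit false

open MeasureTheory

namespace Pool.Agent.Lib.MP_183cce_co.RR

theorem uni {m : ℕ} [MeasurableSpace (Matrix.orthogonalGroup (Fin m) ℝ)]
    [BorelSpace (Matrix.orthogonalGroup (Fin m) ℝ)]
    (μ : Measure (Matrix.orthogonalGroup (Fin m) ℝ)) [IsProbabilityMeasure μ] [μ.IsHaarMeasure]
    {N : ℕ} (v : Fin N → Fin m → ℝ) (hv : ∀ i, ∑ p, v i p ^ 2 = 1) {s : ℕ} (hs : 1 ≤ s)
    (hsN : s ≤ N) {M τ y : ℝ} (hM : (N : ℝ) ≤ M) (h0 : 0 < τ) (h1 : τ ≤ 1) :
    μ {U | ∃ S : Finset (Fin N), S.card = s ∧ ∃ T : Finset (Fin m), (T.card : ℝ) ≤ τ * m ∧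
        y * s < ∑ i ∈ S, mass T (U.1.mulVec (v i))}
      ≤ ENNReal.ofReal (2 * Real.exp (s * (1 + Real.log (M / s))
          + m * (τ * (1 + Real.log (1 / τ))) + τ * m / 6 - m * y / 16)) := by
  set B : ENNReal := ENNReal.ofReal (2 * Real.exp (τ * m / 6 - m * y / 16)) with hB
  set F : Finset (Finset (Fin m)) :=
    Finset.univ.filter fun T : Finset (Fin m) => (T.card : ℝ) ≤ τ * m with hF
  set P : Finset (Finset (Fin N)) := Finset.powersetCard s Finset.univ with hP
  have hsub : {U : Matrix.orthogonalGroup (Fin m) ℝ | ∃ S : Finset (Fin N), S.card = s ∧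
        ∃ T : Finset (Fin m), (T.card : ℝ) ≤ τ * m ∧
        y * s < ∑ i ∈ S, mass T (U.1.mulVec (v i))}
      ⊆ ⋃ S ∈ P, ⋃ T ∈ F, {U : Matrix.orthogonalGroup (Fin m) ℝ |
        y * S.card < ∑ i ∈ S, mass T (U.1.mulVec (v i))} := by
    rintro U ⟨S, hS, T, hT, h⟩
    simp only [Set.mem_iUnion]
    refine ⟨S, ?_, T, ?_, ?_⟩
    · rw [hP, Finset.mem_powersetCard]
      exact ⟨Finset.subset_univ _, hS⟩
    · rw [hF, Finset.mem_filter]
      exact ⟨Finset.mem_univ _, hT⟩
    · show y * S.card < ∑ i ∈ S, mass T (U.1.mulVec (v i))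
      rw [hS]
      exact h
  have hone : ∀ S ∈ P, ∀ T ∈ F, μ {U : Matrix.orthogonalGroup (Fin m) ℝ |
        y * S.card < ∑ i ∈ S, mass T (U.1.mulVec (v i))} ≤ B := by
    intro S hS T hT
    rw [hP, Finset.mem_powersetCard] at hS
    rw [hF, Finset.mem_filter] at hT
    have hSn : S.Nonempty := by
      rw [← Finset.card_pos, hS.2]
      omega
    refine (one_pair μ v hv S hSn T y).trans ?_
    rw [hB]
    apply ENNReal.ofReal_le_ofReal
    have : (T.card : ℝ) / 6 - m * y / 16 ≤ τ * m / 6 - m * y / 16 := by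
      have := hT.2
      linarith
    have h2 := Real.exp_le_exp.2 this
    linarith
  have hcardP : (P.card : ℝ) ≤ Real.exp (s * (1 + Real.log (M / s))) := by
    rw [hP, Finset.card_powersetCard, Finset.card_univ, Fintype.card_fin]
    exact choose_le hs hM hsN
  have hcardF : (F.card : ℝ) ≤ Real.exp (m * (τ * (1 + Real.log (1 / τ)))) :=
    card_small_sets m h0 h1
  have e1 : μ (⋃ S ∈ P, ⋃ T ∈ F, {U : Matrix.orthogonalGroup (Fin m) ℝ |
        y * S.card < ∑ i ∈ S, mass T (U.1.mulVec (v i))}) ≤ (P.card : ENNReal) * (F.card * B) := by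
    refine (measure_biUnion_finset_le P _).trans ?_
    have : ∀ S ∈ P, μ (⋃ T ∈ F, {U : Matrix.orthogonalGroup (Fin m) ℝ |
        y * S.card < ∑ i ∈ S, mass T (U.1.mulVec (v i))}) ≤ (F.card : ENNReal) * B := by
      intro S hS
      refine (measure_biUnion_finset_le F _).trans ?_
      refine (Finset.sum_le_sum fun T hT => hone S hS T hT).trans ?_
      rw [Finset.sum_const, nsmul_eq_mul]
    refine (Finset.sum_le_sum this).trans ?_
    rw [Finset.sum_const, nsmul_eq_mul]
  refine (measure_mono hsub).trans (e1.trans ?_)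
  have e2 : (P.card : ENNReal) * (F.card * B)
      = ENNReal.ofReal (P.card * (F.card * (2 * Real.exp (τ * m / 6 - m * y / 16)))) := by
    rw [ENNReal.ofReal_mul (Nat.cast_nonneg _), ENNReal.ofReal_mul (Nat.cast_nonneg _), hB,
      ENNReal.ofReal_natCast, ENNReal.ofReal_natCast]
  rw [e2]
  apply ENNReal.ofReal_le_ofReal
  have e3 : 2 * Real.exp (s * (1 + Real.log (M / s))
          + m * (τ * (1 + Real.log (1 / τ))) + τ * m / 6 - m * y / 16)
      = Real.exp (s * (1 + Real.log (M / s))) * (Real.exp (m * (τ * (1 + Real.log (1 / τ))))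
        * (2 * Real.exp (τ * m / 6 - m * y / 16))) := by
    have : s * (1 + Real.log (M / s)) + m * (τ * (1 + Real.log (1 / τ))) + τ * m / 6 - m * y / 16
        = s * (1 + Real.log (M / s)) + (m * (τ * (1 + Real.log (1 / τ)))
          + (τ * m / 6 - m * y / 16)) := by ring
    rw [this, Real.exp_add, Real.exp_add]
    ring
  rw [e3]
  have n1 : 0 ≤ 2 * Real.exp (τ * m / 6 - m * y / 16) := by positivity
  exact mul_le_mul hcardP (mul_le_mul_of_nonneg_right hcardF n1) (by positivity)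
    (Real.exp_pos _).le

end Pool.Agent.Lib.MP_183cce_co.RR
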